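import Pool.Agent.Lib.MP_6cded1_nt.ML.Near1
import Pool.Agent.Lib.MP_6cded1_nt.ML.Nd

section

/-!
# Basic facts on star points

Unfold.  `g = (lab l y s).1`, `z = pt y s = y + b/p²`, `v = g p²`, `A = p² round(g z) - g b`: `v y - A = g p² (z - b/p²) - p² round (g z) + g b = p² (g z - round (g z))`, so `|v y - A| = p² nd (g z) ≤ p² 2κ/N` (`Lbl.near`).
Divide by `v = g p²`: `|y - A/v| ≤ 2κ/(g N) = 2 * 2^j / N`.
-/

set_option autoImplicit false

open Finset Pool.Agent.Lib.MP_6cded1_nt.ML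

namespace Pool.Agent.Lib.MP_6cded1_nt.M3

theorem sts_basic (N P : ℕ) (S : Finset (ℕ × ℕ)) (Λ : ℝ → Prop) (l : ℝ → ℕ × ℕ) (hl : Lbl N S Λ l) (y : ℝ)
    (s : Σ _ : ℕ, ℕ) (hs : s ∈ sts P Λ l y) :
    s.1.Prime ∧ P < s.1 ∧ s.1 ≤ 4 * P ∧ 0 < s.2 ∧ s.2 < s.1 ^ 2 ∧ lab l y s ∈ S ∧ 1 ≤ (lab l y s).1 ∧
      ¬ s.1 ∣ (lab l y s).1 ∧ Λ (pt y s) ∧
      |(fv l y s : ℝ) * y - fA l y s| ≤ (s.1 : ℝ) ^ 2 * (2 * kap (lab l y s)) / N ∧
      |y - (fA l y s : ℝ) / fv l y s| ≤ 2 * 2 ^ (lab l y s).2 / N := by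
  classical
  unfold sts at hs
  rw [Finset.mem_filter, Finset.mem_sigma, Finset.mem_Ioo] at hs
  obtain ⟨⟨hp, hb0, hb1⟩, hΛ, hnd⟩ := hs
  unfold PP at hp
  rw [Finset.mem_filter, Finset.mem_Ioc] at hp
  obtain ⟨⟨hp1, hp2⟩, hpp⟩ := hp
  have hS : lab l y s ∈ S := hl.mem _ hΛ
  have hg : 1 ≤ (lab l y s).1 := hl.pos _ hS
  have hgR : (0 : ℝ) < ((lab l y s).1 : ℝ) := by exact_mod_cast hg
  have hpR : (0 : ℝ) < (s.1 : ℝ) := by exact_mod_cast hpp.pos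
  have hp2R : (0 : ℝ) < (s.1 : ℝ) ^ 2 := by positivity
  have hnear : nd (((lab l y s).1 : ℝ) * pt y s) ≤ 2 * kap (lab l y s) / N := hl.near _ hΛ
  have hvR : (fv l y s : ℝ) = ((lab l y s).1 : ℝ) * (s.1 : ℝ) ^ 2 := by
    unfold fv; push_cast; ring
  have hAR : (fA l y s : ℝ) = (s.1 : ℝ) ^ 2 * (round (((lab l y s).1 : ℝ) * pt y s) : ℝ) -
      ((lab l y s).1 : ℝ) * (s.2 : ℝ) := by
    unfold fA; push_cast; ring
  have hpt : (s.1 : ℝ) ^ 2 * pt y s = (s.1 : ℝ) ^ 2 * y + (s.2 : ℝ) := by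
    unfold pt; field_simp
  have hkey : (fv l y s : ℝ) * y - fA l y s =
      (s.1 : ℝ) ^ 2 * (((lab l y s).1 : ℝ) * pt y s - (round (((lab l y s).1 : ℝ) * pt y s) : ℝ)) := by
    have h2 : (s.1 : ℝ) ^ 2 * (((lab l y s).1 : ℝ) * pt y s) =
        ((lab l y s).1 : ℝ) * ((s.1 : ℝ) ^ 2 * y + (s.2 : ℝ)) := by
      rw [← hpt]; ring
    rw [mul_sub, h2, hvR, hAR]; ring
  have hmain : |(fv l y s : ℝ) * y - fA l y s| ≤ (s.1 : ℝ) ^ 2 * (2 * kap (lab l y s)) / N := by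
    rw [hkey, abs_mul, abs_of_pos hp2R, mul_div_assoc]
    exact mul_le_mul_of_nonneg_left hnear hp2R.le
  have hvpos : (0 : ℝ) < (fv l y s : ℝ) := by rw [hvR]; positivity
  refine ⟨hpp, hp1, hp2, hb0, hb1, hS, hg, hnd, hΛ, hmain, ?_⟩
  have hdiv : y - (fA l y s : ℝ) / fv l y s = ((fv l y s : ℝ) * y - fA l y s) / fv l y s := by
    field_simp
  rw [hdiv, abs_div, abs_of_pos hvpos, div_le_iff₀ hvpos]
  refine hmain.trans (le_of_eq ?_)
  rw [hvR]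
  unfold kap
  ring

end Pool.Agent.Lib.MP_6cded1_nt.M3
end

section

/-!
# A star point is determined by its prime and its label

As `ML/Star4.lean` (`star_inj`).  `|v y - A| ≤ p² 2κ/N ≤ 32 κ P²/N < 1/2` for both, `v = v'`, so `A = A'`.  `p² a - g b = p² a' - g b'`, `p ∤ g`, so `p² ∣ b - b'`, `b = b'`.
-/

set_option autoImplicit false

open Finset Pool.Agent.Lib.MP_6cded1_nt.ML

namespace Pool.Agent.Lib.MP_6cded1_nt.M3

theorem sts_inj (N P : ℕ) (hN : 1 ≤ N) (S : Finset (ℕ × ℕ)) (Λ : ℝ → Prop) (l : ℝ → ℕ × ℕ) (hl : Lbl N S Λ l)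
    (hsm : ∀ s ∈ S, 64 * kap s * P ^ 2 < N) (y : ℝ) (s s' : Σ _ : ℕ, ℕ) (hs : s ∈ sts P Λ l y)
    (hs' : s' ∈ sts P Λ l y) (h1 : s.1 = s'.1) (h2 : lab l y s = lab l y s') : s = s' := by
  obtain ⟨hp1, -, hp3, hb1, hb2, hS, hq1, hpq, -, hy, -⟩ := sts_basic N P S Λ l hl y s hs
  obtain ⟨-, -, -, hb1', hb2', -, -, -, -, hy', -⟩ := sts_basic N P S Λ l hl y s' hs'
  have hN0 : (0 : ℝ) < N := by exact_mod_cast hN
  have hp0 : (0 : ℝ) < s.1 := by exact_mod_cast hp1.pos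
  have hpP : (s.1 : ℝ) ≤ 4 * P := by exact_mod_cast hp3
  have hK : 0 ≤ kap (lab l y s) := kap_nonneg _
  have hv : fv l y s' = fv l y s := by
    unfold fv
    rw [h1, h2]
  rw [hv] at hy'
  have hsmall : (s.1 : ℝ) ^ 2 * (2 * kap (lab l y s)) / N < 1 / 2 := by
    rw [div_lt_iff₀ hN0]
    have h3 : (s.1 : ℝ) ^ 2 ≤ (4 * P) ^ 2 := pow_le_pow_left₀ hp0.le hpP 2
    have h4 : (s.1 : ℝ) ^ 2 * kap (lab l y s) ≤ (4 * P) ^ 2 * kap (lab l y s) := mul_le_mul_of_nonneg_right h3 hK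
    have h5 := hsm _ hS
    nlinarith
  rw [← h1, ← h2] at hy'
  have hA : fA l y s = fA l y s' := by
    have h3 : |(fA l y s : ℝ) - fA l y s'| < 1 := by
      have h4 : (fA l y s : ℝ) - fA l y s' =
          ((fv l y s : ℝ) * y - fA l y s') - ((fv l y s : ℝ) * y - fA l y s) := by ring
      rw [h4]
      refine lt_of_le_of_lt (abs_sub _ _) ?_
      linarith
    have h5 : |fA l y s - fA l y s'| < 1 := by exact_mod_cast h3
    have h6 := Int.abs_lt_one_iff.mp h5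
    omega
  unfold fA at hA
  rw [← h1, ← h2] at hA
  have hdvd : ((s.1 : ℤ) ^ 2) ∣ ((lab l y s).1 : ℤ) * ((s.2 : ℤ) - s'.2) := by
    refine ⟨round (((lab l y s).1 : ℝ) * pt y s) - round (((lab l y s).1 : ℝ) * pt y s'), ?_⟩
    linarith
  have hcop : IsCoprime ((s.1 : ℤ) ^ 2) ((lab l y s).1 : ℤ) := by
    apply IsCoprime.pow_left
    rw [Nat.isCoprime_iff_coprime]
    exact (Nat.Prime.coprime_iff_not_dvd hp1).mpr hpq
  have hdvd2 := hcop.dvd_of_dvd_mul_left hdvd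
  have hb2r : (s.2 : ℤ) < (s.1 : ℤ) ^ 2 := by exact_mod_cast hb2
  have hb2r' : (s'.2 : ℤ) < (s.1 : ℤ) ^ 2 := by
    rw [h1]
    exact_mod_cast hb2'
  have h7 : (s.2 : ℤ) - s'.2 = 0 := by
    apply Int.eq_zero_of_abs_lt_dvd hdvd2
    rw [abs_lt]
    constructor
    · have : (0 : ℤ) < s.2 := by exact_mod_cast hb1
      linarith
    · have : (0 : ℤ) < s'.2 := by exact_mod_cast hb1'
      linarith
  have h8 : s.2 = s'.2 := by omega
  obtain ⟨p, b⟩ := s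
  obtain ⟨p', b'⟩ := s'
  simp only at h1 h8
  subst h1
  subst h8
  rfl

end Pool.Agent.Lib.MP_6cded1_nt.M3
end

section

section

/-!
# Lower Fejer count

For `1 ≤ m ≤ M` there are `2 M - m ≥ M` pairs `(k, l)` with `0 ≤ k, l < 2 M`, `k - l = m` (`l < 2 M - m`, `k = l + m`).  For different `m` these pairs are different.  So
`M ∑ X m ≤ ∑_m ∑_{l < 2M - m} X m ≤ ∑_{k, l} X (k - l)` (all terms are nonnegative).
-/

set_option autoImplicit false

open Finset Pool.Agent.Lib.MP_6cded1_nt.ML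

namespace Pool.Agent.Lib.MP_6cded1_nt.M3

theorem fejer_low (M : ℕ) (X : ℤ → ℝ) (hX : ∀ k, 0 ≤ X k) :
    (M : ℝ) * ∑ m ∈ Icc 1 M, X (m : ℤ) ≤ ∑ k ∈ range (2 * M), ∑ l ∈ range (2 * M), X ((k : ℤ) - l) := by
  have h1 : (M : ℝ) * ∑ m ∈ Icc 1 M, X (m : ℤ) =
      ∑ q ∈ Icc 1 M ×ˢ range M, X (q.1 : ℤ) := by
    rw [Finset.sum_product, Finset.mul_sum]
    refine Finset.sum_congr rfl fun m _ => ?_
    simp only [Finset.sum_const, card_range, nsmul_eq_mul]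
  have h2 : ∑ k ∈ range (2 * M), ∑ l ∈ range (2 * M), X ((k : ℤ) - l) =
      ∑ q ∈ range (2 * M) ×ˢ range (2 * M), X ((q.1 : ℤ) - q.2) := by
    rw [Finset.sum_product]
  have hinj : Set.InjOn (fun q : ℕ × ℕ => (q.2 + q.1, q.2))
      (Icc 1 M ×ˢ range M : Finset (ℕ × ℕ)) := by
    rintro ⟨a, b⟩ - ⟨c, d⟩ - h
    simp only [Prod.mk.injEq] at h
    obtain ⟨h3, h4⟩ := h
    subst h4
    have : a = c := by omega
    rw [this]
  have h3 : ∑ q ∈ Icc 1 M ×ˢ range M, X (q.1 : ℤ) =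
      ∑ q ∈ (Icc 1 M ×ˢ range M).image (fun q : ℕ × ℕ => (q.2 + q.1, q.2)),
        X ((q.1 : ℤ) - q.2) := by
    rw [Finset.sum_image hinj]
    refine Finset.sum_congr rfl fun q _ => ?_
    congr 1
    push_cast
    ring
  rw [h1, h2, h3]
  refine Finset.sum_le_sum_of_subset_of_nonneg ?_ fun q _ _ => hX _
  intro q hq
  rw [mem_image] at hq
  obtain ⟨⟨m, l⟩, hml, rfl⟩ := hq
  rw [mem_product, mem_Icc, mem_range] at hml
  rw [mem_product, mem_range, mem_range]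
  simp only at hml ⊢
  omega

end Pool.Agent.Lib.MP_6cded1_nt.M3
end

section

/-!
# Upper Fejer count

For every `k` the map `l ↦ |k - l|` takes each value `g ≥ 1` at most twice and `0` once, all values are `< 2 M`; `X` is even.  So
`∑_l X (k - l) ≤ X 0 + 2 ∑_{1 ≤ g < 2M} X g` for each of the `2 M` values of `k` (split `l < k`, `l = k`, `l > k`).
-/

set_option autoImplicit false

open Finset Pool.Agent.Lib.MP_6cded1_nt.ML

namespace Pool.Agent.Lib.MP_6cded1_nt.M3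

private theorem fejer_row (n k : ℕ) (hk : k < n) (X : ℤ → ℝ) (hX : ∀ k, 0 ≤ X k) (hs : ∀ k, X (-k) = X k) :
    ∑ l ∈ range n, X ((k : ℤ) - l) ≤ X 0 + 2 * ∑ g ∈ Icc 1 (n - 1), X (g : ℤ) := by
  have h1 : ∑ l ∈ range k, X ((k : ℤ) - l) ≤ ∑ g ∈ Icc 1 (n - 1), X (g : ℤ) := by
    have e : ∑ l ∈ range k, X ((k : ℤ) - l) = ∑ g ∈ (range k).image (fun l => k - l), X (g : ℤ) := by
      rw [Finset.sum_image]
      · refine Finset.sum_congr rfl fun l hl => ?_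
        rw [Finset.mem_range] at hl
        congr 1
        omega
      · intro a ha b hb hab
        simp only [Finset.coe_range, Set.mem_Iio] at ha hb
        simp only at hab
        omega
    rw [e]
    refine Finset.sum_le_sum_of_subset_of_nonneg ?_ fun g _ _ => hX _
    intro g hg
    rw [Finset.mem_image] at hg
    obtain ⟨l, hl, rfl⟩ := hg
    rw [Finset.mem_range] at hl
    rw [Finset.mem_Icc]
    omega
  have h2 : ∑ l ∈ Ico (k + 1) n, X ((k : ℤ) - l) ≤ ∑ g ∈ Icc 1 (n - 1), X (g : ℤ) := by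
    have e : ∑ l ∈ Ico (k + 1) n, X ((k : ℤ) - l) = ∑ g ∈ (Ico (k + 1) n).image (fun l => l - k), X (g : ℤ) := by
      rw [Finset.sum_image]
      · refine Finset.sum_congr rfl fun l hl => ?_
        rw [Finset.mem_Ico] at hl
        rw [← hs]
        congr 1
        omega
      · intro a ha b hb hab
        simp only [Finset.coe_Ico, Set.mem_Ico] at ha hb
        simp only at hab
        omega
    rw [e]
    refine Finset.sum_le_sum_of_subset_of_nonneg ?_ fun g _ _ => hX _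
    intro g hg
    rw [Finset.mem_image] at hg
    obtain ⟨l, hl, rfl⟩ := hg
    rw [Finset.mem_Ico] at hl
    rw [Finset.mem_Icc]
    omega
  have h3 : ∑ l ∈ range n, X ((k : ℤ) - l) =
      ∑ l ∈ range k, X ((k : ℤ) - l) + (X ((k : ℤ) - k) + ∑ l ∈ Ico (k + 1) n, X ((k : ℤ) - l)) := by
    rw [← Finset.sum_eq_sum_Ico_succ_bot hk (fun l : ℕ => X ((k : ℤ) - l)), Finset.range_eq_Ico, Finset.range_eq_Ico,
      Finset.sum_Ico_consecutive _ (Nat.zero_le k) hk.le]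
  rw [h3, sub_self]
  linarith

theorem fejer_up (M : ℕ) (X : ℤ → ℝ) (hX : ∀ k, 0 ≤ X k) (hs : ∀ k, X (-k) = X k) :
    ∑ k ∈ range (2 * M), ∑ l ∈ range (2 * M), X ((k : ℤ) - l) ≤
      2 * M * (X 0 + 2 * ∑ g ∈ Icc 1 (2 * M - 1), X (g : ℤ)) := by
  refine (Finset.sum_le_card_nsmul (range (2 * M)) _ (X 0 + 2 * ∑ g ∈ Icc 1 (2 * M - 1), X (g : ℤ)) ?_).trans ?_
  · intro k hk
    exact fejer_row (2 * M) k (Finset.mem_range.1 hk) X hX hs
  · rw [Finset.card_range, nsmul_eq_mul]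
    push_cast
    exact le_rfl

end Pool.Agent.Lib.MP_6cded1_nt.M3
end

section

/-!
# The majorant property

Expand the square: `‖∑_p c_p e(h θ_p)‖² = ∑_{p, q} c_p conj(c_q) e(h (θ_p - θ_q))`.  Sum over `k, l < L` with `h = k - l`:
`∑_{k, l} e((k - l) φ) = |∑_k e(k φ)|² =: κ(φ) ≥ 0`, `φ = θ_p - θ_q`.  So the left side is `Re ∑_{p, q} c_p conj(c_q) κ(θ_p - θ_q) ≤ ∑_{p, q} κ(θ_p - θ_q)`, which is the right side (the same identity with `c = 1`).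
(Facts on `e`: `e_add`, `e_neg`/conjugation, `norm_e` in `ML/Nd.lean`; compare `ML/Sieve.lean`.)
-/

set_option autoImplicit false

open Finset Pool.Agent.Lib.MP_6cded1_nt.ML

namespace Pool.Agent.Lib.MP_6cded1_nt.M3

private theorem sum_comm4 {κ : Type*} (T : Finset κ) (L : ℕ) (f : ℕ → ℕ → κ → κ → ℂ) :
    ∑ k ∈ range L, ∑ l ∈ range L, ∑ p ∈ T, ∑ q ∈ T, f k l p q =
      ∑ p ∈ T, ∑ q ∈ T, ∑ k ∈ range L, ∑ l ∈ range L, f k l p q := by
  calc ∑ k ∈ range L, ∑ l ∈ range L, ∑ p ∈ T, ∑ q ∈ T, f k l p q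
      = ∑ k ∈ range L, ∑ p ∈ T, ∑ l ∈ range L, ∑ q ∈ T, f k l p q :=
        Finset.sum_congr rfl fun k _ => Finset.sum_comm
    _ = ∑ p ∈ T, ∑ k ∈ range L, ∑ l ∈ range L, ∑ q ∈ T, f k l p q := Finset.sum_comm
    _ = ∑ p ∈ T, ∑ k ∈ range L, ∑ q ∈ T, ∑ l ∈ range L, f k l p q :=
        Finset.sum_congr rfl fun p _ => Finset.sum_congr rfl fun k _ => Finset.sum_comm
    _ = ∑ p ∈ T, ∑ q ∈ T, ∑ k ∈ range L, ∑ l ∈ range L, f k l p q :=
        Finset.sum_congr rfl fun p _ => Finset.sum_comm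

private theorem norm_sq_sum {ι : Type*} (s : Finset ι) (u : ι → ℂ) :
    ((‖∑ i ∈ s, u i‖ ^ 2 : ℝ) : ℂ) = ∑ i ∈ s, ∑ j ∈ s, u i * (starRingEnd ℂ) (u j) := by
  rw [Complex.ofReal_pow, ← Complex.mul_conj', map_sum, Finset.sum_mul_sum]

private theorem expand {κ : Type*} (T : Finset κ) (c : κ → ℂ) (θ : κ → ℝ) (L : ℕ) :
    ((∑ k ∈ range L, ∑ l ∈ range L, ‖∑ p ∈ T, c p * e ((((k : ℤ) - l : ℤ) : ℝ) * θ p)‖ ^ 2 : ℝ) : ℂ) =
      ∑ p ∈ T, ∑ q ∈ T, c p * (starRingEnd ℂ) (c q) *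
        ((‖∑ k ∈ range L, e (k * θ p) * (starRingEnd ℂ) (e (k * θ q))‖ ^ 2 : ℝ) : ℂ) := by
  have hR : ∑ p ∈ T, ∑ q ∈ T, c p * (starRingEnd ℂ) (c q) *
        ((‖∑ k ∈ range L, e (k * θ p) * (starRingEnd ℂ) (e (k * θ q))‖ ^ 2 : ℝ) : ℂ) =
      ∑ p ∈ T, ∑ q ∈ T, ∑ k ∈ range L, ∑ l ∈ range L, c p * (starRingEnd ℂ) (c q) *
        ((e (k * θ p) * (starRingEnd ℂ) (e (k * θ q))) *
          (starRingEnd ℂ) (e (l * θ p) * (starRingEnd ℂ) (e (l * θ q)))) := by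
    refine Finset.sum_congr rfl fun p _ => Finset.sum_congr rfl fun q _ => ?_
    rw [norm_sq_sum, Finset.mul_sum]
    refine Finset.sum_congr rfl fun k _ => ?_
    rw [Finset.mul_sum]
  have hL : ((∑ k ∈ range L, ∑ l ∈ range L,
        ‖∑ p ∈ T, c p * e ((((k : ℤ) - l : ℤ) : ℝ) * θ p)‖ ^ 2 : ℝ) : ℂ) =
      ∑ k ∈ range L, ∑ l ∈ range L, ∑ p ∈ T, ∑ q ∈ T, c p * (starRingEnd ℂ) (c q) *
        ((e (k * θ p) * (starRingEnd ℂ) (e (k * θ q))) *
          (starRingEnd ℂ) (e (l * θ p) * (starRingEnd ℂ) (e (l * θ q)))) := by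
    rw [Complex.ofReal_sum]
    refine Finset.sum_congr rfl fun k _ => ?_
    rw [Complex.ofReal_sum]
    refine Finset.sum_congr rfl fun l _ => ?_
    rw [norm_sq_sum]
    refine Finset.sum_congr rfl fun p _ => Finset.sum_congr rfl fun q _ => ?_
    have h1 : ∀ r : κ, e ((((k : ℤ) - l : ℤ) : ℝ) * θ r) =
        e (k * θ r) * (starRingEnd ℂ) (e (l * θ r)) := by
      intro r
      rw [← e_sub]
      congr 1
      push_cast
      ring
    rw [h1 p, h1 q]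
    simp only [map_mul, Complex.conj_conj]
    ring
  rw [hL, hR, sum_comm4]

theorem majorant {κ : Type*} (T : Finset κ) (c : κ → ℂ) (hc : ∀ p, ‖c p‖ ≤ 1) (θ : κ → ℝ) (L : ℕ) :
    ∑ k ∈ range L, ∑ l ∈ range L, ‖∑ p ∈ T, c p * e ((((k : ℤ) - l : ℤ) : ℝ) * θ p)‖ ^ 2 ≤
      ∑ k ∈ range L, ∑ l ∈ range L, ‖∑ p ∈ T, e ((((k : ℤ) - l : ℤ) : ℝ) * θ p)‖ ^ 2 := by
  have h1 := expand T c θ L
  have h2 := expand T (fun _ => 1) θ L
  simp only [one_mul, map_one] at h2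
  have h3 : ∑ k ∈ range L, ∑ l ∈ range L, ‖∑ p ∈ T, e ((((k : ℤ) - l : ℤ) : ℝ) * θ p)‖ ^ 2 =
      ∑ p ∈ T, ∑ q ∈ T, ‖∑ k ∈ range L, e (k * θ p) * (starRingEnd ℂ) (e (k * θ q))‖ ^ 2 := by
    exact_mod_cast h2
  rw [h3]
  have h5 : ∀ x : ℝ, x ≤ ‖(x : ℂ)‖ := fun x => by
    rw [Complex.norm_real]
    exact le_abs_self x
  refine (h5 _).trans ?_
  rw [h1]
  refine (norm_sum_le _ _).trans (Finset.sum_le_sum fun p _ => (norm_sum_le _ _).trans
    (Finset.sum_le_sum fun q _ => ?_))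
  rw [norm_mul, norm_mul, RCLike.norm_conj, Complex.norm_real, Real.norm_eq_abs,
    abs_of_nonneg (sq_nonneg _)]
  have h4 : ‖c p‖ * ‖c q‖ ≤ 1 := by
    have := mul_le_mul (hc p) (hc q) (norm_nonneg _) zero_le_one
    linarith
  exact mul_le_of_le_one_left (sq_nonneg _) h4

end Pool.Agent.Lib.MP_6cded1_nt.M3
end

section

/-!
# A sum of squares

`min A (B/x)² ≤ B²/x²` and `∑_{x ≥ 1} 1/x² ≤ 2`: the second inequality (`∑_{x ≤ X} 1/x² ≤ 2 - 1/X` by induction).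
First: `A = 0` trivial.  Let `n = ⌊B/A⌋₊`.  `x ≤ n`: at most `n ≤ B/A` terms, each `≤ A²`: `≤ A B`.  `x > n`: if `n ≥ 1`: `∑_{x > n} 1/x² ≤ 1/n`... use `∑_{n < x ≤ X} 1/x² ≤ 1/n ≤ 2/(n+1) ≤ 2 A/B`, so `≤ 2 A B`; if `n = 0`, `B < A` and
`2 B² ≤ 2 A B`.
-/

set_option autoImplicit false

open Finset Pool.Agent.Lib.MP_6cded1_nt.ML

namespace Pool.Agent.Lib.MP_6cded1_nt.M3

private theorem minSq_tail (n X : ℕ) :
    ∑ x ∈ Ioc n X, (1 : ℝ) / (x : ℝ) ^ 2 ≤ 2 / ((n : ℝ) + 1) := by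
  rcases Nat.lt_or_ge n X with h | h
  · have key : ∀ X : ℕ, n + 1 ≤ X →
        ∑ x ∈ Ioc n X, (1 : ℝ) / (x : ℝ) ^ 2 ≤ 2 / ((n : ℝ) + 1) - 1 / X := by
      intro X hX
      induction X, hX using Nat.le_induction with
      | base =>
        rw [sum_Ioc_succ_top (Nat.le_refl n), Ioc_self, sum_empty, zero_add]
        push_cast
        have h1 : (1 : ℝ) / ((n : ℝ) + 1) ^ 2 ≤ 1 / ((n : ℝ) + 1) := by
          apply one_div_le_one_div_of_le (by positivity)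
          nlinarith [Nat.cast_nonneg (α := ℝ) n]
        have h2 : (2 : ℝ) / ((n : ℝ) + 1) = 1 / ((n : ℝ) + 1) + 1 / ((n : ℝ) + 1) := by ring
        linarith
      | succ X hX ih =>
        rw [sum_Ioc_succ_top (by omega)]
        have hXR : (1 : ℝ) ≤ X := by
          have : 1 ≤ X := by omega
          exact_mod_cast this
        have h1 : (1 : ℝ) / ((X + 1 : ℕ) : ℝ) ^ 2 ≤ 1 / X - 1 / ((X + 1 : ℕ) : ℝ) := by
          push_cast
          rw [div_sub_div _ _ (by positivity) (by positivity), div_le_div_iff₀ (by positivity)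
            (by positivity)]
          nlinarith
        linarith
    have h1 := key X h
    have h2 : (0 : ℝ) ≤ 1 / X := by positivity
    linarith
  · rw [Ioc_eq_empty (by omega), sum_empty]
    positivity

theorem sum_min_sq (A B : ℝ) (hA : 0 ≤ A) (hB : 0 ≤ B) (X : ℕ) :
    ∑ x ∈ Icc 1 X, (min A (B / x)) ^ 2 ≤ 3 * A * B ∧ ∑ x ∈ Icc 1 X, (min A (B / x)) ^ 2 ≤ 2 * B ^ 2 := by
  have h0 : ∀ x : ℕ, 0 ≤ min A (B / x) := fun x => le_min hA (by positivity)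
  have hB2 : ∀ x : ℕ, (min A (B / x)) ^ 2 ≤ B ^ 2 * (1 / (x : ℝ) ^ 2) := by
    intro x
    calc (min A (B / x)) ^ 2 ≤ (B / x) ^ 2 := pow_le_pow_left₀ (h0 x) (min_le_right _ _) 2
      _ = B ^ 2 * (1 / (x : ℝ) ^ 2) := by rw [div_pow]; ring
  have hA2 : ∀ x : ℕ, (min A (B / x)) ^ 2 ≤ A ^ 2 := fun x =>
    pow_le_pow_left₀ (h0 x) (min_le_left _ _) 2
  refine ⟨?_, ?_⟩
  · rcases eq_or_lt_of_le hA with hA0 | hApos
    · rw [← hA0]
      have : ∀ x ∈ Icc 1 X, (min (0 : ℝ) (B / x)) ^ 2 = 0 := by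
        intro x _
        rw [min_eq_left (by positivity)]
        norm_num
      rw [sum_congr rfl this, sum_const_zero]
      simp
    · set n := ⌊B / A⌋₊ with hn
      have hnle : (n : ℝ) ≤ B / A := Nat.floor_le (by positivity)
      have hnlt : B / A < n + 1 := Nat.lt_floor_add_one _
      have hsub : Icc 1 X ⊆ Ioc 0 n ∪ Ioc n X := by
        intro x hx
        rw [mem_Icc] at hx
        rw [mem_union, mem_Ioc, mem_Ioc]
        omega
      have hdisj : Disjoint (Ioc 0 n) (Ioc n X) := by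
        rw [Finset.disjoint_left]
        intro x h1 h2
        rw [mem_Ioc] at h1 h2
        omega
      calc ∑ x ∈ Icc 1 X, (min A (B / x)) ^ 2
          ≤ ∑ x ∈ Ioc 0 n ∪ Ioc n X, (min A (B / x)) ^ 2 :=
            sum_le_sum_of_subset_of_nonneg hsub (fun x _ _ => by positivity)
        _ = ∑ x ∈ Ioc 0 n, (min A (B / x)) ^ 2 + ∑ x ∈ Ioc n X, (min A (B / x)) ^ 2 :=
            sum_union hdisj
        _ ≤ ∑ x ∈ Ioc 0 n, A ^ 2 + ∑ x ∈ Ioc n X, B ^ 2 * (1 / (x : ℝ) ^ 2) :=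
            add_le_add (sum_le_sum fun x _ => hA2 x) (sum_le_sum fun x _ => hB2 x)
        _ = n * A ^ 2 + B ^ 2 * ∑ x ∈ Ioc n X, (1 / (x : ℝ) ^ 2) := by
            rw [sum_const, Nat.card_Ioc, nsmul_eq_mul, mul_sum]
            simp
        _ ≤ A * B + B ^ 2 * (2 / ((n : ℝ) + 1)) := by
            apply add_le_add
            · calc (n : ℝ) * A ^ 2 ≤ B / A * A ^ 2 := by
                    apply mul_le_mul_of_nonneg_right hnle (by positivity)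
                _ = A * B := by
                    field_simp
            · exact mul_le_mul_of_nonneg_left (minSq_tail n X) (by positivity)
        _ ≤ A * B + 2 * (A * B) := by
            have h1 : B / ((n : ℝ) + 1) ≤ A := by
              rw [div_lt_iff₀ hApos] at hnlt
              rw [div_le_iff₀ (by positivity)]
              linarith
            have h2 : B ^ 2 * (2 / ((n : ℝ) + 1)) = 2 * (B / ((n : ℝ) + 1) * B) := by ring
            have h3 : B / ((n : ℝ) + 1) * B ≤ A * B := mul_le_mul_of_nonneg_right h1 hB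
            linarith
        _ = 3 * A * B := by ring
  · have h1 : Icc 1 X = Ioc 0 X := by
      ext x
      rw [mem_Icc, mem_Ioc]
      omega
    rw [h1]
    calc ∑ x ∈ Ioc 0 X, (min A (B / x)) ^ 2
        ≤ ∑ x ∈ Ioc 0 X, B ^ 2 * (1 / (x : ℝ) ^ 2) := sum_le_sum fun x _ => hB2 x
      _ = B ^ 2 * ∑ x ∈ Ioc 0 X, (1 / (x : ℝ) ^ 2) := by rw [mul_sum]
      _ ≤ B ^ 2 * (2 / (((0 : ℕ) : ℝ) + 1)) :=
          mul_le_mul_of_nonneg_left (minSq_tail 0 X) (by positivity)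
      _ = 2 * B ^ 2 := by
          push_cast
          ring

end Pool.Agent.Lib.MP_6cded1_nt.M3
end

section

/-!
# Shift invariance of the grid average

`W = p² W'`, `gp W t j + b / p² = gp W t (j + b W')`, and `j ↦ g (gp W t j)` is `W`-periodic because `g` is 1-periodic; the sum of a `W`-periodic
function over `W` consecutive integers does not depend on the starting point (`Function.Periodic` and induction on the shift, or a sum over `ZMod W`).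
The minus version: shift by `+` applied to the function `x ↦ g (x - b / p²)`.
-/

set_option autoImplicit false

open Finset

namespace Pool.Agent.Lib.MP_6cded1_nt.ML

private theorem sum_shift (h : ℕ → ℝ) (W : ℕ) (hper : ∀ n, h (n + W) = h n) (s : ℕ) :
    ∑ j ∈ range W, h (j + s) = ∑ j ∈ range W, h j := by
  induction s with
  | zero => simp
  | succ s ih =>
    rw [← ih]
    have h1 := sum_range_succ (fun j => h (j + s)) W
    have h2 := sum_range_succ' (fun j => h (j + s)) W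
    have h3 : h (W + s) = h (0 + s) := by
      rw [zero_add, add_comm]
      exact hper s
    have h4 : ∑ j ∈ range W, h (j + (s + 1)) = ∑ j ∈ range W, h (j + 1 + s) := by
      refine sum_congr rfl ?_
      intro j _
      congr 1
      omega
    rw [h4]
    rw [h1] at h2
    linarith

theorem EE_shift (W p b : ℕ) (hW : 1 ≤ W) (hp : p ^ 2 ∣ W) (t : ℝ) (g : ℝ → ℝ)
    (hg : ∀ (x : ℝ) (k : ℤ), g (x + k) = g x) :
    EE W t (fun x => g (x + b / (p : ℝ) ^ 2)) = EE W t g := by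
  obtain ⟨W', hW'⟩ := hp
  have hW0 : (0 : ℝ) < W := by exact_mod_cast hW
  have hp0 : (p : ℝ) ^ 2 ≠ 0 := by
    intro h0
    have : (W : ℝ) = (p : ℝ) ^ 2 * W' := by exact_mod_cast hW'
    rw [h0, zero_mul] at this
    exact hW0.ne' this
  have hWr : (W : ℝ) = (p : ℝ) ^ 2 * W' := by exact_mod_cast hW'
  have hW'0 : (W' : ℝ) ≠ 0 := by
    intro h0
    rw [h0, mul_zero] at hWr
    exact hW0.ne' hWr
  unfold EE gp
  congr 1
  have h1 : ∀ j : ℕ, g (t + j / W + b / (p : ℝ) ^ 2) = g (t + ((j + b * W' : ℕ) : ℝ) / W) := by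
    intro j
    congr 1
    push_cast
    rw [hWr]
    field_simp
    ring
  simp only [h1]
  refine sum_shift (fun n : ℕ => g (t + (n : ℝ) / W)) W ?_ (b * W')
  intro n
  have h2 : t + ((n + W : ℕ) : ℝ) / W = (t + (n : ℝ) / W) + ((1 : ℤ) : ℝ) := by
    push_cast
    field_simp
    ring
  rw [h2, hg]

theorem EE_shift' (W p b : ℕ) (hW : 1 ≤ W) (hp : p ^ 2 ∣ W) (t : ℝ) (g : ℝ → ℝ)
    (hg : ∀ (x : ℝ) (k : ℤ), g (x + k) = g x) :
    EE W t (fun x => g (x - b / (p : ℝ) ^ 2)) = EE W t g := by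
  have h := EE_shift W p b hW hp t (fun x => g (x - b / (p : ℝ) ^ 2)) (by
    intro x k
    have : x + k - b / (p : ℝ) ^ 2 = (x - b / (p : ℝ) ^ 2) + k := by ring
    rw [this, hg])
  rw [← h]
  congr 1
  funext x
  rw [add_sub_cancel_right]

end Pool.Agent.Lib.MP_6cded1_nt.ML
end

section

/-!
# The squarefree identity

`∑_{b < p²} e (n (x - b / p²)) = e (n x) ∑_{b < p²} ζ ^ b`, `ζ = e (- n / p²)`, `ζ ^ (p²) = 1`; it vanishes unless `ζ = 1`, i.e. `p² ∣ n`, and then `n` is not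
squarefree and `f n = 0`.  `norm_F_le`: the term `b = 0` is `F z`.
-/

set_option autoImplicit false

open Finset

namespace Pool.Agent.Lib.MP_6cded1_nt.ML

private theorem int_of_e_eq_one (y : ℝ) (h : e y = 1) : ∃ k : ℤ, y = k := by
  unfold e at h
  rw [Complex.exp_eq_one_iff] at h
  obtain ⟨k, hk⟩ := h
  refine ⟨k, ?_⟩
  have h2 : (2 * (Real.pi : ℂ) * Complex.I) * (y : ℂ) = (2 * (Real.pi : ℂ) * Complex.I) * (k : ℂ) := by
    rw [hk]
    ring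
  have h3 := mul_left_cancel₀ Complex.two_pi_I_ne_zero h2
  exact_mod_cast h3

theorem sq_identity (f : ℕ → ℂ) (hf : Mult f) (N p : ℕ) (hp : p.Prime) (x : ℝ) :
    ∑ b ∈ range (p ^ 2), F f N (x - b / (p : ℝ) ^ 2) = 0 := by
  unfold F
  rw [Finset.sum_comm]
  refine Finset.sum_eq_zero ?_
  intro n _
  by_cases hd : p ^ 2 ∣ n
  · have hns : ¬ Squarefree n := by
      intro hsq
      have h1 : p * p ∣ n := by
        rw [← sq]
        exact hd
      have h2 := hsq p h1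
      exact hp.one_lt.ne' (Nat.isUnit_iff.mp h2)
    rw [hf.zero n hns]
    simp
  · have hp0 : (p : ℝ) ≠ 0 := by exact_mod_cast hp.ne_zero
    have hterm : ∀ b ∈ range (p ^ 2), f n * e (n * (x - b / (p : ℝ) ^ 2)) =
        f n * e (n * x) * e (-(n : ℝ) / (p : ℝ) ^ 2) ^ b := by
      intro b _
      rw [← e_nat_mul, mul_assoc, ← e_add]
      congr 2
      field_simp
      ring
    rw [Finset.sum_congr rfl hterm, ← Finset.mul_sum]
    have hz1 : e (-(n : ℝ) / (p : ℝ) ^ 2) ≠ 1 := by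
      intro h
      obtain ⟨k, hk⟩ := int_of_e_eq_one _ h
      apply hd
      have h3 : -(n : ℝ) = k * (p : ℝ) ^ 2 := by
        rw [← hk]
        field_simp
      have h4 : -(n : ℤ) = k * (p : ℤ) ^ 2 := by exact_mod_cast h3
      have h5 : ((p ^ 2 : ℕ) : ℤ) ∣ (n : ℤ) := by
        refine ⟨-k, ?_⟩
        push_cast
        linarith
      exact_mod_cast h5
    have hz2 : e (-(n : ℝ) / (p : ℝ) ^ 2) ^ (p ^ 2) = 1 := by
      rw [← e_nat_mul]
      have h6 : ((p ^ 2 : ℕ) : ℝ) * (-(n : ℝ) / (p : ℝ) ^ 2) = ((-(n : ℤ) : ℤ) : ℝ) := by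
        push_cast
        field_simp
      rw [h6, e_int]
    have h7 := mul_neg_geom_sum (e (-(n : ℝ) / (p : ℝ) ^ 2)) (p ^ 2)
    rw [hz2, sub_self] at h7
    rcases mul_eq_zero.mp h7 with h8 | h8
    · exact absurd (sub_eq_zero.mp h8).symm hz1
    · rw [h8, mul_zero]

theorem norm_F_le (f : ℕ → ℂ) (hf : Mult f) (N p : ℕ) (hp : p.Prime) (z : ℝ) :
    ‖F f N z‖ ≤ ∑ b ∈ Ioo 0 (p ^ 2), ‖F f N (z - b / (p : ℝ) ^ 2)‖ := by
  have h := sq_identity f hf N p hp z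
  have hpos : 0 < p ^ 2 := pow_pos hp.pos 2
  have hset : range (p ^ 2) = insert 0 (Ioo 0 (p ^ 2)) := by
    ext b
    simp only [Finset.mem_range, Finset.mem_insert, Finset.mem_Ioo]
    omega
  rw [hset, Finset.sum_insert (by simp)] at h
  have h0 : F f N (z - ((0 : ℕ) : ℝ) / (p : ℝ) ^ 2) = F f N z := by
    simp
  rw [h0] at h
  have h1 : F f N z = -∑ b ∈ Ioo 0 (p ^ 2), F f N (z - b / (p : ℝ) ^ 2) :=
    eq_neg_of_add_eq_zero_left h
  rw [h1, norm_neg]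
  exact norm_sum_le _ _

end Pool.Agent.Lib.MP_6cded1_nt.ML
end

section

/-!
# A pointwise bound by clusters

`a = round (g z) ∈ [0, g]` (as `0 ≤ z < 1`), `x = gcd(a, g)` (`x ≥ 1`), `g₀ = g / x`, `a₀ = a / x` (natural numbers, coprime, `a₀ ≤ g₀`), `t = |z - a₀ / g₀| = |z - a / g| = nd (g z) / g ≤ 1 / 2`.
If `t ≤ 1 / N` take `j = 0`: `Cst N g₀ 0 z`, and `N / g ≥ N / (2 M) ≥ 2 D` (as `4 D M ≤ N`), so `(3/2) min (3D) (N / g) ≥ 3 D ≥ cap`.
Otherwise let `j ≥ 1` be least with `t ≤ 2^j / N`: `2^(j-1) / N < t ≤ 1/2`, so `2^j < N`, `j ≤ Nat.log 2 N`, `j ∈ range (JJ N)`, `Cst N g₀ j z`, and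
`cap (3D) (2 nd (g z)) ≤ min (3D) (1 / (2 g t)) ≤ min (3 D) (N / (g 2^j))`, since `2^j < 2 t N` (`cap_le`, `cap_le_inv`).  All terms of the sum are nonnegative, so the sum is at least the term `(g₀, j)`.
-/

set_option autoImplicit false

open Finset Pool.Agent.Lib.MP_6cded1_nt.ML

namespace Pool.Agent.Lib.MP_6cded1_nt.M3

open Classical in
/-- One term of the double sum is at most the sum. -/
private theorem cpc_term_le (N D g g₀ j : ℕ) (z : ℝ) (hg₀ : g₀ ∈ g.divisors) (hj : j ∈ range (JJ N))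
    (hC : Cst N g₀ j z) :
    min (3 * (D : ℝ)) (N / ((g : ℝ) * 2 ^ j)) ≤ ∑ g₀ ∈ g.divisors, ∑ j ∈ range (JJ N),
      (if Cst N g₀ j z then min (3 * (D : ℝ)) (N / ((g : ℝ) * 2 ^ j)) else 0) := by
  have hnn : ∀ (g₁ i : ℕ), (0 : ℝ) ≤
      (if Cst N g₁ i z then min (3 * (D : ℝ)) (N / ((g : ℝ) * 2 ^ i)) else 0) := by
    intro g₁ i
    split_ifs
    · positivity
    · exact le_rfl
  have h1 : (if Cst N g₀ j z then min (3 * (D : ℝ)) (N / ((g : ℝ) * 2 ^ j)) else 0) ≤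
      ∑ j ∈ range (JJ N), (if Cst N g₀ j z then min (3 * (D : ℝ)) (N / ((g : ℝ) * 2 ^ j)) else 0) :=
    Finset.single_le_sum
      (f := fun j => (if Cst N g₀ j z then min (3 * (D : ℝ)) (N / ((g : ℝ) * 2 ^ j)) else 0))
      (fun i _ => hnn g₀ i) hj
  have h2 := Finset.single_le_sum
    (f := fun g₀ => ∑ j ∈ range (JJ N),
      (if Cst N g₀ j z then min (3 * (D : ℝ)) (N / ((g : ℝ) * 2 ^ j)) else 0))
    (fun i _ => Finset.sum_nonneg fun i' _ => hnn i i') hg₀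
  rw [if_pos hC] at h1
  exact h1.trans h2

open Classical in
theorem cap_cluster (N D M g : ℕ) (z : ℝ) (hD : 1 ≤ D) (hDM : 4 * D * M ≤ N) (hg : 1 ≤ g) (hg2 : g < 2 * M)
    (hz0 : 0 ≤ z) (hz1 : z < 1) :
    cap (3 * D) (2 * nd ((g : ℝ) * z)) ≤ 3 / 2 * ∑ g₀ ∈ g.divisors, ∑ j ∈ range (JJ N),
      (if Cst N g₀ j z then min (3 * (D : ℝ)) (N / ((g : ℝ) * 2 ^ j)) else 0) := by
  have hM : 1 ≤ M := by omega
  have hNnat : 1 ≤ N := by
    have : 4 * 1 * 1 ≤ 4 * D * M := Nat.mul_le_mul (Nat.mul_le_mul le_rfl hD) hM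
    omega
  have hN : (0 : ℝ) < N := by exact_mod_cast hNnat
  have hgR : (0 : ℝ) < g := by exact_mod_cast hg
  have hDR : (1 : ℝ) ≤ D := by exact_mod_cast hD
  have h3D : (0 : ℝ) ≤ 3 * D := by positivity
  -- the nearest integer
  have ha0 : 0 ≤ round ((g : ℝ) * z) := by
    rw [round_eq]
    exact Int.floor_nonneg.mpr (by positivity)
  have hag : round ((g : ℝ) * z) ≤ g := by
    rw [round_eq]
    have h1 : (g : ℝ) * z < g := by nlinarith
    have h2 : ⌊(g : ℝ) * z + 1 / 2⌋ < (g : ℤ) + 1 := by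
      rw [Int.floor_lt]
      push_cast
      linarith
    omega
  obtain ⟨a, ha⟩ := Int.eq_ofNat_of_zero_le ha0
  have hag' : a ≤ g := by
    rw [ha] at hag
    exact_mod_cast hag
  -- the reduced fraction
  set x := Nat.gcd a g with hx
  have hx1 : 0 < x := Nat.gcd_pos_of_pos_right _ (by omega)
  obtain ⟨a₀, ha₀⟩ : x ∣ a := Nat.gcd_dvd_left a g
  obtain ⟨g₀, hg₀⟩ : x ∣ g := Nat.gcd_dvd_right a g
  have hcop : Nat.Coprime a₀ g₀ := by
    have h1 : x * Nat.gcd a₀ g₀ = x := by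
      rw [← Nat.gcd_mul_left, ← ha₀, ← hg₀]
    exact Nat.eq_of_mul_eq_mul_left hx1 (by rw [h1, mul_one])
  have ha₀g₀ : a₀ ≤ g₀ := by
    rw [ha₀, hg₀] at hag'
    exact Nat.le_of_mul_le_mul_left hag' hx1
  have hg₀d : g₀ ∈ g.divisors := by
    rw [Nat.mem_divisors]
    exact ⟨⟨x, by rw [hg₀]; ring⟩, by omega⟩
  have hg₀R : (0 : ℝ) < g₀ := by
    have : 0 < g₀ := by
      rcases Nat.eq_zero_or_pos g₀ with h | h
      · rw [h, mul_zero] at hg₀; omega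
      · exact h
    exact_mod_cast this
  have hxR : (0 : ℝ) < x := by exact_mod_cast hx1
  have hfrac : (a₀ : ℝ) / g₀ = a / g := by
    have e1 : (a : ℝ) = x * a₀ := by exact_mod_cast ha₀
    have e2 : (g : ℝ) = x * g₀ := by exact_mod_cast hg₀
    rw [e1, e2, mul_div_mul_left _ _ hxR.ne']
  have hnd : nd ((g : ℝ) * z) = g * |z - a / g| := by
    unfold nd
    rw [ha]
    push_cast
    have h1 : (g : ℝ) * z - a = g * (z - a / g) := by
      field_simp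
    rw [h1, abs_mul, abs_of_pos hgR]
  set t := |z - (a : ℝ) / g| with ht
  have ht0 : 0 ≤ t := abs_nonneg _
  have ht2 : t ≤ 1 / 2 := by
    have h1 := nd_le_half ((g : ℝ) * z)
    rw [hnd] at h1
    have h2 : (1 : ℝ) ≤ g := by exact_mod_cast hg
    nlinarith
  by_cases hcase : t ≤ 1 / N
  · -- layer `0`
    have hC : Cst N g₀ 0 z := ⟨a₀, ha₀g₀, hcop, by rw [hfrac, pow_zero]; exact hcase⟩
    have h0 : 0 ∈ range (JJ N) := by
      rw [Finset.mem_range]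
      unfold JJ
      omega
    have h1 := cpc_term_le N D g g₀ 0 z hg₀d h0 hC
    have h2 : 2 * (D : ℝ) ≤ min (3 * (D : ℝ)) (N / ((g : ℝ) * 2 ^ 0)) := by
      refine le_min (by linarith) ?_
      rw [pow_zero, mul_one, le_div_iff₀ hgR]
      have h3 : (g : ℝ) ≤ 2 * M := by exact_mod_cast hg2.le
      have h4 : 4 * (D : ℝ) * M ≤ N := by exact_mod_cast hDM
      nlinarith
    have h3 := cap_le h3D (2 * nd ((g : ℝ) * z))
    linarith
  · -- layer `j ≥ 1`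
    have hex : ∃ j : ℕ, t ≤ 2 ^ j / N := by
      refine ⟨N, ht2.trans ?_⟩
      rw [le_div_iff₀ hN]
      have h1 : (N : ℝ) < 2 ^ N := by exact_mod_cast Nat.lt_two_pow_self
      linarith
    classical
    obtain ⟨j, hj1, hj2⟩ : ∃ j : ℕ, ¬ t ≤ 2 ^ j / N ∧ t ≤ 2 ^ (j + 1) / (N : ℝ) := by
      have hf := Nat.find_spec hex
      rcases Nat.eq_zero_or_pos (Nat.find hex) with h | h
      · rw [h, pow_zero] at hf
        exact absurd hf hcase
      · refine ⟨Nat.find hex - 1, Nat.find_min hex (by omega), ?_⟩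
        rw [Nat.sub_add_cancel h]
        exact hf
    rw [not_le, div_lt_iff₀ hN] at hj1
    have hC : Cst N g₀ (j + 1) z := ⟨a₀, ha₀g₀, hcop, by rw [hfrac]; exact hj2⟩
    have hpow : (2 : ℝ) ^ (j + 1) < N := by
      rw [pow_succ]
      nlinarith
    have hpow' : 2 ^ (j + 1) < N := by exact_mod_cast hpow
    have hjr : j + 1 ∈ range (JJ N) := by
      rw [Finset.mem_range]
      unfold JJ
      have := Nat.le_log_of_pow_le (b := 2) (by norm_num) hpow'.le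
      omega
    have h1 := cpc_term_le N D g g₀ (j + 1) z hg₀d hjr hC
    have htpos : 0 < t := by
      have : (0 : ℝ) < 2 ^ j := by positivity
      nlinarith
    have hcap : cap (3 * D) (2 * nd ((g : ℝ) * z)) ≤
        min (3 * (D : ℝ)) (N / ((g : ℝ) * 2 ^ (j + 1))) := by
      refine le_min (cap_le h3D _) ?_
      refine (cap_le_inv h3D (by rw [hnd]; positivity)).trans ?_
      rw [hnd, div_le_div_iff₀ (by positivity) (by positivity), one_mul, pow_succ]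
      nlinarith [mul_pos hgR hgR, hj1.le]
    have h2 : 0 ≤ min (3 * (D : ℝ)) (N / ((g : ℝ) * 2 ^ (j + 1))) := by positivity
    linarith

end Pool.Agent.Lib.MP_6cded1_nt.M3
end

section

/-!
# A geometric sum over `(D, 4D]`

`∑_{D < d ≤ 4D} e(d θ) = e(D θ) ∑_{m ≤ 3D} e(m θ)` and `norm_geom_le` with `M = 3 D`.
-/

set_option autoImplicit false

open Finset Pool.Agent.Lib.MP_6cded1_nt.ML

namespace Pool.Agent.Lib.MP_6cded1_nt.M3

theorem norm_geom_Ioc (D : ℕ) (θ : ℝ) : ‖∑ d ∈ Ioc D (4 * D), e (d * θ)‖ ≤ cap (3 * D) (2 * nd θ) := by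
  have h1 : ∑ d ∈ Ioc D (4 * D), e (d * θ) = e (D * θ) * ∑ m ∈ Icc 1 (3 * D), e (m * θ) := by
    rw [Finset.mul_sum]
    refine Finset.sum_bij' (fun d _ => d - D) (fun m _ => m + D) ?_ ?_ ?_ ?_ ?_
    · intro d hd
      have := Finset.mem_Ioc.1 hd
      exact Finset.mem_Icc.2 ⟨by omega, by omega⟩
    · intro m hm
      have := Finset.mem_Icc.1 hm
      exact Finset.mem_Ioc.2 ⟨by omega, by omega⟩
    · intro d hd
      have := Finset.mem_Ioc.1 hd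
      omega
    · intro m hm
      have := Finset.mem_Icc.1 hm
      omega
    · intro d hd
      have h2 := Finset.mem_Ioc.1 hd
      rw [← e_add, ← add_mul]
      congr 2
      rw [Nat.cast_sub h2.1.le]
      ring
  rw [h1, norm_mul, norm_e, one_mul]
  have h3 := norm_geom_le (3 * D) θ
  push_cast at h3
  exact h3

end Pool.Agent.Lib.MP_6cded1_nt.M3
end

section

/-!
# Cauchy-Schwarz over the clusters

Sum `cap_cluster` over `i ∈ A` (interchange): `∑_i cap ≤ (3/2) ∑_{g₀ ∣ g} ∑_j cc g₀ j * min (3D) (N / (g 2^j))`.  Cauchy-Schwarz (`Finset.sum_mul_sq_le_sq_mul_sq` or `sq_sum_le_card_mul_sum_sq`) over the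
`g.divisors.card * JJ N` pairs `(g₀, j)`.
-/

set_option autoImplicit false

open Finset Pool.Agent.Lib.MP_6cded1_nt.ML

namespace Pool.Agent.Lib.MP_6cded1_nt.M3

theorem phi_sq (N D M g : ℕ) (A : Finset ℕ) (z : ℕ → ℝ) (hD : 1 ≤ D) (hDM : 4 * D * M ≤ N) (hg : 1 ≤ g)
    (hg2 : g < 2 * M) (hz : ∀ i ∈ A, 0 ≤ z i ∧ z i < 1) :
    (∑ i ∈ A, cap (3 * D) (2 * nd ((g : ℝ) * z i))) ^ 2 ≤ 9 / 4 * ((g.divisors.card : ℝ) * JJ N) *
      ∑ g₀ ∈ g.divisors, ∑ j ∈ range (JJ N), (cc N A z g₀ j : ℝ) ^ 2 * (min (3 * (D : ℝ)) (N / ((g : ℝ) * 2 ^ j))) ^ 2 := by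
  classical
  set m : ℕ → ℝ := fun j => min (3 * (D : ℝ)) (N / ((g : ℝ) * 2 ^ j)) with hm
  have h1 : ∑ i ∈ A, cap (3 * D) (2 * nd ((g : ℝ) * z i)) ≤
      3 / 2 * ∑ g₀ ∈ g.divisors, ∑ j ∈ range (JJ N), (cc N A z g₀ j : ℝ) * m j := by
    calc ∑ i ∈ A, cap (3 * D) (2 * nd ((g : ℝ) * z i))
        ≤ ∑ i ∈ A, (3 / 2 * ∑ g₀ ∈ g.divisors, ∑ j ∈ range (JJ N),
            (if Cst N g₀ j (z i) then m j else 0)) :=
          Finset.sum_le_sum fun i hi =>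
            cap_cluster N D M g (z i) hD hDM hg hg2 (hz i hi).1 (hz i hi).2
      _ = 3 / 2 * ∑ g₀ ∈ g.divisors, ∑ j ∈ range (JJ N), (cc N A z g₀ j : ℝ) * m j := by
          rw [← Finset.mul_sum, Finset.sum_comm]
          congr 1
          refine Finset.sum_congr rfl fun g₀ _ => ?_
          rw [Finset.sum_comm]
          refine Finset.sum_congr rfl fun j _ => ?_
          rw [← Finset.sum_filter, Finset.sum_const, nsmul_eq_mul]
          rfl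
  have h0 : 0 ≤ ∑ i ∈ A, cap (3 * D) (2 * nd ((g : ℝ) * z i)) :=
    Finset.sum_nonneg fun i _ => cap_nonneg (by positivity) _
  have h2 : (∑ g₀ ∈ g.divisors, ∑ j ∈ range (JJ N), (cc N A z g₀ j : ℝ) * m j) ^ 2 ≤
      ((g.divisors.card : ℝ) * JJ N) *
        ∑ g₀ ∈ g.divisors, ∑ j ∈ range (JJ N), (cc N A z g₀ j : ℝ) ^ 2 * m j ^ 2 := by
    have h3 := sq_sum_le_card_mul_sum_sq (s := g.divisors ×ˢ range (JJ N))
      (f := fun q : ℕ × ℕ => (cc N A z q.1 q.2 : ℝ) * m q.2)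
    rw [Finset.sum_product, Finset.sum_product, Finset.card_product, Finset.card_range] at h3
    push_cast at h3
    simp only [mul_pow] at h3
    exact h3
  calc (∑ i ∈ A, cap (3 * D) (2 * nd ((g : ℝ) * z i))) ^ 2
      ≤ (3 / 2 * ∑ g₀ ∈ g.divisors, ∑ j ∈ range (JJ N), (cc N A z g₀ j : ℝ) * m j) ^ 2 :=
        pow_le_pow_left₀ h0 h1 2
    _ = 9 / 4 * (∑ g₀ ∈ g.divisors, ∑ j ∈ range (JJ N), (cc N A z g₀ j : ℝ) * m j) ^ 2 := by ring
    _ ≤ 9 / 4 * (((g.divisors.card : ℝ) * JJ N) *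
        ∑ g₀ ∈ g.divisors, ∑ j ∈ range (JJ N), (cc N A z g₀ j : ℝ) ^ 2 * m j ^ 2) := by
        gcongr
    _ = _ := by ring

end Pool.Agent.Lib.MP_6cded1_nt.M3
end

section

/-!
# Amplification by the squarefree identity

For every grid point `z` with `g z ≠ 0`: `n₀ ‖F z‖ g z ≤ ∑_{p ∈ R, ok p z} ∑_{0 < b < p²} ‖F (z - b / p²)‖ g z` (`norm_F_le`, `hn`, `g ≥ 0`).  Take `EE` and, for each
`(p, b)`, apply `EE_shift` to the 1-periodic function `z ↦ ‖F (z - b / p²)‖ * sel (ok p z) (g z)`: its average equals that of its translate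
`y ↦ ‖F y‖ * sel (ok p (y + b / p²)) (g (y + b / p²))`.  Sum over `(p, b)` (`Finset.sum_sigma`).
-/

set_option autoImplicit false

open Finset

namespace Pool.Agent.Lib.MP_6cded1_nt.ML

private theorem EE_mono (W : ℕ) (t : ℝ) {f g : ℝ → ℝ} (h : ∀ x, f x ≤ g x) :
    EE W t f ≤ EE W t g := by
  unfold EE
  apply div_le_div_of_nonneg_right (sum_le_sum fun j _ => h _) (Nat.cast_nonneg _)

private theorem EE_const_mul (W : ℕ) (t c : ℝ) (f : ℝ → ℝ) :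
    EE W t (fun x => c * f x) = c * EE W t f := by
  unfold EE
  rw [← mul_sum, mul_div_assoc]

private theorem EE_sum {ι : Type*} (W : ℕ) (t : ℝ) (s : Finset ι) (f : ι → ℝ → ℝ) :
    EE W t (fun x => ∑ i ∈ s, f i x) = ∑ i ∈ s, EE W t (f i) := by
  unfold EE
  rw [sum_comm, sum_div]

open Classical in
theorem amplify (f : ℕ → ℂ) (hf : Mult f) (N W : ℕ) (hW : 1 ≤ W) (t : ℝ) (R : Finset ℕ)
    (hR : ∀ p ∈ R, p.Prime ∧ p ^ 2 ∣ W) (g : ℝ → ℝ) (hg0 : ∀ z, 0 ≤ g z)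
    (hg : ∀ (z : ℝ) (k : ℤ), g (z + k) = g z) (ok : ℕ → ℝ → Prop)
    (hok : ∀ (p : ℕ) (z : ℝ) (k : ℤ), ok p (z + k) ↔ ok p z) (n₀ : ℝ)
    (hn : ∀ z, g z ≠ 0 → n₀ ≤ ((R.filter fun p => ok p z).card : ℝ)) :
    n₀ * EE W t (fun z => ‖F f N z‖ * g z) ≤
      EE W t (fun y => ‖F f N y‖ *
        ∑ s ∈ R.sigma (fun p => Ioo 0 (p ^ 2)), sel (ok s.1 (pt y s)) (g (pt y s))) := by
  set Sg : Finset (Σ _ : ℕ, ℕ) := R.sigma (fun p => Ioo 0 (p ^ 2)) with hSg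
  -- pointwise inequality
  have hpt : ∀ z, n₀ * (‖F f N z‖ * g z) ≤
      ∑ s ∈ Sg, ‖F f N (z - s.2 / (s.1 : ℝ) ^ 2)‖ * sel (ok s.1 z) (g z) := by
    intro z
    by_cases hz : g z = 0
    · rw [hz, mul_zero, mul_zero]
      exact sum_nonneg fun s _ => mul_nonneg (norm_nonneg _) (sel_nonneg le_rfl)
    · have h1 : ∑ s ∈ Sg, ‖F f N (z - s.2 / (s.1 : ℝ) ^ 2)‖ * sel (ok s.1 z) (g z) =
          ∑ p ∈ R, (∑ b ∈ Ioo 0 (p ^ 2), ‖F f N (z - b / (p : ℝ) ^ 2)‖) * sel (ok p z) (g z) := by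
        rw [hSg, sum_sigma]
        exact sum_congr rfl fun p _ => by rw [sum_mul]
      rw [h1]
      have h2 : ∑ p ∈ R.filter (fun p => ok p z), ‖F f N z‖ * g z ≤
          ∑ p ∈ R, (∑ b ∈ Ioo 0 (p ^ 2), ‖F f N (z - b / (p : ℝ) ^ 2)‖) * sel (ok p z) (g z) := by
        rw [sum_filter]
        refine sum_le_sum fun p hp => ?_
        by_cases hokp : ok p z
        · rw [if_pos hokp, sel_pos hokp]
          exact mul_le_mul_of_nonneg_right (norm_F_le f hf N p (hR p hp).1 z) (hg0 z)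
        · rw [if_neg hokp, sel_neg hokp, mul_zero]
      refine le_trans ?_ h2
      rw [sum_const, nsmul_eq_mul]
      exact mul_le_mul_of_nonneg_right (hn z hz) (mul_nonneg (norm_nonneg _) (hg0 z))
  -- the shifts
  have hshift : ∀ s ∈ Sg, EE W t (fun z => ‖F f N (z - s.2 / (s.1 : ℝ) ^ 2)‖ *
      sel (ok s.1 z) (g z)) = EE W t (fun y => ‖F f N y‖ *
        sel (ok s.1 (pt y s)) (g (pt y s))) := by
    intro s hs
    have hsR : s.1 ∈ R := (mem_sigma.1 hs).1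
    rw [← EE_shift W s.1 s.2 hW (hR s.1 hsR).2 t (fun z => ‖F f N (z - s.2 / (s.1 : ℝ) ^ 2)‖ *
      sel (ok s.1 z) (g z))]
    · congr 1
      funext y
      simp only [add_sub_cancel_right, pt]
    · intro x k
      have e1 : x + (k : ℝ) - (s.2 : ℝ) / (s.1 : ℝ) ^ 2 = (x - (s.2 : ℝ) / (s.1 : ℝ) ^ 2) + k := by
        ring
      have e2 : ok s.1 (x + k) = ok s.1 x := propext (hok s.1 x k)
      simp only [e1, F_add_int, e2, hg]
  calc n₀ * EE W t (fun z => ‖F f N z‖ * g z)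
      = EE W t (fun z => n₀ * (‖F f N z‖ * g z)) := (EE_const_mul W t n₀ _).symm
    _ ≤ EE W t (fun z => ∑ s ∈ Sg, ‖F f N (z - s.2 / (s.1 : ℝ) ^ 2)‖ *
          sel (ok s.1 z) (g z)) := EE_mono W t hpt
    _ = ∑ s ∈ Sg, EE W t (fun z => ‖F f N (z - s.2 / (s.1 : ℝ) ^ 2)‖ *
          sel (ok s.1 z) (g z)) := EE_sum W t Sg _
    _ = ∑ s ∈ Sg, EE W t (fun y => ‖F f N y‖ * sel (ok s.1 (pt y s)) (g (pt y s))) :=
        sum_congr rfl hshift
    _ = EE W t (fun y => ∑ s ∈ Sg, ‖F f N y‖ * sel (ok s.1 (pt y s)) (g (pt y s))) :=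
        (EE_sum W t Sg _).symm
    _ = EE W t (fun y => ‖F f N y‖ * ∑ s ∈ Sg, sel (ok s.1 (pt y s)) (g (pt y s))) := by
        congr 1
        funext y
        rw [mul_sum]

end Pool.Agent.Lib.MP_6cded1_nt.ML
end

section

/-!
# Summation over `g`

`phi_sq` for every `g`, `g.divisors.card ≤ dm`; write `g = g₀ x`, interchange: for `g₀ < 2M` and `j`: `∑_{x ≤ (2M-1)/g₀} (min (3D) ((N/κ)/x))² ≤ min (9 D N / κ) (2 N² / κ²)` by `sum_min_sq` (`A = 3D`, `B = N/κ`, `κ = g₀ 2^j`), and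
`2 N² / κ² ≤ 9 D N * 2 M / κ²` since `2 N ≤ 18 D M`.  So it is `≤ 9 D N * wt M g₀ j`; `(9/4) * 9 = 81/4`.
-/

set_option autoImplicit false

open Finset Pool.Agent.Lib.MP_6cded1_nt.ML

namespace Pool.Agent.Lib.MP_6cded1_nt.M3

private theorem sum_div_swap (n : ℕ) (f : ℕ → ℕ → ℝ) :
    ∑ g ∈ Icc 1 n, ∑ d ∈ g.divisors, f d g = ∑ d ∈ Icc 1 n, ∑ x ∈ Icc 1 (n / d), f d (d * x) := by
  rw [Finset.sum_sigma', Finset.sum_sigma']
  refine Finset.sum_nbij' (fun s => ⟨s.2, s.1 / s.2⟩) (fun s => ⟨s.1 * s.2, s.1⟩) ?_ ?_ ?_ ?_ ?_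
  · rintro ⟨g, d⟩ h
    simp only [mem_sigma, mem_Icc, Nat.mem_divisors] at h ⊢
    obtain ⟨⟨h1, h2⟩, h3, h4⟩ := h
    have hd : 0 < d := Nat.pos_of_dvd_of_pos h3 h1
    have hdg : d ≤ g := Nat.le_of_dvd h1 h3
    refine ⟨⟨hd, hdg.trans h2⟩, ?_, Nat.div_le_div_right h2⟩
    exact Nat.div_pos hdg hd
  · rintro ⟨d, x⟩ h
    simp only [mem_sigma, mem_Icc, Nat.mem_divisors] at h ⊢
    obtain ⟨⟨h1, h2⟩, h3, h4⟩ := h
    have h5 : d * x ≤ n := by
      have := Nat.mul_le_mul_left d h4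
      exact this.trans (Nat.mul_div_le n d)
    have h6 : 0 < d * x := Nat.mul_pos h1 h3
    exact ⟨⟨h6, h5⟩, Dvd.intro x rfl, h6.ne'⟩
  · rintro ⟨g, d⟩ h
    simp only [mem_sigma, mem_Icc, Nat.mem_divisors] at h
    obtain ⟨⟨h1, h2⟩, h3, h4⟩ := h
    simp only [Nat.mul_div_cancel' h3]
  · rintro ⟨d, x⟩ h
    simp only [mem_sigma, mem_Icc] at h
    obtain ⟨⟨h1, h2⟩, h3, h4⟩ := h
    simp only [Nat.mul_div_cancel_left x h1]
  · rintro ⟨g, d⟩ h
    simp only [mem_sigma, mem_Icc, Nat.mem_divisors] at h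
    obtain ⟨⟨h1, h2⟩, h3, h4⟩ := h
    simp only [Nat.mul_div_cancel' h3]

private theorem inner (N D M g₀ j X : ℕ) (hg : 1 ≤ g₀) (hN8 : N ≤ 8 * D * M) :
    ∑ x ∈ Icc 1 X, (min (3 * (D : ℝ)) (N / (((g₀ * x : ℕ) : ℝ) * 2 ^ j))) ^ 2 ≤ 9 * D * N * wt M g₀ j := by
  have hk : (0 : ℝ) < (g₀ : ℝ) * 2 ^ j := by
    have : (0 : ℝ) < g₀ := by exact_mod_cast hg
    positivity
  have h := sum_min_sq (3 * (D : ℝ)) (N / ((g₀ : ℝ) * 2 ^ j)) (by positivity) (by positivity) X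
  have e1 : ∑ x ∈ Icc 1 X, (min (3 * (D : ℝ)) (N / (((g₀ * x : ℕ) : ℝ) * 2 ^ j))) ^ 2 =
      ∑ x ∈ Icc 1 X, (min (3 * (D : ℝ)) (N / ((g₀ : ℝ) * 2 ^ j) / x)) ^ 2 := by
    refine Finset.sum_congr rfl ?_
    intro x _
    congr 2
    rw [div_div]
    push_cast
    congr 1
    ring
  rw [e1]
  have hN : (N : ℝ) ≤ 8 * D * M := by exact_mod_cast hN8
  unfold wt
  set κ := (g₀ : ℝ) * 2 ^ j with hκ
  rcases le_total (1 / κ) (2 * M / κ ^ 2) with hc | hc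
  · rw [min_eq_left hc]
    refine h.1.trans (le_of_eq ?_)
    ring
  · rw [min_eq_right hc]
    refine h.2.trans ?_
    rw [div_pow, mul_div_assoc', mul_div_assoc']
    apply div_le_div_of_nonneg_right _ (by positivity)
    have h0 : (0 : ℝ) ≤ N := Nat.cast_nonneg N
    have h1 : (0 : ℝ) ≤ (D : ℝ) * M := by positivity
    nlinarith [mul_nonneg h0 h1, mul_le_mul_of_nonneg_left hN h0]

theorem sum_phi_sq (N D M : ℕ) (dm : ℝ) (A : Finset ℕ) (z : ℕ → ℝ) (hD : 1 ≤ D) (hM : 1 ≤ M) (hDM : 4 * D * M ≤ N)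
    (hN8 : N ≤ 8 * D * M) (hz : ∀ i ∈ A, 0 ≤ z i ∧ z i < 1)
    (hdm : ∀ g : ℕ, 1 ≤ g → g < 2 * M → (g.divisors.card : ℝ) ≤ dm) :
    ∑ g ∈ Icc 1 (2 * M - 1), (∑ i ∈ A, cap (3 * D) (2 * nd ((g : ℝ) * z i))) ^ 2 ≤
      81 / 4 * dm * JJ N * D * N * En N M A z := by
  have hdm0 : 0 ≤ dm := le_trans (Nat.cast_nonneg _) (hdm 1 le_rfl (by omega))
  set f : ℕ → ℕ → ℝ := fun g₀ g => ∑ j ∈ range (JJ N), (cc N A z g₀ j : ℝ) ^ 2 *
    (min (3 * (D : ℝ)) (N / ((g : ℝ) * 2 ^ j))) ^ 2 with hf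
  have hf0 : ∀ g₀ g, 0 ≤ f g₀ g := by
    intro g₀ g
    simp only [hf]
    exact Finset.sum_nonneg fun j _ => by positivity
  have h1 : ∀ g ∈ Icc 1 (2 * M - 1), (∑ i ∈ A, cap (3 * D) (2 * nd ((g : ℝ) * z i))) ^ 2 ≤
      9 / 4 * (dm * JJ N) * ∑ g₀ ∈ g.divisors, f g₀ g := by
    intro g hg
    rw [mem_Icc] at hg
    have hg2 : g < 2 * M := by omega
    refine (phi_sq N D M g A z hD hDM hg.1 hg2 hz).trans ?_
    apply mul_le_mul_of_nonneg_right _ (Finset.sum_nonneg fun g₀ _ => hf0 g₀ g)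
    apply mul_le_mul_of_nonneg_left _ (by norm_num)
    exact mul_le_mul_of_nonneg_right (hdm g hg.1 hg2) (Nat.cast_nonneg _)
  refine (Finset.sum_le_sum h1).trans ?_
  rw [← Finset.mul_sum, sum_div_swap (2 * M - 1) f]
  have h2 : ∑ d ∈ Icc 1 (2 * M - 1), ∑ x ∈ Icc 1 ((2 * M - 1) / d), f d (d * x) ≤ 9 * D * N * En N M A z := by
    have h3 : ∀ d ∈ Icc 1 (2 * M - 1), ∑ x ∈ Icc 1 ((2 * M - 1) / d), f d (d * x) ≤
        ∑ j ∈ range (JJ N), (cc N A z d j : ℝ) ^ 2 * (9 * D * N * wt M d j) := by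
      intro d hd
      rw [mem_Icc] at hd
      simp only [hf]
      rw [Finset.sum_comm]
      refine Finset.sum_le_sum ?_
      intro j _
      rw [← Finset.mul_sum]
      exact mul_le_mul_of_nonneg_left (inner N D M d j _ hd.1 hN8) (by positivity)
    refine (Finset.sum_le_sum h3).trans (le_of_eq ?_)
    rw [Finset.sum_comm]
    unfold En
    rw [Finset.mul_sum]
    refine Finset.sum_congr rfl ?_
    intro j _
    rw [Finset.mul_sum]
    refine Finset.sum_congr rfl ?_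
    intro g _
    ring
  have h4 : 9 / 4 * (dm * JJ N) * (9 * D * N * En N M A z) = 81 / 4 * dm * JJ N * D * N * En N M A z := by ring
  rw [← h4]
  exact mul_le_mul_of_nonneg_left h2 (by positivity)

end Pool.Agent.Lib.MP_6cded1_nt.M3
end

section

/-!
# Amplification and splitting

As `ML/Level1.lean` (`level_split`), simpler.  `m y = card (sts P Λ l y)`.  `amplify` with `R = PP P`, `g z = sel (Λ z) ‖B z‖`, `ok p z = ¬ p ∣ (l z).1`, `n₀ = card (PP P) / 2` (for `Λ z`: `l z ∈ S`, at most `C₂ - 1` primes of `PP P` divide `(l z).1`, `2 C₂ ≤ card (PP P)`); the inner sum is `≤ 2 H m y`.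
So `card (PP P) * EE (‖F‖ g) ≤ 4 H EE (‖F‖ m)`.  Where `m < 4 C₂`: `m ≤ 4 C₂`; otherwise Cauchy-Schwarz: `EE (‖F‖ m 1[4 C₂ ≤ m]) ≤ √(EE ‖F‖²) √X ≤ √(N X)`.
-/

set_option autoImplicit false

open Finset Pool.Agent.Lib.MP_6cded1_nt.ML

namespace Pool.Agent.Lib.MP_6cded1_nt.M3

private theorem EEm (W : ℕ) (t : ℝ) (g h : ℝ → ℝ) (hgh : ∀ x, g x ≤ h x) : EE W t g ≤ EE W t h := by
  unfold EE
  exact div_le_div_of_nonneg_right (Finset.sum_le_sum fun j _ => hgh _) (Nat.cast_nonneg _)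

private theorem EEa (W : ℕ) (t : ℝ) (g h : ℝ → ℝ) :
    EE W t (fun x => g x + h x) = EE W t g + EE W t h := by
  unfold EE
  rw [Finset.sum_add_distrib, add_div]

private theorem EEc (W : ℕ) (t c : ℝ) (g : ℝ → ℝ) : EE W t (fun x => c * g x) = c * EE W t g := by
  unfold EE
  rw [← Finset.mul_sum, mul_div_assoc]

private theorem EE_cs (W : ℕ) (t : ℝ) (g h : ℝ → ℝ) :
    EE W t (fun x => g x * h x) ^ 2 ≤ EE W t (fun x => g x ^ 2) * EE W t (fun x => h x ^ 2) := by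
  unfold EE
  rw [div_pow, div_mul_div_comm, ← pow_two (W : ℝ)]
  exact div_le_div_of_nonneg_right (Finset.sum_mul_sq_le_sq_mul_sq _ _ _) (by positivity)

open Classical in
private theorem inner_le3 (D M P : ℕ) (H : ℝ) (a b : ℕ → ℂ) (Λ : ℝ → Prop) (l : ℝ → ℕ × ℕ)
    (hΛB : ∀ z, Λ z → ‖B a b D M z‖ ≤ 2 * H) (y : ℝ) :
    ∑ s ∈ (PP P).sigma (fun p => Ioo 0 (p ^ 2)),
        sel (¬ s.1 ∣ (l (pt y s)).1) (sel (Λ (pt y s)) ‖B a b D M (pt y s)‖) ≤
      2 * H * ((sts P Λ l y).card : ℝ) := by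
  unfold sts
  rw [Finset.card_filter]
  push_cast
  rw [Finset.mul_sum]
  refine Finset.sum_le_sum fun s _ => ?_
  by_cases h1 : Λ (pt y s)
  · by_cases h2 : ¬ s.1 ∣ (l (pt y s)).1
    · have h3 : Λ (pt y s) ∧ ¬ s.1 ∣ (l (pt y s)).1 := ⟨h1, h2⟩
      rw [if_pos h3, sel_pos h2, sel_pos h1, mul_one]
      exact hΛB _ h1
    · have h3 : ¬ (Λ (pt y s) ∧ ¬ s.1 ∣ (l (pt y s)).1) := fun h => h2 h.2
      rw [if_neg h3, sel_neg h2, mul_zero]
  · have h3 : ¬ (Λ (pt y s) ∧ ¬ s.1 ∣ (l (pt y s)).1) := fun h => h1 h.1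
    rw [if_neg h3, sel_neg h1, mul_zero]
    exact sel_le le_rfl

private theorem split_pt3 (c m F : ℝ) (A : Prop) (hF : 0 ≤ F) (hA : A ↔ 4 * c ≤ m) (hc : 0 ≤ c) :
    F * m ≤ 4 * c * F + F * sel A m := by
  by_cases h : A
  · rw [sel_pos h]
    nlinarith [mul_nonneg hF hc]
  · rw [sel_neg h]
    have h1 : m < 4 * c := lt_of_not_ge fun h2 => h (hA.2 h2)
    nlinarith [mul_nonneg hF (sub_nonneg.2 h1.le)]

open Classical in
theorem level_split3 (f : ℕ → ℂ) (hf : Mult f) (a b : ℕ → ℂ) (N D M P W : ℕ) (H t X : ℝ) (hW : 1 ≤ W)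
    (hPW : ∀ p ∈ PP P, p ^ 2 ∣ W) (hH : 0 ≤ H) (S : Finset (ℕ × ℕ)) (Λ : ℝ → Prop) (l : ℝ → ℕ × ℕ)
    (hl : Lbl N S Λ l) (hΛB : ∀ z, Λ z → ‖B a b D M z‖ ≤ 2 * H) (C₂ : ℕ)
    (hC₂ : ∀ s ∈ S, ((PP P).filter fun p => p ∣ s.1).card + 1 ≤ C₂) (hC₂P : 2 * C₂ ≤ (PP P).card)
    (hpars : EE W t (fun x => ‖F f N x‖ ^ 2) ≤ N)
    (hX : EE W t (fun y => sel (4 * C₂ ≤ (sts P Λ l y).card) (((sts P Λ l y).card : ℝ) ^ 2)) ≤ X) :
    (PP P).card * EE W t (fun z => ‖F f N z‖ * sel (Λ z) ‖B a b D M z‖) ≤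
      4 * H * (4 * C₂ * EE W t (fun z => ‖F f N z‖) + Real.sqrt (N * X)) := by
  classical
  set G : ℝ → ℝ := fun z => sel (Λ z) ‖B a b D M z‖ with hG
  have hG0 : ∀ z, 0 ≤ G z := fun z => sel_nonneg (norm_nonneg _)
  have hGp : ∀ (z : ℝ) (k : ℤ), G (z + k) = G z := by
    intro z k
    by_cases h : Λ z
    · simp only [hG]
      rw [sel_pos h, sel_pos ((hl.per z k).2 h), B_add_int]
    · simp only [hG]
      rw [sel_neg h, sel_neg (fun h' => h ((hl.per z k).1 h'))]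
  have hR : ∀ p ∈ PP P, p.Prime ∧ p ^ 2 ∣ W := fun p hp =>
    ⟨(Finset.mem_filter.1 hp).2, hPW p hp⟩
  have hn : ∀ z, G z ≠ 0 →
      ((PP P).card : ℝ) / 2 ≤ (((PP P).filter fun p => ¬ p ∣ (l z).1).card : ℝ) := by
    intro z hz
    have hΛz : Λ z := by
      by_contra h
      exact hz (sel_neg h _)
    have h3 := hC₂ _ (hl.mem z hΛz)
    have h4 := Finset.card_filter_add_card_filter_not (s := PP P) (fun p => p ∣ (l z).1)
    have h5 : (PP P).card ≤ 2 * ((PP P).filter fun p => ¬ p ∣ (l z).1).card := by omega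
    have h6 : ((PP P).card : ℝ) ≤ 2 * (((PP P).filter fun p => ¬ p ∣ (l z).1).card : ℝ) := by
      exact_mod_cast h5
    linarith
  have hamp := amplify f hf N W hW t (PP P) hR G hG0 hGp (fun p z => ¬ p ∣ (l z).1)
    (fun p z k => by rw [hl.perl]) (((PP P).card : ℝ) / 2) (fun z hz => by convert hn z hz)
  have hin : EE W t (fun y => ‖F f N y‖ * ∑ s ∈ (PP P).sigma (fun p => Ioo 0 (p ^ 2)),
        sel (¬ s.1 ∣ (l (pt y s)).1) (G (pt y s))) ≤
      EE W t (fun y => 2 * H * (‖F f N y‖ * ((sts P Λ l y).card : ℝ))) := by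
    refine EEm _ _ _ _ fun y => ?_
    have h1 := inner_le3 D M P H a b Λ l hΛB y
    calc ‖F f N y‖ * ∑ s ∈ (PP P).sigma (fun p => Ioo 0 (p ^ 2)),
          sel (¬ s.1 ∣ (l (pt y s)).1) (G (pt y s))
        ≤ ‖F f N y‖ * (2 * H * ((sts P Λ l y).card : ℝ)) :=
          mul_le_mul_of_nonneg_left h1 (norm_nonneg _)
      _ = 2 * H * (‖F f N y‖ * ((sts P Λ l y).card : ℝ)) := by ring
  rw [EEc] at hin
  have hsp : EE W t (fun y => ‖F f N y‖ * ((sts P Λ l y).card : ℝ)) ≤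
      4 * C₂ * EE W t (fun z => ‖F f N z‖) + EE W t (fun y => ‖F f N y‖ *
        sel (4 * C₂ ≤ (sts P Λ l y).card) ((sts P Λ l y).card : ℝ)) := by
    rw [← EEc, ← EEa]
    refine EEm _ _ _ _ fun y => ?_
    refine split_pt3 _ _ _ _ (norm_nonneg _) ?_ (Nat.cast_nonneg _)
    constructor
    · intro h
      exact_mod_cast h
    · intro h
      exact_mod_cast h
  have hcs : EE W t (fun y => ‖F f N y‖ *
      sel (4 * C₂ ≤ (sts P Λ l y).card) ((sts P Λ l y).card : ℝ)) ≤ Real.sqrt (N * X) := by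
    apply Real.le_sqrt_of_sq_le
    refine (EE_cs W t _ _).trans ?_
    have h2 : EE W t (fun y =>
        sel (4 * C₂ ≤ (sts P Λ l y).card) ((sts P Λ l y).card : ℝ) ^ 2) ≤ X := by
      refine le_trans (EEm _ _ _ _ fun y => ?_) hX
      by_cases h : 4 * C₂ ≤ (sts P Λ l y).card
      · rw [sel_pos h, sel_pos h]
      · rw [sel_neg h, sel_neg h]
        norm_num
    have h3 : 0 ≤ EE W t (fun y =>
        sel (4 * C₂ ≤ (sts P Λ l y).card) ((sts P Λ l y).card : ℝ) ^ 2) := by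
      unfold EE
      exact div_nonneg (Finset.sum_nonneg fun j _ => sq_nonneg _) (Nat.cast_nonneg _)
    exact mul_le_mul hpars h2 h3 (Nat.cast_nonneg _)
  have hH4 : 0 ≤ 4 * H := by linarith
  have e1 : ((PP P).card : ℝ) * EE W t (fun z => ‖F f N z‖ * G z) ≤
      4 * H * EE W t (fun y => ‖F f N y‖ * ((sts P Λ l y).card : ℝ)) := by
    have h1 := hamp.trans hin
    linarith
  refine e1.trans (mul_le_mul_of_nonneg_left ?_ hH4)
  linarith

end Pool.Agent.Lib.MP_6cded1_nt.M3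
end

section

/-!
# The dual large sieve

Choose unimodular `ε i` with `ε i B(z i) = ‖B(z i)‖`.  `∑_i ‖B(z i)‖ = ∑_{m ≤ M} b_m X_m` with `X_m = ∑_{(i, d)} ε i a_d e(m (d z_i))`, so by Cauchy-Schwarz `(∑ ‖B‖)² ≤ M ∑_{m ≤ M} ‖X_m‖²`.
`fejer_low` (with `X k = ‖∑_{(i,d)} ε i a_d e(k (d z_i))‖²`), `majorant` (`T = S ×ˢ Ioc D (4D)`, `L = 2M`), `fejer_up`: `M ∑_{m ≤ M} ‖X_m‖² ≤ 2 M (Y_0² + 2 ∑_{1 ≤ g < 2M} Y_g²)`, `Y_g = ‖∑_{i, d} e(g d z_i)‖`,
`Y_0 = 3 D n`, `Y_g ≤ ∑_i cap (3D) (2 ‖g z_i‖)` (`norm_geom_Ioc` with `θ = g z_i`).  So `∑_{m ≤ M} ‖X_m‖² ≤ 2 (9 D² n² + 2 ∑ Φ_g²)` (if `M = 0` everything is `0`), and `(∑ ‖B‖)² ≤ 18 M D² n² + 4 M ∑ Φ_g²`.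
-/

set_option autoImplicit false

open Finset Pool.Agent.Lib.MP_6cded1_nt.ML

namespace Pool.Agent.Lib.MP_6cded1_nt.M3

private theorem fls_unit (w : ℂ) : ∃ ε : ℂ, ‖ε‖ = 1 ∧ ε * w = (‖w‖ : ℂ) := by
  by_cases h : w = 0
  · exact ⟨1, by simp, by simp [h]⟩
  · have hw : ‖w‖ ≠ 0 := norm_ne_zero_iff.2 h
    refine ⟨(starRingEnd ℂ) w / ‖w‖, ?_, ?_⟩
    · rw [norm_div, RCLike.norm_conj, Complex.norm_real, norm_norm, div_self hw]
    · have h1 : (starRingEnd ℂ) w * w = (‖w‖ : ℂ) ^ 2 := by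
        rw [mul_comm, Complex.mul_conj']
      have h2 : (‖w‖ : ℂ) ≠ 0 := by exact_mod_cast hw
      rw [div_mul_eq_mul_div, h1, sq, mul_div_assoc, div_self h2, mul_one]

theorem fls (a b : ℕ → ℂ) (ha : ∀ d, ‖a d‖ ≤ 1) (hb : ∀ m, ‖b m‖ ≤ 1) (D M : ℕ) (S : Finset ℕ) (z : ℕ → ℝ) :
    (∑ i ∈ S, ‖B a b D M (z i)‖) ^ 2 ≤ 18 * M * D ^ 2 * (S.card : ℝ) ^ 2 +
      4 * M * ∑ g ∈ Icc 1 (2 * M - 1), (∑ i ∈ S, cap (3 * D) (2 * nd ((g : ℝ) * z i))) ^ 2 := by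
  classical
  choose ε hε1 hε2 using fun i : ℕ => fls_unit (B a b D M (z i))
  set T : Finset (ℕ × ℕ) := S ×ˢ Ioc D (4 * D) with hT
  set c : ℕ × ℕ → ℂ := fun p => if p ∈ T then ε p.1 * a p.2 else 0 with hc
  set θ : ℕ × ℕ → ℝ := fun p => p.2 * z p.1 with hθ
  set X : ℤ → ℝ := fun k => ‖∑ p ∈ T, c p * e ((k : ℝ) * θ p)‖ ^ 2 with hX
  set Y : ℤ → ℝ := fun k => ‖∑ p ∈ T, e ((k : ℝ) * θ p)‖ ^ 2 with hY
  have hc1 : ∀ p, ‖c p‖ ≤ 1 := by
    intro p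
    simp only [hc]
    split_ifs
    · rw [norm_mul, hε1, one_mul]
      exact ha _
    · simp
  -- the sum of the norms
  have hsum : ((∑ i ∈ S, ‖B a b D M (z i)‖ : ℝ) : ℂ) =
      ∑ m ∈ Icc 1 M, b m * ∑ p ∈ T, c p * e (((m : ℤ) : ℝ) * θ p) := by
    rw [Complex.ofReal_sum]
    have h1 : ∀ i ∈ S, ((‖B a b D M (z i)‖ : ℝ) : ℂ) =
        ∑ m ∈ Icc 1 M, ∑ d ∈ Ioc D (4 * D), b m * (c (i, d) * e (((m : ℤ) : ℝ) * θ (i, d))) := by
      intro i hi
      rw [← hε2 i, B, Finset.mul_sum, Finset.sum_comm]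
      refine Finset.sum_congr rfl fun d hd => ?_
      rw [Finset.mul_sum]
      refine Finset.sum_congr rfl fun m _ => ?_
      have hmem : (i, d) ∈ T := by
        rw [hT, Finset.mem_product]
        exact ⟨hi, hd⟩
      have h2 : c (i, d) = ε i * a d := by
        simp only [hc]
        rw [if_pos hmem]
      have h3 : ((m : ℤ) : ℝ) * θ (i, d) = (d : ℝ) * m * z i := by
        simp only [hθ]
        push_cast
        ring
      rw [h2, h3]
      ring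
    rw [Finset.sum_congr rfl h1, Finset.sum_comm]
    refine Finset.sum_congr rfl fun m _ => ?_
    rw [hT, Finset.sum_product, Finset.mul_sum]
    refine Finset.sum_congr rfl fun i _ => ?_
    rw [Finset.mul_sum]
  have hle : ∑ i ∈ S, ‖B a b D M (z i)‖ ≤
      ∑ m ∈ Icc 1 M, ‖∑ p ∈ T, c p * e (((m : ℤ) : ℝ) * θ p)‖ := by
    have h0 : 0 ≤ ∑ i ∈ S, ‖B a b D M (z i)‖ := Finset.sum_nonneg fun i _ => norm_nonneg _
    have h1 : ∑ i ∈ S, ‖B a b D M (z i)‖ = ‖((∑ i ∈ S, ‖B a b D M (z i)‖ : ℝ) : ℂ)‖ := by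
      rw [Complex.norm_real, Real.norm_eq_abs, abs_of_nonneg h0]
    rw [h1, hsum]
    refine (norm_sum_le _ _).trans (Finset.sum_le_sum fun m _ => ?_)
    rw [norm_mul]
    exact mul_le_of_le_one_left (norm_nonneg _) (hb m)
  have hsq : (∑ i ∈ S, ‖B a b D M (z i)‖) ^ 2 ≤ (M : ℝ) * ∑ m ∈ Icc 1 M, X (m : ℤ) := by
    have h0 : 0 ≤ ∑ i ∈ S, ‖B a b D M (z i)‖ := Finset.sum_nonneg fun i _ => norm_nonneg _
    refine (pow_le_pow_left₀ h0 hle 2).trans ?_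
    have h1 := sq_sum_le_card_mul_sum_sq (s := Icc 1 M)
      (f := fun m : ℕ => ‖∑ p ∈ T, c p * e (((m : ℤ) : ℝ) * θ p)‖)
    rw [Nat.card_Icc, Nat.add_sub_cancel] at h1
    exact h1
  have h1 := fejer_low M X (fun k => sq_nonneg _)
  have h2 := majorant T c hc1 θ (2 * M)
  have hYs : ∀ k, Y (-k) = Y k := by
    intro k
    simp only [hY]
    have h3 : ∑ p ∈ T, e (((-k : ℤ) : ℝ) * θ p) = (starRingEnd ℂ) (∑ p ∈ T, e ((k : ℝ) * θ p)) := by
      rw [map_sum]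
      refine Finset.sum_congr rfl fun p _ => ?_
      rw [← e_neg]
      congr 1
      push_cast
      ring
    rw [h3, RCLike.norm_conj]
  have h3 := fejer_up M Y (fun k => sq_nonneg _) hYs
  have hY0 : Y 0 = 9 * (D : ℝ) ^ 2 * (S.card : ℝ) ^ 2 := by
    simp only [hY]
    have h4 : ∑ p ∈ T, e (((0 : ℤ) : ℝ) * θ p) = ((3 * D * S.card : ℕ) : ℂ) := by
      have h5 : ∀ p ∈ T, e (((0 : ℤ) : ℝ) * θ p) = 1 := by
        intro p _
        rw [Int.cast_zero, zero_mul, e_zero]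
      rw [Finset.sum_congr rfl h5, Finset.sum_const, hT, Finset.card_product, Nat.card_Ioc,
        nsmul_eq_mul, mul_one]
      congr 1
      have : 4 * D - D = 3 * D := by omega
      rw [this, mul_comm]
    rw [h4, Complex.norm_natCast]
    push_cast
    ring
  have hYg : ∀ g ∈ Icc 1 (2 * M - 1), Y (g : ℤ) ≤
      (∑ i ∈ S, cap (3 * D) (2 * nd ((g : ℝ) * z i))) ^ 2 := by
    intro g _
    simp only [hY]
    refine pow_le_pow_left₀ (norm_nonneg _) ?_ 2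
    rw [hT, Finset.sum_product]
    refine (norm_sum_le _ _).trans (Finset.sum_le_sum fun i _ => ?_)
    refine le_trans (le_of_eq ?_) (norm_geom_Ioc D ((g : ℝ) * z i))
    congr 1
    refine Finset.sum_congr rfl fun d _ => ?_
    congr 1
    simp only [hθ]
    push_cast
    ring
  have h4 := Finset.sum_le_sum hYg
  rw [hY0] at h3
  have hM : (0 : ℝ) ≤ M := Nat.cast_nonneg M
  calc (∑ i ∈ S, ‖B a b D M (z i)‖) ^ 2 ≤ (M : ℝ) * ∑ m ∈ Icc 1 M, X (m : ℤ) := hsq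
    _ ≤ ∑ k ∈ range (2 * M), ∑ l ∈ range (2 * M), X ((k : ℤ) - l) := h1
    _ ≤ ∑ k ∈ range (2 * M), ∑ l ∈ range (2 * M), Y ((k : ℤ) - l) := h2
    _ ≤ 2 * M * (9 * (D : ℝ) ^ 2 * (S.card : ℝ) ^ 2 + 2 * ∑ g ∈ Icc 1 (2 * M - 1), Y (g : ℤ)) := h3
    _ ≤ 2 * M * (9 * (D : ℝ) ^ 2 * (S.card : ℝ) ^ 2 + 2 * ∑ g ∈ Icc 1 (2 * M - 1),
        (∑ i ∈ S, cap (3 * D) (2 * nd ((g : ℝ) * z i))) ^ 2) := by
      refine mul_le_mul_of_nonneg_left ?_ (by positivity)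
      linarith
    _ = _ := by ring

end Pool.Agent.Lib.MP_6cded1_nt.M3
end
end
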