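import Pool.Agent.Lib.MP_6cded1_nt.ML.Nd
import Pool.Agent.Lib.MP_6cded1_nt.ML.Near1

section

section

/-!
# Few multiples close to an integer off the major arcs

The map `g ↦ (⌊g / κ⌋, ⌊(g z - round (g z) + ω) N / κ⌋)` is injective on the set: if `g₁ < g₂` have the same image then `g = g₂ - g₁` satisfies
`1 ≤ g < κ` and `|g z - (round (g₂ z) - round (g₁ z))| < κ / N`, so `Maj N κ z`.  The first coordinate has at most `G / κ + 1` values, the second at most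
`2 ω N / κ + 1` (`|g z - round (g z)| ≤ ω`).
-/

set_option autoImplicit false

open Finset

namespace Pool.Agent.Lib.MP_6cded1_nt.ML

private theorem floor_eq_abs_lt {x y : ℝ} (hx : 0 ≤ x) (hy : 0 ≤ y) (h : ⌊x⌋₊ = ⌊y⌋₊) :
    |x - y| < 1 := by
  have h1 := Nat.floor_le hx
  have h2 := Nat.lt_floor_add_one x
  have h3 := Nat.floor_le hy
  have h4 := Nat.lt_floor_add_one y
  rw [h] at h1 h2
  rw [abs_lt]
  constructor <;> linarith

theorem card_near (N G : ℕ) (hN : 1 ≤ N) (κ ω z : ℝ) (hκ : 0 < κ) (hω : 0 ≤ ω) (hz : ¬ Maj N κ z) :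
    (((Icc 1 G).filter fun g : ℕ => nd (g * z) ≤ ω).card : ℝ) ≤ (G / κ + 1) * (2 * ω * N / κ + 1) := by
  have hN0 : (0 : ℝ) < N := by exact_mod_cast hN
  set S := (Icc 1 G).filter fun g : ℕ => nd (g * z) ≤ ω with hS
  set x : ℕ → ℝ := fun g => (g * z - round ((g : ℝ) * z) + ω) * N / κ with hx
  have hrange : ∀ g ∈ S, 0 ≤ x g ∧ x g ≤ 2 * ω * N / κ := by
    intro g hg
    have h1 : nd (g * z) ≤ ω := (mem_filter.1 hg).2
    have h2 := abs_le.1 h1
    constructor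
    · apply div_nonneg _ hκ.le
      apply mul_nonneg _ hN0.le
      linarith [h2.1]
    · simp only [hx]
      apply div_le_div_of_nonneg_right _ hκ.le
      apply mul_le_mul_of_nonneg_right _ hN0.le
      linarith [h2.2]
  have hkey : ∀ g₁ ∈ S, ∀ g₂ ∈ S, g₁ < g₂ → ⌊(g₁ : ℝ) / κ⌋₊ = ⌊(g₂ : ℝ) / κ⌋₊ →
      ⌊x g₁⌋₊ = ⌊x g₂⌋₊ → False := by
    intro g₁ h₁ g₂ h₂ hlt e1 e2
    apply hz
    have a1 := floor_eq_abs_lt (by positivity) (by positivity) e1
    have a2 := floor_eq_abs_lt (hrange g₁ h₁).1 (hrange g₂ h₂).1 e2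
    have hcast : ((g₂ - g₁ : ℕ) : ℝ) = (g₂ : ℝ) - g₁ := by
      rw [Nat.cast_sub hlt.le]
    refine ⟨g₂ - g₁, by omega, ?_, ?_⟩
    · rw [hcast]
      have h3 := (abs_lt.1 a1).1
      rw [← sub_div, lt_div_iff₀ hκ] at h3
      linarith
    · rw [hcast]
      have h4 : |x g₁ - x g₂| = |((g₂ : ℝ) - g₁) * z -
          ((round ((g₂ : ℝ) * z) - round ((g₁ : ℝ) * z) : ℤ) : ℝ)| * (N / κ) := by
        conv_rhs => rw [← abs_of_pos (div_pos hN0 hκ), ← abs_mul, ← abs_neg]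
        congr 1
        simp only [hx]
        push_cast
        ring
      rw [h4] at a2
      have h5 := nd_le_abs (((g₂ : ℝ) - g₁) * z)
        (round ((g₂ : ℝ) * z) - round ((g₁ : ℝ) * z))
      rw [le_div_iff₀ hN0]
      have h6 : |((g₂ : ℝ) - g₁) * z -
          ((round ((g₂ : ℝ) * z) - round ((g₁ : ℝ) * z) : ℤ) : ℝ)| * N ≤ κ := by
        rw [← mul_div_assoc, div_lt_iff₀ hκ] at a2
        linarith
      calc nd (((g₂ : ℝ) - g₁) * z) * N ≤ |((g₂ : ℝ) - g₁) * z -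
          ((round ((g₂ : ℝ) * z) - round ((g₁ : ℝ) * z) : ℤ) : ℝ)| * N :=
            mul_le_mul_of_nonneg_right h5 hN0.le
        _ ≤ κ := h6
  have hcard : S.card ≤ (range (⌊(G : ℝ) / κ⌋₊ + 1) ×ˢ
      range (⌊2 * ω * N / κ⌋₊ + 1)).card := by
    refine Finset.card_le_card_of_injOn (fun g => (⌊(g : ℝ) / κ⌋₊, ⌊x g⌋₊)) ?_ ?_
    · intro g hg
      rw [mem_coe] at hg
      simp only [coe_product, coe_range, Set.mem_prod, Set.mem_Iio]
      have h1 : (g : ℝ) ≤ G := by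
        exact_mod_cast (mem_Icc.1 (mem_filter.1 hg).1).2
      constructor
      · exact Nat.lt_succ_of_le (Nat.floor_le_floor (div_le_div_of_nonneg_right h1 hκ.le))
      · exact Nat.lt_succ_of_le (Nat.floor_le_floor (hrange g hg).2)
    · intro g₁ h₁ g₂ h₂ heq
      rw [mem_coe] at h₁ h₂
      simp only [Prod.mk.injEq] at heq
      rcases lt_trichotomy g₁ g₂ with h | h | h
      · exact (hkey g₁ h₁ g₂ h₂ h heq.1 heq.2).elim
      · exact h
      · exact (hkey g₂ h₂ g₁ h₁ h heq.1.symm heq.2.symm).elim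
  rw [card_product, card_range, card_range] at hcard
  have h1 : (S.card : ℝ) ≤ ((⌊(G : ℝ) / κ⌋₊ : ℝ) + 1) * ((⌊2 * ω * N / κ⌋₊ : ℝ) + 1) := by
    exact_mod_cast hcard
  refine h1.trans ?_
  have h2 : (⌊(G : ℝ) / κ⌋₊ : ℝ) ≤ G / κ := Nat.floor_le (by positivity)
  have h3 : (⌊2 * ω * N / κ⌋₊ : ℝ) ≤ 2 * ω * N / κ := Nat.floor_le (by positivity)
  have h4 : (0 : ℝ) ≤ (⌊(G : ℝ) / κ⌋₊ : ℝ) + 1 := by positivity
  have h5 : (0 : ℝ) ≤ G / κ + 1 := by positivity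
  exact mul_le_mul (by linarith) (by linarith) (by positivity) h5

end Pool.Agent.Lib.MP_6cded1_nt.ML
end

section

/-!
# Large prime divisors; the bad primes

`card_primes_dvd`: the product of the primes in question divides `n ≥ 1`, so `P ^ card ≤ n`.
`card_bad`: the set is contained in the union over the `g` of `card_near` of the primes in `PP P` dividing `g`; `log g ≤ log G`.
-/

set_option autoImplicit false

open Finset

namespace Pool.Agent.Lib.MP_6cded1_nt.ML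

theorem card_primes_dvd (P n : ℕ) (hP : 2 ≤ P) (hn : 1 ≤ n) :
    (((PP P).filter fun p => p ∣ n).card : ℝ) * Real.log P ≤ Real.log n := by
  set S := (PP P).filter fun p => p ∣ n with hS
  have hprime : ∀ p ∈ S, p.Prime := by
    intro p hp
    rw [hS, mem_filter, PP, mem_filter] at hp
    exact hp.1.2
  have hle : ∀ p ∈ S, P ≤ p := by
    intro p hp
    rw [hS, mem_filter, PP, mem_filter, mem_Ioc] at hp
    exact hp.1.1.1.le
  have hdvd : ∏ p ∈ S, p ∣ n := by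
    refine Finset.prod_primes_dvd n (fun p hp => (hprime p hp).prime) ?_
    intro p hp
    rw [hS, mem_filter] at hp
    exact hp.2
  have h1 : P ^ S.card ≤ ∏ p ∈ S, p := by
    rw [← Finset.prod_const]
    exact Finset.prod_le_prod' fun p hp => hle p hp
  have h2 : P ^ S.card ≤ n := h1.trans (Nat.le_of_dvd (by omega) hdvd)
  have hP0 : (0 : ℝ) < P := by
    have : 0 < P := by omega
    exact_mod_cast this
  rw [← Real.log_pow]
  refine Real.log_le_log (pow_pos hP0 _) ?_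
  exact_mod_cast h2

open Classical in
theorem card_bad (N P G : ℕ) (hN : 1 ≤ N) (hP : 2 ≤ P) (hG : 1 ≤ G) (κ ω z : ℝ) (hκ : 0 < κ) (hω : 0 ≤ ω)
    (hz : ¬ Maj N κ z) :
    (((PP P).filter fun p => ∃ g ∈ Icc 1 G, p ∣ g ∧ nd (g * z) ≤ ω).card : ℝ) * Real.log P ≤
      (G / κ + 1) * (2 * ω * N / κ + 1) * Real.log G := by
  set Gs := (Icc 1 G).filter fun g : ℕ => nd (g * z) ≤ ω with hGs
  have hlP : 0 ≤ Real.log P := Real.log_natCast_nonneg P
  have hlG : 0 ≤ Real.log G := Real.log_natCast_nonneg G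
  have h1 : ((PP P).filter fun p => ∃ g ∈ Icc 1 G, p ∣ g ∧ nd (g * z) ≤ ω).card ≤
      ∑ g ∈ Gs, ((PP P).filter fun p => p ∣ g).card := by
    refine (Finset.card_le_card (t := Gs.biUnion fun g => (PP P).filter fun p => p ∣ g) ?_).trans
      Finset.card_biUnion_le
    intro p hp
    simp only [Finset.mem_filter] at hp
    obtain ⟨hp1, g, hg, hpg, hgz⟩ := hp
    rw [mem_biUnion]
    exact ⟨g, mem_filter.2 ⟨hg, hgz⟩, mem_filter.2 ⟨hp1, hpg⟩⟩
  have h2 : (((PP P).filter fun p => ∃ g ∈ Icc 1 G, p ∣ g ∧ nd (g * z) ≤ ω).card : ℝ) ≤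
      ∑ g ∈ Gs, (((PP P).filter fun p => p ∣ g).card : ℝ) := by
    exact_mod_cast h1
  calc (((PP P).filter fun p => ∃ g ∈ Icc 1 G, p ∣ g ∧ nd (g * z) ≤ ω).card : ℝ) * Real.log P
      ≤ (∑ g ∈ Gs, (((PP P).filter fun p => p ∣ g).card : ℝ)) * Real.log P :=
        mul_le_mul_of_nonneg_right h2 hlP
    _ = ∑ g ∈ Gs, (((PP P).filter fun p => p ∣ g).card : ℝ) * Real.log P := Finset.sum_mul _ _ _
    _ ≤ ∑ g ∈ Gs, Real.log G := by
        refine Finset.sum_le_sum fun g hg => ?_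
        rw [hGs, mem_filter, mem_Icc] at hg
        refine (card_primes_dvd P g hP hg.1.1).trans ?_
        refine Real.log_le_log ?_ ?_
        · have : 0 < g := hg.1.1
          exact_mod_cast this
        · exact_mod_cast hg.1.2
    _ = (Gs.card : ℝ) * Real.log G := by rw [Finset.sum_const, nsmul_eq_mul]
    _ ≤ (G / κ + 1) * (2 * ω * N / κ + 1) * Real.log G :=
        mul_le_mul_of_nonneg_right (card_near N G hN κ ω z hκ hω hz) hlG

end Pool.Agent.Lib.MP_6cded1_nt.ML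
end
end

section

section

/-!
# Points in a short interval

`cell_count`: `i / N ≤ z i < (i+1) / N` and `|z i - x| ≤ 2^j / N` give `N x - 2^j - 1 < i ≤ N x + 2^j`, an interval of length `2 * 2^j + 1`: at most `2 * 2^j + 2 ≤ 4 * 2^j` integers.
`cc_le`: at most `g + 1 ≤ 2 g` numerators, `4 * 2^j` points each.
-/

set_option autoImplicit false

open Finset Pool.Agent.Lib.MP_6cded1_nt.ML

namespace Pool.Agent.Lib.MP_6cded1_nt.M3

open Classical in
theorem cell_count (N : ℕ) (hN : 1 ≤ N) (A : Finset ℕ) (z : ℕ → ℝ) (hz : InCell N A z) (x : ℝ) (j : ℕ) :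
    ((A.filter fun i => |z i - x| ≤ 2 ^ j / N).card : ℝ) ≤ 4 * 2 ^ j := by
  have hNR : (0 : ℝ) < N := by exact_mod_cast hN
  set u : ℤ := ⌊(N : ℝ) * x - 2 ^ j - 1⌋ with hu
  set v : ℤ := ⌊(N : ℝ) * x + 2 ^ j⌋ with hv
  have hsub : (A.filter fun i => |z i - x| ≤ 2 ^ j / N).image (fun i : ℕ => (i : ℤ)) ⊆ Ioc u v := by
    intro t ht
    obtain ⟨i, hi, rfl⟩ := Finset.mem_image.mp ht
    obtain ⟨hiA, hix⟩ := Finset.mem_filter.mp hi
    obtain ⟨-, h1, h2⟩ := hz i hiA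
    rw [div_le_iff₀ hNR] at h1
    rw [lt_div_iff₀ hNR] at h2
    obtain ⟨h3, h4⟩ := abs_le.mp hix
    have h5 : z i * N - x * N ≤ 2 ^ j := by
      have := mul_le_mul_of_nonneg_right h4 hNR.le
      rw [div_mul_cancel₀ _ hNR.ne'] at this
      linarith
    have h6 : -(2 : ℝ) ^ j ≤ z i * N - x * N := by
      have := mul_le_mul_of_nonneg_right h3 hNR.le
      rw [neg_mul, div_mul_cancel₀ _ hNR.ne'] at this
      linarith
    rw [Finset.mem_Ioc]
    constructor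
    · rw [hu, Int.floor_lt]
      push_cast
      linarith
    · rw [hv, Int.le_floor]
      push_cast
      linarith
  have hcard := Finset.card_le_card hsub
  rw [Finset.card_image_of_injective _ Nat.cast_injective, Int.card_Ioc] at hcard
  have huv : (v - u : ℤ) ≤ 2 * 2 ^ j + 2 := by
    have h1 : (v : ℝ) ≤ (N : ℝ) * x + 2 ^ j := Int.floor_le _
    have h2 : (N : ℝ) * x - 2 ^ j - 1 < (u : ℝ) + 1 := Int.lt_floor_add_one _
    have h3 : ((v - u : ℤ) : ℝ) < ((2 * 2 ^ j + 2 + 1 : ℤ) : ℝ) := by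
      push_cast
      linarith
    have h4 : (v - u : ℤ) < 2 * 2 ^ j + 2 + 1 := by exact_mod_cast h3
    omega
  have hfin : (A.filter fun i => |z i - x| ≤ 2 ^ j / N).card ≤ 4 * 2 ^ j := by
    have h1 : 1 ≤ 2 ^ j := Nat.one_le_two_pow
    have h2 : (v - u).toNat ≤ 2 * 2 ^ j + 2 := by
      rw [Int.toNat_le]
      push_cast
      exact huv
    omega
  exact_mod_cast hfin

theorem cc_le (N : ℕ) (hN : 1 ≤ N) (A : Finset ℕ) (z : ℕ → ℝ) (hz : InCell N A z) (g j : ℕ) (hg : 1 ≤ g) :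
    (cc N A z g j : ℝ) ≤ 8 * ((g : ℝ) * 2 ^ j) := by
  classical
  have hsub : (A.filter fun i => Cst N g j (z i)) ⊆
      (range (g + 1)).biUnion fun a => A.filter fun i => |z i - (a : ℝ) / g| ≤ 2 ^ j / N := by
    intro i hi
    obtain ⟨hiA, a, hag, -, ha⟩ := Finset.mem_filter.mp hi
    exact Finset.mem_biUnion.mpr ⟨a, Finset.mem_range.mpr (by omega),
      Finset.mem_filter.mpr ⟨hiA, ha⟩⟩
  have h1 : cc N A z g j ≤ ∑ a ∈ range (g + 1),
      (A.filter fun i => |z i - (a : ℝ) / g| ≤ 2 ^ j / N).card := by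
    have := (Finset.card_le_card hsub).trans Finset.card_biUnion_le
    unfold cc
    convert this
  have h2 : (cc N A z g j : ℝ) ≤ ∑ a ∈ range (g + 1),
      ((A.filter fun i => |z i - (a : ℝ) / g| ≤ 2 ^ j / N).card : ℝ) := by
    exact_mod_cast h1
  have h3 : ∑ a ∈ range (g + 1),
      ((A.filter fun i => |z i - (a : ℝ) / g| ≤ 2 ^ j / N).card : ℝ) ≤
      ∑ _a ∈ range (g + 1), (4 * 2 ^ j : ℝ) := by
    refine Finset.sum_le_sum fun a _ => ?_
    have := cell_count N hN A z hz ((a : ℝ) / g) j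
    convert this
  rw [Finset.sum_const, Finset.card_range, nsmul_eq_mul] at h3
  have h4 : (1 : ℝ) ≤ g := by exact_mod_cast hg
  have h5 : (0 : ℝ) < 2 ^ j := by positivity
  push_cast at h3
  nlinarith

end Pool.Agent.Lib.MP_6cded1_nt.M3
end

section

/-!
# Farey spacing

For every `g` of the set choose a numerator `a_g` (`Nat.Coprime a_g g`, `|x - a_g/g| ≤ δ := 2^j / N`).  For `g ≠ g'` the fractions are different (both reduced) and `|a_g/g - a_g'/g'| ≥ 1/(g g') > 1/4^(k+1)`.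
All lie in an interval of length `2 δ`; `m` points with distances `≥ d := 1/4^(k+1)` in an interval of length `2δ` satisfy `(m - 1) d ≤ 2 δ` (for instance: the map `g ↦ ⌊(a_g/g - (x - δ)) / d⌋₊` is injective into `range (⌊2δ/d⌋₊ + 1)`).  So `m ≤ 1 + 2 δ 4^(k+1) = 1 + 8 * 2^j * 4^k / N`.
-/

set_option autoImplicit false

open Finset Pool.Agent.Lib.MP_6cded1_nt.ML

namespace Pool.Agent.Lib.MP_6cded1_nt.M3

open Classical in
theorem farey_block (N k j : ℕ) (hN : 1 ≤ N) (x : ℝ) :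
    (((Ico (2 ^ k) (2 ^ (k + 1))).filter fun g => Cst N g j x).card : ℝ) ≤ 1 + 8 * 2 ^ j * 4 ^ k / N := by
  classical
  have hNpos : (0 : ℝ) < N := by exact_mod_cast hN
  set F := (Ico (2 ^ k) (2 ^ (k + 1))).filter fun g => Cst N g j x with hF
  set δ : ℝ := 2 ^ j / N with hδ
  set d : ℝ := 1 / 4 ^ (k + 1) with hd
  have hd0 : 0 < d := by rw [hd]; positivity
  have hδ0 : 0 ≤ δ := by rw [hδ]; positivity
  have hch : ∀ g : ℕ, ∃ a : ℕ, g ∈ F → (Nat.Coprime a g ∧ |x - a / g| ≤ δ) := by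
    intro g
    by_cases hg : g ∈ F
    · obtain ⟨a, _, h2, h3⟩ := (Finset.mem_filter.1 hg).2
      exact ⟨a, fun _ => ⟨h2, h3⟩⟩
    · exact ⟨0, fun h => absurd h hg⟩
  choose a ha using hch
  have hcard : F.card ≤ (Finset.range (⌊2 * δ / d⌋₊ + 1)).card := by
    refine Finset.card_le_card_of_injOn (fun g => ⌊((a g : ℝ) / g - (x - δ)) / d⌋₊) ?_ ?_
    · intro g hg
      have h1 := (ha g hg).2
      have h2 := abs_le.1 h1
      simp only [Finset.coe_range, Set.mem_Iio]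
      refine Nat.lt_succ_of_le (Nat.floor_le_floor ?_)
      apply div_le_div_of_nonneg_right _ hd0.le
      linarith [h2.1]
    · intro g hg g' hg' hfl
      have h1 := abs_le.1 (ha g hg).2
      have h2 := abs_le.1 (ha g' hg').2
      have hc1 := (ha g hg).1
      have hc2 := (ha g' hg').1
      have hm1 := Finset.mem_Ico.1 (Finset.mem_filter.1 hg).1
      have hm2 := Finset.mem_Ico.1 (Finset.mem_filter.1 hg').1
      simp only at hfl
      have p1 : 0 ≤ ((a g : ℝ) / g - (x - δ)) / d := div_nonneg (by linarith) hd0.le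
      have p2 : 0 ≤ ((a g' : ℝ) / g' - (x - δ)) / d := div_nonneg (by linarith) hd0.le
      have f1 := Nat.floor_le p1
      have f2 := Nat.lt_floor_add_one (((a g : ℝ) / g - (x - δ)) / d)
      have f3 := Nat.floor_le p2
      have f4 := Nat.lt_floor_add_one (((a g' : ℝ) / g' - (x - δ)) / d)
      rw [hfl] at f1 f2
      have hdiff : |((a g : ℝ) / g - (x - δ)) / d - ((a g' : ℝ) / g' - (x - δ)) / d| < 1 := by
        rw [abs_lt]; constructor <;> linarith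
      have hdiff2 : |(a g : ℝ) / g - (a g' : ℝ) / g'| < d := by
        have e : ((a g : ℝ) / g - (x - δ)) / d - ((a g' : ℝ) / g' - (x - δ)) / d
            = ((a g : ℝ) / g - (a g' : ℝ) / g') / d := by ring
        rw [e, abs_div, abs_of_pos hd0, div_lt_one hd0] at hdiff
        exact hdiff
      have hg0 : (0 : ℝ) < g := by
        have : 0 < g := lt_of_lt_of_le (by positivity) hm1.1
        exact_mod_cast this
      have hg0' : (0 : ℝ) < g' := by
        have : 0 < g' := lt_of_lt_of_le (by positivity) hm2.1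
        exact_mod_cast this
      have hgu : (g : ℝ) < 2 ^ (k + 1) := by exact_mod_cast hm1.2
      have hgu' : (g' : ℝ) < 2 ^ (k + 1) := by exact_mod_cast hm2.2
      have hprod : (g : ℝ) * g' < 4 ^ (k + 1) := by
        have e : (4 : ℝ) ^ (k + 1) = 2 ^ (k + 1) * 2 ^ (k + 1) := by
          rw [← mul_pow]; norm_num
        rw [e]
        exact mul_lt_mul'' hgu hgu' hg0.le hg0'.le
      have hlt : |(a g : ℝ) * g' - a g' * g| < 1 := by
        have e : (a g : ℝ) * g' - a g' * g = ((a g : ℝ) / g - (a g' : ℝ) / g') * (g * g') := by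
          field_simp
        rw [e, abs_mul, abs_of_pos (mul_pos hg0 hg0')]
        calc |(a g : ℝ) / g - (a g' : ℝ) / g'| * (g * g') < d * 4 ^ (k + 1) :=
              mul_lt_mul'' hdiff2 hprod (abs_nonneg _) (by positivity)
          _ = 1 := by rw [hd]; field_simp
      have hz : (a g : ℤ) * g' - a g' * g = 0 := by
        have : |((a g : ℤ) * g' - a g' * g : ℤ)| < 1 := by
          have h : ((|((a g : ℤ) * g' - a g' * g : ℤ)| : ℤ) : ℝ) < ((1 : ℤ) : ℝ) := by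
            push_cast
            exact hlt
          exact_mod_cast h
        exact Int.abs_lt_one_iff.1 this
      have hz' : a g * g' = a g' * g := by
        have : (a g : ℤ) * g' = a g' * g := by linarith
        exact_mod_cast this
      apply Nat.dvd_antisymm
      · have : g ∣ a g * g' := by rw [hz']; exact Dvd.intro_left _ rfl
        exact (Nat.Coprime.dvd_of_dvd_mul_left hc1.symm this)
      · have : g' ∣ a g' * g := by rw [← hz']; exact Dvd.intro_left _ rfl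
        exact (Nat.Coprime.dvd_of_dvd_mul_left hc2.symm this)
  rw [Finset.card_range] at hcard
  have h3 : ((F.card : ℕ) : ℝ) ≤ (⌊2 * δ / d⌋₊ : ℝ) + 1 := by exact_mod_cast hcard
  have h4 : (⌊2 * δ / d⌋₊ : ℝ) ≤ 2 * δ / d := Nat.floor_le (by positivity)
  have h5 : 2 * δ / d = 8 * 2 ^ j * 4 ^ k / N := by
    rw [hδ, hd, pow_succ (4 : ℝ) k]
    field_simp
    ring
  rw [h5] at h4 h3
  linarith

end Pool.Agent.Lib.MP_6cded1_nt.M3
end

section

/-!
# Numerical inequalities 1: regime I parameters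

All by `Nat.floor_le`, `Nat.lt_floor_add_one`, `Nat.div_mul_le_self` and `pow_log_le` (or `tendsto_rpow_atTop`).  `x / 2 ≤ ⌊x⌋₊` for `x ≥ 1`.
`M ≤ N / (4 D) ≤ N^{0.5414} / 2`; `Dn ^ 2 ≤ N^{0.9172} ≤ N`; `256 P1^4 ≤ 256 N^{0.4416} ≤ N^{0.4586} / 2 ≤ Dn`; `1 / (T + 1) ≤ N^{-0.4864}` since `T + 1 > N^{0.4864}`.
-/

set_option autoImplicit false

open Finset

namespace Pool.Agent.Lib.MP_6cded1_nt.ML

private theorem half_le_floor_Num1 (x : ℝ) (hx : 1 ≤ x) : x / 2 ≤ (⌊x⌋₊ : ℝ) := by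
  have h1 : x < (⌊x⌋₊ : ℝ) + 1 := Nat.lt_floor_add_one x
  have h2 : (1 : ℝ) ≤ (⌊x⌋₊ : ℝ) := by
    have : 1 ≤ ⌊x⌋₊ := Nat.one_le_floor_iff x |>.2 hx
    exact_mod_cast this
  linarith

theorem num_basic : ∃ N₀ : ℕ, ∀ N : ℕ, N₀ ≤ N →
    1 ≤ Dn N ∧ Dn N ^ 2 ≤ N ∧ 4 * Dn N * Mn N ≤ N ∧ 1 ≤ Mn N ∧
    (N : ℝ) ^ (0.4586 : ℝ) / 2 ≤ Dn N ∧ (Dn N : ℝ) ≤ (N : ℝ) ^ (0.4586 : ℝ) ∧
    (Mn N : ℝ) ≤ (N : ℝ) ^ (0.5414 : ℝ) / 2 ∧
    2 ≤ P1 N ∧ 4 * P1 N ≤ N ∧ 256 * P1 N ^ 4 ≤ Dn N ∧ (N : ℝ) ^ (0.1104 : ℝ) / 2 ≤ P1 N ∧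
    1 ≤ Tn N ∧ Tn N ≤ N ∧ (Tn N : ℝ) ≤ (N : ℝ) ^ (0.4864 : ℝ) ∧ 1 / ((Tn N : ℝ) + 1) ≤ omn N ∧ 0 < omn N ∧
    1 ≤ Gn N ∧ (N : ℝ) ^ (0.5136 : ℝ) / 2 ≤ Gn N ∧ (Gn N : ℝ) ≤ (N : ℝ) ^ (0.5136 : ℝ) ∧
    1 ≤ tn N ∧ tn N ≤ N := by
  obtain ⟨N1, hN1⟩ := pow_log_le 2 0 0 (0.1104 : ℝ) (by norm_num)
  obtain ⟨N2, hN2⟩ := pow_log_le 4 0 (0.1104 : ℝ) 1 (by norm_num)
  obtain ⟨N3, hN3⟩ := pow_log_le 4 0 (0.4586 : ℝ) 1 (by norm_num)
  obtain ⟨N4, hN4⟩ := pow_log_le 512 0 (0.4416 : ℝ) (0.4586 : ℝ) (by norm_num)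
  refine ⟨max 1 (max (max N1 N2) (max N3 N4)), fun N hN => ?_⟩
  have hN1' : 1 ≤ N := le_trans (le_max_left _ _) hN
  have hN' : max (max N1 N2) (max N3 N4) ≤ N := le_trans (le_max_right _ _) hN
  have a1 := hN1 N (le_trans (le_trans (le_max_left _ _) (le_max_left _ _)) hN')
  have a2 := hN2 N (le_trans (le_trans (le_max_right _ _) (le_max_left _ _)) hN')
  have a3 := hN3 N (le_trans (le_trans (le_max_left _ _) (le_max_right _ _)) hN')
  have a4 := hN4 N (le_trans (le_trans (le_max_right _ _) (le_max_right _ _)) hN')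
  simp only [pow_zero, mul_one, Real.rpow_zero, Real.rpow_one] at a1 a2 a3 a4
  have hX : (1 : ℝ) ≤ N := by exact_mod_cast hN1'
  have hX0 : (0 : ℝ) < N := by linarith
  have hge : ∀ a : ℝ, 0 ≤ a → 1 ≤ (N : ℝ) ^ a := fun a ha => Real.one_le_rpow hX ha
  have hle : ∀ a : ℝ, a ≤ 1 → (N : ℝ) ^ a ≤ N := fun a ha => by
    calc (N : ℝ) ^ a ≤ (N : ℝ) ^ (1 : ℝ) := Real.rpow_le_rpow_of_exponent_le hX ha
      _ = N := Real.rpow_one _
  have hpos : ∀ a : ℝ, 0 < (N : ℝ) ^ a := fun a => Real.rpow_pos_of_pos hX0 a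
  have hDhi : (Dn N : ℝ) ≤ (N : ℝ) ^ (0.4586 : ℝ) := Nat.floor_le (hpos _).le
  have hDlo : (N : ℝ) ^ (0.4586 : ℝ) / 2 ≤ Dn N :=
    half_le_floor_Num1 _ (hge _ (by norm_num))
  have hD1 : 1 ≤ Dn N := (Nat.one_le_floor_iff _).2 (hge _ (by norm_num))
  have hPhi : (P1 N : ℝ) ≤ (N : ℝ) ^ (0.1104 : ℝ) := Nat.floor_le (hpos _).le
  have hPlo : (N : ℝ) ^ (0.1104 : ℝ) / 2 ≤ P1 N :=
    half_le_floor_Num1 _ (hge _ (by norm_num))
  have hThi : (Tn N : ℝ) ≤ (N : ℝ) ^ (0.4864 : ℝ) := Nat.floor_le (hpos _).le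
  have hGhi : (Gn N : ℝ) ≤ (N : ℝ) ^ (0.5136 : ℝ) := Nat.floor_le (hpos _).le
  have hGlo : (N : ℝ) ^ (0.5136 : ℝ) / 2 ≤ Gn N :=
    half_le_floor_Num1 _ (hge _ (by norm_num))
  refine ⟨hD1, ?_, ?_, ?_, hDlo, hDhi, ?_, ?_, ?_, ?_, hPlo, ?_, ?_, hThi, ?_, ?_, ?_, hGlo, hGhi,
    ?_, ?_⟩
  · have h1 : ((Dn N : ℝ)) ^ 2 ≤ N := by
      calc ((Dn N : ℝ)) ^ 2 ≤ ((N : ℝ) ^ (0.4586 : ℝ)) ^ 2 :=
            pow_le_pow_left₀ (Nat.cast_nonneg _) hDhi 2
        _ = (N : ℝ) ^ (0.9172 : ℝ) := by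
            rw [← Real.rpow_natCast, ← Real.rpow_mul hX0.le]
            norm_num
        _ ≤ N := hle _ (by norm_num)
    exact_mod_cast h1
  · exact Nat.mul_div_le N (4 * Dn N)
  · have h1 : 4 * Dn N ≤ N := by
      have : (4 : ℝ) * Dn N ≤ N := le_trans (mul_le_mul_of_nonneg_left hDhi (by norm_num)) a3
      exact_mod_cast this
    exact (Nat.one_le_div_iff (by omega)).2 h1
  · have h1 : (Mn N : ℝ) ≤ (N : ℝ) / ((4 * Dn N : ℕ) : ℝ) := Nat.cast_div_le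
    refine h1.trans ?_
    push_cast
    have hD0 : (0 : ℝ) < Dn N := by exact_mod_cast hD1
    rw [div_le_iff₀ (by positivity)]
    have h2 : (N : ℝ) = (N : ℝ) ^ (0.5414 : ℝ) * (N : ℝ) ^ (0.4586 : ℝ) := by
      rw [← Real.rpow_add hX0]
      norm_num
    have h3 := mul_le_mul_of_nonneg_left hDlo (hpos (0.5414 : ℝ)).le
    nlinarith [h2, h3]
  · exact Nat.le_floor (by exact_mod_cast a1)
  · have : (4 : ℝ) * P1 N ≤ N := le_trans (mul_le_mul_of_nonneg_left hPhi (by norm_num)) a2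
    exact_mod_cast this
  · have h1 : (256 : ℝ) * (P1 N : ℝ) ^ 4 ≤ Dn N := by
      have h2 : (P1 N : ℝ) ^ 4 ≤ (N : ℝ) ^ (0.4416 : ℝ) := by
        calc (P1 N : ℝ) ^ 4 ≤ ((N : ℝ) ^ (0.1104 : ℝ)) ^ 4 :=
              pow_le_pow_left₀ (Nat.cast_nonneg _) hPhi 4
          _ = (N : ℝ) ^ (0.4416 : ℝ) := by
              rw [← Real.rpow_natCast, ← Real.rpow_mul hX0.le]
              norm_num
      linarith
    exact_mod_cast h1
  · exact (Nat.one_le_floor_iff _).2 (hge _ (by norm_num))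
  · have h1 : (Tn N : ℝ) ≤ N := hThi.trans (hle _ (by norm_num))
    exact_mod_cast h1
  · have h1 : (N : ℝ) ^ (0.4864 : ℝ) < (Tn N : ℝ) + 1 := Nat.lt_floor_add_one _
    unfold omn
    rw [show (-0.4864 : ℝ) = -(0.4864 : ℝ) by norm_num, Real.rpow_neg hX0.le, ← one_div]
    exact one_div_le_one_div_of_le (hpos _) h1.le
  · exact hpos _
  · exact (Nat.one_le_floor_iff _).2 (hge _ (by norm_num))
  · exact hge _ (by norm_num)
  · exact hle _ (by norm_num)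

end Pool.Agent.Lib.MP_6cded1_nt.ML
end

section

/-!
# Weighted number of clusters through a point

Cut `[1, 2M - 1]` into blocks `[2^k, 2^(k+1))`, `2^k ≤ 2M - 1`, so `k ≤ Nat.log 2 (2M-1) ≤ Nat.log 2 N`: at most `JJ N` blocks.  In block `k` each term is `≤ min 1 (2M / (2^k 2^j))`, the number of terms is `≤ 1 + 8 * 2^j 4^k / N` (`farey_block`), and
`(1 + 8 * 2^j 4^k / N) min 1 (2M / 2^(k+j)) ≤ 1 + 16 M 2^k / N ≤ 1 + 32 M² / N`.
-/

set_option autoImplicit false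

open Finset Pool.Agent.Lib.MP_6cded1_nt.ML

namespace Pool.Agent.Lib.MP_6cded1_nt.M3

open Classical in
private theorem block_sum (N M j k : ℕ) (hN : 1 ≤ N) (hk : 2 ^ k ≤ 2 * M) (x : ℝ)
    (s : Finset ℕ) (hs : ∀ g ∈ s, 2 ^ k ≤ g ∧ g < 2 ^ (k + 1)) :
    ∑ g ∈ s, (if Cst N g j x then min 1 (2 * (M : ℝ) / ((g : ℝ) * 2 ^ j)) else 0)
      ≤ 1 + 32 * (M : ℝ) ^ 2 / N := by
  have hN0 : (0 : ℝ) < N := by exact_mod_cast hN
  have hM0 : (0 : ℝ) ≤ M := Nat.cast_nonneg M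
  set c : ℝ := min 1 (2 * (M : ℝ) / ((2 : ℝ) ^ k * 2 ^ j)) with hc
  have hc0 : 0 ≤ c := le_min zero_le_one (by positivity)
  have hkr : (2 : ℝ) ^ k ≤ 2 * M := by exact_mod_cast hk
  have h1 : ∑ g ∈ s, (if Cst N g j x then min 1 (2 * (M : ℝ) / ((g : ℝ) * 2 ^ j)) else 0)
      ≤ ∑ g ∈ (Ico (2 ^ k) (2 ^ (k + 1))).filter (fun g => Cst N g j x), c := by
    rw [← Finset.sum_filter]
    refine (Finset.sum_le_sum fun g hg => ?_ : _ ≤ ∑ g ∈ s.filter (fun g => Cst N g j x), c).trans ?_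
    · have hgs := hs g (Finset.mem_filter.1 hg).1
      rw [hc]
      refine min_le_min le_rfl ?_
      have h2 : (2 : ℝ) ^ k ≤ g := by exact_mod_cast hgs.1
      have h3 : (0 : ℝ) < 2 ^ k * 2 ^ j := by positivity
      exact div_le_div_of_nonneg_left (by positivity) h3
        (mul_le_mul_of_nonneg_right h2 (by positivity))
    · refine Finset.sum_le_sum_of_subset_of_nonneg ?_ fun _ _ _ => hc0
      intro g hg
      rw [Finset.mem_filter] at hg ⊢
      exact ⟨Finset.mem_Ico.2 (hs g hg.1), hg.2⟩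
  refine h1.trans ?_
  rw [Finset.sum_const, nsmul_eq_mul]
  have h4 := farey_block N k j hN x
  refine (mul_le_mul_of_nonneg_right h4 hc0).trans ?_
  have h5 : c ≤ 1 := min_le_left _ _
  have h6 : c ≤ 2 * (M : ℝ) / ((2 : ℝ) ^ k * 2 ^ j) := min_le_right _ _
  have h7 : 8 * (2 : ℝ) ^ j * 4 ^ k / N * c ≤ 16 * M * 2 ^ k / N := by
    have h8 : 0 ≤ 8 * (2 : ℝ) ^ j * 4 ^ k / N := by positivity
    refine (mul_le_mul_of_nonneg_left h6 h8).trans (le_of_eq ?_)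
    have h9 : (4 : ℝ) ^ k = 2 ^ k * 2 ^ k := by rw [← mul_pow]; norm_num
    rw [h9]
    field_simp
    ring
  have h10 : 16 * (M : ℝ) * 2 ^ k / N ≤ 32 * (M : ℝ) ^ 2 / N := by
    refine div_le_div_of_nonneg_right ?_ hN0.le
    nlinarith
  have h11 : (1 + 8 * (2 : ℝ) ^ j * 4 ^ k / N) * c = c + 8 * (2 : ℝ) ^ j * 4 ^ k / N * c := by ring
  rw [h11]
  linarith

open Classical in
theorem weight_sum (N M j : ℕ) (hM : 1 ≤ M) (hMN : 4 * M ≤ N) (x : ℝ) :
    ∑ g ∈ Icc 1 (2 * M - 1), (if Cst N g j x then min 1 (2 * (M : ℝ) / ((g : ℝ) * 2 ^ j)) else 0) ≤ TT N M := by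
  have hN : 1 ≤ N := by omega
  have hmap : ∀ g ∈ Icc 1 (2 * M - 1), Nat.log 2 g ∈ range (JJ N) := by
    intro g hg
    rw [Finset.mem_Icc] at hg
    rw [Finset.mem_range, JJ]
    have : Nat.log 2 g ≤ Nat.log 2 N := Nat.log_mono_right (by omega)
    omega
  rw [← Finset.sum_fiberwise_of_maps_to hmap]
  have hb : ∀ k ∈ range (JJ N), ∑ g ∈ (Icc 1 (2 * M - 1)).filter (fun g => Nat.log 2 g = k),
      (if Cst N g j x then min 1 (2 * (M : ℝ) / ((g : ℝ) * 2 ^ j)) else 0)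
      ≤ 1 + 32 * (M : ℝ) ^ 2 / N := by
    intro k _
    have hN0 : (0 : ℝ) < N := by exact_mod_cast hN
    by_cases hk : 2 ^ k ≤ 2 * M
    · refine block_sum N M j k hN hk x _ fun g hg => ?_
      rw [Finset.mem_filter, Finset.mem_Icc] at hg
      obtain ⟨⟨h1, _⟩, h2⟩ := hg
      subst h2
      exact ⟨Nat.pow_log_le_self 2 (by omega), Nat.lt_pow_succ_log_self (by norm_num) g⟩
    · have : (Icc 1 (2 * M - 1)).filter (fun g => Nat.log 2 g = k) = ∅ := by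
        rw [Finset.filter_eq_empty_iff]
        intro g hg h2
        rw [Finset.mem_Icc] at hg
        have := Nat.pow_log_le_self 2 (x := g) (by omega)
        rw [h2] at this
        omega
      rw [this, Finset.sum_empty]
      positivity
  refine (Finset.sum_le_sum hb).trans ?_
  rw [Finset.sum_const, Finset.card_range, nsmul_eq_mul, TT]

end Pool.Agent.Lib.MP_6cded1_nt.M3
end

section

/-!
# Numerical inequalities 3: regime II parameters

`H ∈ [τ, N]`.  `K ≥ 1`: `Dn ≥ 1` and `38 N² (1 + log N) / H² ≥ 38`.  `P ≥ N^{0.0002}` since `H ≥ τ`; `P ≤ N^{0.0002} H / τ + 1 ≤ 2 N^{0.0002} H / τ`.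
`K P² ≤ (38 N² (1 + log N) / H²) (4 N^{0.0004} H² / τ²) = V` (`2 + 0.0004 - 1.4866 = 0.5138`).  `4 P ≤ 8 N^{0.0002} N / τ = 8 N^{0.2569} ≤ N`.  `Q = N / (512 K P⁴)`.
`K / Q = 512 (K P²)² / N`.
-/

set_option autoImplicit false

open Finset

namespace Pool.Agent.Lib.MP_6cded1_nt.ML

theorem num_level : ∃ N₀ : ℕ, ∀ N : ℕ, N₀ ≤ N → ∀ H : ℝ, tn N ≤ H → H ≤ N →
    1 ≤ Kn N H ∧ Kn N H ≤ Dn N ∧ (N : ℝ) ^ (0.0002 : ℝ) ≤ Pn N H ∧ (Pn N H : ℝ) ≤ 2 * (N : ℝ) ^ (0.0002 : ℝ) * H / tn N ∧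
    Kn N H * Pn N H ^ 2 ≤ Vn N ∧ 4 * Pn N H ≤ N ∧ (Pn N H : ℝ) ≤ 2 * (N : ℝ) ^ (0.2569 : ℝ) ∧ 2 ≤ Pn N H ∧ 0 < Qn N H ∧
    512 * Kn N H * Pn N H ^ 4 * Qn N H ≤ N ∧
    Kn N H / Qn N H = 512 * (Kn N H * Pn N H ^ 2) ^ 2 / N := by
  obtain ⟨N₀, hN₀⟩ := pow_log_le 8 0 (0.2569 : ℝ) 1 (by norm_num)
  refine ⟨max N₀ 2, fun N hN H hH1 hH2 => ?_⟩
  have hN1 : N₀ ≤ N := le_trans (le_max_left _ _) hN
  have hN2 : 2 ≤ N := le_trans (le_max_right _ _) hN
  have hx2 : (2 : ℝ) ≤ N := by exact_mod_cast hN2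
  have hx1 : (1 : ℝ) < N := by linarith
  have hx0 : (0 : ℝ) < N := by linarith
  have hlog : 0 ≤ Real.log N := Real.log_nonneg hx1.le
  have hτ : 0 < tn N := Real.rpow_pos_of_pos hx0 _
  have hH : 0 < H := lt_of_lt_of_le hτ hH1
  have h8 := hN₀ N hN1
  rw [pow_zero, mul_one, Real.rpow_one] at h8
  -- K
  have hK1 : 1 ≤ Kn N H := by
    unfold Kn
    apply le_min
    · have h1 : 1 ≤ Dn N := by
        unfold Dn
        apply Nat.le_floor
        rw [Nat.cast_one]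
        exact Real.one_le_rpow hx1.le (by norm_num)
      exact_mod_cast h1
    · rw [le_div_iff₀ (by positivity)]
      have h1 : H ^ 2 ≤ (N : ℝ) ^ 2 := pow_le_pow_left₀ hH.le hH2 2
      have h2 : 0 ≤ (N : ℝ) ^ 2 * Real.log N := mul_nonneg (by positivity) hlog
      have h3 : 0 ≤ (N : ℝ) ^ 2 := by positivity
      nlinarith
  have hKD : Kn N H ≤ Dn N := min_le_left _ _
  have hK2 : Kn N H ≤ 38 * N ^ 2 * (1 + Real.log N) / H ^ 2 := min_le_right _ _
  have hK0 : 0 < Kn N H := by linarith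
  -- P
  set u : ℝ := (N : ℝ) ^ (0.0002 : ℝ) with hu
  have hu1 : 1 < u := Real.one_lt_rpow hx1 (by norm_num)
  have hy1 : u ≤ u * H / tn N := by
    rw [le_div_iff₀ hτ]
    exact mul_le_mul_of_nonneg_left hH1 (by linarith)
  have hP1 : u * H / tn N ≤ Pn N H := Nat.le_ceil _
  have hPu : u ≤ Pn N H := le_trans hy1 hP1
  have hP2 : (Pn N H : ℝ) ≤ 2 * u * H / tn N := by
    have h1 : (Pn N H : ℝ) < u * H / tn N + 1 := Nat.ceil_lt_add_one (show (0 : ℝ) ≤ u * H / tn N by linarith)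
    have h2 : 2 * u * H / tn N = 2 * (u * H / tn N) := by ring
    rw [h2]
    linarith
  have hP0 : (0 : ℝ) < Pn N H := by linarith
  have hPb : (Pn N H : ℝ) ≤ 2 * (N : ℝ) ^ (0.2569 : ℝ) := by
    refine le_trans hP2 ?_
    have h1 : 2 * u * H / tn N ≤ 2 * u * N / tn N := by
      apply div_le_div_of_nonneg_right _ hτ.le
      exact mul_le_mul_of_nonneg_left hH2 (by linarith)
    refine le_trans h1 (le_of_eq ?_)
    have h2 : u * N / tn N = (N : ℝ) ^ (0.2569 : ℝ) := by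
      rw [hu, tn, div_eq_iff (Real.rpow_pos_of_pos hx0 _).ne']
      rw [← Real.rpow_add hx0]
      nth_rewrite 2 [← Real.rpow_one (N : ℝ)]
      rw [← Real.rpow_add hx0]
      norm_num
    rw [← h2]
    ring
  have h2P : 2 ≤ Pn N H := by
    have h1 : (1 : ℝ) < Pn N H := by linarith
    have h2 : 1 < Pn N H := by exact_mod_cast h1
    omega
  have h4P : 4 * Pn N H ≤ N := by
    have h1 : ((4 * Pn N H : ℕ) : ℝ) ≤ N := by
      push_cast
      linarith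
    exact_mod_cast h1
  have hKP : Kn N H * Pn N H ^ 2 ≤ Vn N := by
    have h1 : (Pn N H : ℝ) ^ 2 ≤ (2 * u * H / tn N) ^ 2 := pow_le_pow_left₀ hP0.le hP2 2
    have h2 : Kn N H * (Pn N H : ℝ) ^ 2 ≤ (38 * N ^ 2 * (1 + Real.log N) / H ^ 2) * (2 * u * H / tn N) ^ 2 :=
      mul_le_mul hK2 h1 (by positivity) (by positivity)
    refine le_trans h2 (le_of_eq ?_)
    have h3 : (N : ℝ) ^ 2 * u ^ 2 / tn N ^ 2 = (N : ℝ) ^ (0.5138 : ℝ) := by
      rw [hu, tn, div_eq_iff (by positivity)]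
      rw [← Real.rpow_natCast, ← Real.rpow_natCast, ← Real.rpow_natCast, ← Real.rpow_mul hx0.le,
        ← Real.rpow_mul hx0.le, ← Real.rpow_add hx0, ← Real.rpow_add hx0]
      norm_num
    unfold Vn
    rw [← h3]
    field_simp
    ring
  have hQ : 0 < Qn N H := by
    unfold Qn
    positivity
  have hden : (512 * Kn N H * (Pn N H : ℝ) ^ 4) ≠ 0 := by positivity
  refine ⟨hK1, hKD, hPu, hP2, hKP, h4P, hPb, h2P, hQ, ?_, ?_⟩
  · unfold Qn
    rw [mul_div_cancel₀ _ hden]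
  · unfold Qn
    field_simp

end Pool.Agent.Lib.MP_6cded1_nt.ML
end

section

/-!
# Numerical inequalities 3: regime II parameters

`H ∈ [τ, N]`.  `K ≥ 1`: `Dn ≥ 1` and `38 N² (1 + log N) / H² ≥ 38`.  `P ≥ N^{0.0002}` since `H ≥ τ`; `P ≤ N^{0.0002} H / τ + 1 ≤ 2 N^{0.0002} H / τ`.
`K P² ≤ (38 N² (1 + log N) / H²) (4 N^{0.0004} H² / τ²) = V` (`2 + 0.0004 - 1.4866 = 0.5138`).  `4 P ≤ 8 N^{0.0002} N / τ = 8 N^{0.2569} ≤ N`.  `Q = N / (512 K P⁴)`.
`K / Q = 512 (K P²)² / N`.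
-/

set_option autoImplicit false

open Finset

namespace Pool.Agent.Lib.MP_6cded1_nt.ML

theorem num_V : ∃ N₀ : ℕ, ∀ N : ℕ, N₀ ≤ N → 32 * Vn N < N ∧ 1 ≤ Vn N := by
  obtain ⟨N₀, h⟩ := pow_log_le 5000 1 0.5138 1 (by norm_num)
  refine ⟨max N₀ 1, fun N hN => ?_⟩
  have hN0 : N₀ ≤ N := le_trans (le_max_left _ _) hN
  have hN1 : 1 ≤ N := le_trans (le_max_right _ _) hN
  have hNr : (1 : ℝ) ≤ N := by exact_mod_cast hN1
  have hl : 0 ≤ Real.log N := Real.log_nonneg hNr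
  have hp : (1 : ℝ) ≤ (N : ℝ) ^ (0.5138 : ℝ) := Real.one_le_rpow hNr (by norm_num)
  have hx : (1 : ℝ) ≤ (1 + Real.log N) * (N : ℝ) ^ (0.5138 : ℝ) := by nlinarith
  have h' := h N hN0
  rw [Real.rpow_one, pow_one] at h'
  unfold Vn
  constructor
  · nlinarith
  · nlinarith

end Pool.Agent.Lib.MP_6cded1_nt.ML
end

section

/-!
# Clusters are almost disjoint

Such `i` has numerators `a ≤ g`, `a' ≤ g'` coprime to `g`, `g'` with `|z i - a/g|, |z i - a'/g'| ≤ 2^j / N`.  `g ≠ g'`, both reduced, so `a g' ≠ a' g` (`Nat.Coprime` : `a/g = a'/g'` implies `g = g'`), and `|a g' - a' g| ≤ X := 2 g g' 2^j / N`.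
By `near_numerators` (`v = g`, `v' = g'`) there are at most `4 X` such `a`, and each has at most `4 * 2^j` points (`cell_count`): `16 X 2^j = 32 (g 2^j) (g' 2^j) / N`.
-/

set_option autoImplicit false

open Finset Pool.Agent.Lib.MP_6cded1_nt.ML

namespace Pool.Agent.Lib.MP_6cded1_nt.M3

open Classical in
theorem overlap (N : ℕ) (hN : 1 ≤ N) (A : Finset ℕ) (z : ℕ → ℝ) (hz : InCell N A z) (g g' j : ℕ) (hg : 1 ≤ g)
    (hg' : 1 ≤ g') (hne : g ≠ g') :
    ((A.filter fun i => Cst N g j (z i) ∧ Cst N g' j (z i)).card : ℝ) ≤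
      32 * ((g : ℝ) * 2 ^ j) * ((g' : ℝ) * 2 ^ j) / N := by
  have hN0 : (0 : ℝ) < N := by exact_mod_cast hN
  have hg0 : (0 : ℝ) < g := by exact_mod_cast hg
  have hg0' : (0 : ℝ) < g' := by exact_mod_cast hg'
  set T : Finset ℕ := (range (g + 1)).filter fun a => Nat.Coprime a g ∧ ∃ a' : ℕ, Nat.Coprime a' g' ∧
    ∃ x : ℝ, |x - a / g| ≤ 2 ^ j / N ∧ |x - a' / g'| ≤ 2 ^ j / N with hT
  set X : ℝ := 2 * g * g' * 2 ^ j / N with hX
  have hX0 : 0 ≤ X := by positivity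
  have hTcard : (T.card : ℝ) ≤ 4 * X := by
    have h1 := near_numerators g g' hg hg' X hX0 (T.map Nat.castEmbedding) ?_
    · rwa [card_map] at h1
    · intro B hB
      rw [mem_map] at hB
      obtain ⟨a, ha, rfl⟩ := hB
      rw [hT, mem_filter, mem_range] at ha
      obtain ⟨hag, hco, a', hco', x, hx, hx'⟩ := ha
      refine ⟨by simp, ?_, (a' : ℤ), ?_, ?_⟩
      · simp only [Nat.castEmbedding_apply]
        exact_mod_cast Nat.lt_succ_iff.1 hag
      · simp only [Nat.castEmbedding_apply]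
        intro h
        have h' : a * g' = a' * g := by exact_mod_cast h
        apply hne
        apply Nat.dvd_antisymm
        · have : g ∣ a * g' := ⟨a', by rw [h']; ring⟩
          exact (Nat.Coprime.dvd_mul_left hco.symm).1 this
        · have : g' ∣ a' * g := ⟨a, by rw [← h']; ring⟩
          exact (Nat.Coprime.dvd_mul_left hco'.symm).1 this
      · simp only [Nat.castEmbedding_apply]
        push_cast
        have h2 : |(a : ℝ) / g - a' / g'| ≤ 2 * (2 ^ j / N) := by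
          have h3 : (a : ℝ) / g - a' / g' = (x - a' / g') - (x - a / g) := by ring
          rw [h3]
          exact (abs_sub _ _).trans (by linarith)
        have h4 : (a : ℝ) * g' - a' * g = ((a : ℝ) / g - a' / g') * (g * g') := by
          field_simp
        rw [h4, abs_mul, abs_of_pos (mul_pos hg0 hg0')]
        calc |(a : ℝ) / g - a' / g'| * (g * g') ≤ (2 * (2 ^ j / N)) * (g * g') :=
              mul_le_mul_of_nonneg_right h2 (by positivity)
          _ = X := by rw [hX]; ring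
  have hsub : (A.filter fun i => Cst N g j (z i) ∧ Cst N g' j (z i)) ⊆
      T.biUnion fun a => A.filter fun i => |z i - a / g| ≤ 2 ^ j / N := by
    intro i hi
    rw [mem_filter] at hi
    obtain ⟨hiA, ⟨a, hag, hco, ha⟩, ⟨a', -, hco', ha'⟩⟩ := hi
    rw [mem_biUnion]
    refine ⟨a, ?_, mem_filter.2 ⟨hiA, ha⟩⟩
    rw [hT, mem_filter, mem_range]
    exact ⟨Nat.lt_succ_of_le hag, hco, a', hco', z i, ha, ha'⟩
  have h1 := (card_le_card hsub).trans card_biUnion_le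
  have h2 : ((A.filter fun i => Cst N g j (z i) ∧ Cst N g' j (z i)).card : ℝ) ≤
      ∑ a ∈ T, ((A.filter fun i => |z i - a / g| ≤ 2 ^ j / N).card : ℝ) := by exact_mod_cast h1
  have h3 : ∑ a ∈ T, ((A.filter fun i => |z i - a / g| ≤ 2 ^ j / N).card : ℝ) ≤ T.card • (4 * 2 ^ j : ℝ) :=
    Finset.sum_le_card_nsmul _ _ _ fun a _ => cell_count N hN A z hz _ j
  rw [nsmul_eq_mul] at h3
  calc ((A.filter fun i => Cst N g j (z i) ∧ Cst N g' j (z i)).card : ℝ)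
      ≤ (T.card : ℝ) * (4 * 2 ^ j) := h2.trans h3
    _ ≤ (4 * X) * (4 * 2 ^ j) := mul_le_mul_of_nonneg_right hTcard (by positivity)
    _ = 32 * ((g : ℝ) * 2 ^ j) * ((g' : ℝ) * 2 ^ j) / N := by rw [hX]; ring

end Pool.Agent.Lib.MP_6cded1_nt.M3
end

section

/-!
# Numerical inequalities 3: regime II parameters

`H ∈ [τ, N]`.  `K ≥ 1`: `Dn ≥ 1` and `38 N² (1 + log N) / H² ≥ 38`.  `P ≥ N^{0.0002}` since `H ≥ τ`; `P ≤ N^{0.0002} H / τ + 1 ≤ 2 N^{0.0002} H / τ`.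
`K P² ≤ (38 N² (1 + log N) / H²) (4 N^{0.0004} H² / τ²) = V` (`2 + 0.0004 - 1.4866 = 0.5138`).  `4 P ≤ 8 N^{0.0002} N / τ = 8 N^{0.2569} ≤ N`.  `Q = N / (512 K P⁴)`.
`K / Q = 512 (K P²)² / N`.
-/

set_option autoImplicit false

open Finset

namespace Pool.Agent.Lib.MP_6cded1_nt.ML

/-- the hypothesis `hH` of `hm_count` -/
theorem num_hm : ∃ N₀ : ℕ, ∀ N : ℕ, N₀ ≤ N → ∀ H : ℝ, tn N ≤ H → H ≤ N →
    8 * (N : ℝ) * Dn N * (Nat.log 2 (Mn N) + 1) + 32 * N * Dn N * Kn N H / Qn N H ≤ H ^ 2 / 2 := by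
  obtain ⟨N1, h1⟩ := num_basic
  obtain ⟨N2, h2⟩ := num_level
  obtain ⟨N3, h3⟩ := pow_log_le 64 1 1.4586 1.4866 (by norm_num)
  obtain ⟨N4, h4⟩ := pow_log_le (4 * (16384 * 152 ^ 2)) 2 1.4862 1.4866 (by norm_num)
  refine ⟨max (max N1 N2) (max (max N3 N4) 1), ?_⟩
  intro N hN H hH1 hH2
  have hN1 : N1 ≤ N := (le_max_left _ _).trans ((le_max_left _ _).trans hN)
  have hN2 : N2 ≤ N := (le_max_right _ _).trans ((le_max_left _ _).trans hN)
  have hN34 : max (max N3 N4) 1 ≤ N := (le_max_right _ _).trans hN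
  have hN3 : N3 ≤ N := (le_max_left _ _).trans ((le_max_left _ _).trans hN34)
  have hN4 : N4 ≤ N := (le_max_right _ _).trans ((le_max_left _ _).trans hN34)
  have hNge : 1 ≤ N := (le_max_right _ _).trans hN34
  have hN0 : (0 : ℝ) < N := by exact_mod_cast hNge
  have hN1' : (1 : ℝ) ≤ N := by exact_mod_cast hNge
  have hlog : 0 ≤ Real.log N := Real.log_nonneg hN1'
  obtain ⟨b1, -, b3, b4, -, b6, -⟩ := h1 N hN1
  obtain ⟨c1, -, -, -, c5, -, -, c8, -, -, c11⟩ := h2 N hN2 H hH1 hH2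
  have d3 := h3 N hN3
  have d4 := h4 N hN4
  -- the square of `H`
  have ht : tn N ^ 2 = (N : ℝ) ^ (1.4866 : ℝ) := by
    unfold tn
    rw [← Real.rpow_natCast, ← Real.rpow_mul hN0.le]
    norm_num
  have ht0 : 0 ≤ tn N := Real.rpow_nonneg hN0.le _
  have hHsq : (N : ℝ) ^ (1.4866 : ℝ) ≤ H ^ 2 := by
    rw [← ht]
    exact pow_le_pow_left₀ ht0 hH1 2
  -- the logarithm
  have hM : Mn N ≤ N := by
    calc Mn N ≤ 4 * Dn N * Mn N := Nat.le_mul_of_pos_left _ (by omega)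
      _ ≤ N := b3
  have hlogM : (Nat.log 2 (Mn N) : ℝ) ≤ 2 * Real.log N := by
    have e1 : 2 ^ Nat.log 2 (Mn N) ≤ N := (Nat.pow_log_le_self 2 (by omega)).trans hM
    have e2 : ((2 : ℝ)) ^ Nat.log 2 (Mn N) ≤ N := by exact_mod_cast e1
    have e3 := Real.log_le_log (by positivity) e2
    rw [Real.log_pow] at e3
    have e4 : (1 / 2 : ℝ) ≤ Real.log 2 := by
      have := Real.log_two_gt_d9
      linarith
    have e5 : (Nat.log 2 (Mn N) : ℝ) * (1 / 2) ≤ (Nat.log 2 (Mn N) : ℝ) * Real.log 2 :=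
      mul_le_mul_of_nonneg_left e4 (Nat.cast_nonneg _)
    linarith
  have hD0 : (0 : ℝ) ≤ Dn N := Nat.cast_nonneg _
  have t1 : 8 * (N : ℝ) * Dn N * (Nat.log 2 (Mn N) + 1) ≤ H ^ 2 / 4 := by
    have e1 : 8 * (N : ℝ) * Dn N ≤ 8 * (N : ℝ) * (N : ℝ) ^ (0.4586 : ℝ) :=
      mul_le_mul_of_nonneg_left b6 (by positivity)
    have e2 : (Nat.log 2 (Mn N) + 1 : ℝ) ≤ 2 * (1 + Real.log N) := by linarith
    have e3 : 8 * (N : ℝ) * Dn N * (Nat.log 2 (Mn N) + 1) ≤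
        8 * (N : ℝ) * (N : ℝ) ^ (0.4586 : ℝ) * (2 * (1 + Real.log N)) :=
      mul_le_mul e1 e2 (by positivity) (by positivity)
    have e4 : (N : ℝ) * (N : ℝ) ^ (0.4586 : ℝ) = (N : ℝ) ^ (1.4586 : ℝ) := by
      conv_lhs => rw [← Real.rpow_one (N : ℝ)]
      rw [← Real.rpow_mul hN0.le, ← Real.rpow_add hN0]
      norm_num
    have e5 : 8 * (N : ℝ) * (N : ℝ) ^ (0.4586 : ℝ) * (2 * (1 + Real.log N)) =
        (64 * (1 + Real.log N) ^ 1 * (N : ℝ) ^ (1.4586 : ℝ)) / 4 := by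
      rw [← e4]
      ring
    rw [e5] at e3
    linarith
  have t2 : 32 * (N : ℝ) * Dn N * Kn N H / Qn N H ≤ H ^ 2 / 4 := by
    have e1 : 32 * (N : ℝ) * Dn N * Kn N H / Qn N H = 16384 * Dn N * (Kn N H * Pn N H ^ 2) ^ 2 := by
      rw [mul_div_assoc, c11]
      field_simp
      norm_num
    rw [e1]
    have e2 : (Kn N H * Pn N H ^ 2) ^ 2 ≤ Vn N ^ 2 := by
      apply pow_le_pow_left₀ _ c5
      have : 0 ≤ Kn N H := by linarith
      positivity
    have e3 : 16384 * (Dn N : ℝ) ≤ 16384 * (N : ℝ) ^ (0.4586 : ℝ) :=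
      mul_le_mul_of_nonneg_left b6 (by norm_num)
    have e4 : 16384 * (Dn N : ℝ) * (Kn N H * Pn N H ^ 2) ^ 2 ≤
        16384 * (N : ℝ) ^ (0.4586 : ℝ) * Vn N ^ 2 :=
      mul_le_mul e3 e2 (by positivity) (by positivity)
    have e5 : 16384 * (N : ℝ) ^ (0.4586 : ℝ) * Vn N ^ 2 =
        (4 * (16384 * 152 ^ 2) * (1 + Real.log N) ^ 2 * (N : ℝ) ^ (1.4862 : ℝ)) / 4 := by
      unfold Vn
      have f1 : ((N : ℝ) ^ (0.5138 : ℝ)) ^ 2 = (N : ℝ) ^ (1.0276 : ℝ) := by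
        rw [← Real.rpow_natCast, ← Real.rpow_mul hN0.le]
        norm_num
      have f2 : (N : ℝ) ^ (0.4586 : ℝ) * (N : ℝ) ^ (1.0276 : ℝ) = (N : ℝ) ^ (1.4862 : ℝ) := by
        rw [← Real.rpow_add hN0]
        norm_num
      rw [← f2, ← f1]
      ring
    rw [e5] at e4
    linarith
  linarith

end Pool.Agent.Lib.MP_6cded1_nt.ML
end

section

/-!
# Umbrella file
-/
end

section

/-!
# Numerical inequalities 4: the number of denominators, large primes, primes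

`num_Y`: `J ≤ 4 N² dm (1 + log K) / (Q H²)`, `Q = N / (512 K P⁴)`: `J ≤ 2048 N dm (1 + log N) (K P²) (P / H)² ≤ 2048 N dm (1 + log N) V * 4 N^{0.0004} / τ²`; exponent `1 + 0.5138 + 0.0004 - 1.4866 = 0.0276`, `dm = N^{0.0001}`.
`num_C2`: `card_primes_dvd` (in `Bad2`): `card * log P ≤ log q ≤ log N` and `log P ≥ 0.0002 log N`, so `card ≤ 5000`.
`num_PP`: `card_PP_ge` (as `P ≥ N^{0.0002} ≥ P₀`) and `log (4 P) ≤ log N`: `card (PP P) ≥ P / log N`.
`num_tau`: `4 H * 5 * 5001 * log N / P ≤ 100020 (log N) τ N^{-0.0002} ≤ τ`.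
-/

set_option autoImplicit false

open Finset

namespace Pool.Agent.Lib.MP_6cded1_nt.ML

theorem num_Y : ∃ N₀ : ℕ, ∀ N : ℕ, N₀ ≤ N → ∀ H : ℝ, tn N ≤ H → H ≤ N → ∀ J : ℝ, 0 ≤ J →
    J * Qn N H * H ^ 2 ≤ 4 * (N : ℝ) ^ 2 * (N : ℝ) ^ (0.0001 : ℝ) * (1 + Real.log (Kn N H)) →
    J ≤ (N : ℝ) ^ (0.0279 : ℝ) := by
  obtain ⟨N1, h1⟩ := num_basic
  obtain ⟨N2, h2⟩ := num_level
  obtain ⟨N3, h3⟩ := pow_log_le (8192 * 152) 2 0.0277 0.0279 (by norm_num)
  refine ⟨max (max N1 N2) (max N3 1), ?_⟩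
  intro N hN H hH1 hH2 J hJ hmain
  have hN1 : N1 ≤ N := (le_max_left _ _).trans ((le_max_left _ _).trans hN)
  have hN2 : N2 ≤ N := (le_max_right _ _).trans ((le_max_left _ _).trans hN)
  have hN34 : max N3 1 ≤ N := (le_max_right _ _).trans hN
  have hN3 : N3 ≤ N := (le_max_left _ _).trans hN34
  have hNge : 1 ≤ N := (le_max_right _ _).trans hN34
  have hN0 : (0 : ℝ) < N := by exact_mod_cast hNge
  have hN1' : (1 : ℝ) ≤ N := by exact_mod_cast hNge
  have hlog : 0 ≤ Real.log N := Real.log_nonneg hN1'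
  obtain ⟨b1, b2, -, -, -, b6, -⟩ := h1 N hN1
  obtain ⟨c1, c2, -, c4, c5, -, -, c8, c9, -, -⟩ := h2 N hN2 H hH1 hH2
  have d3 := h3 N hN3
  have hK0 : 0 < Kn N H := by linarith
  have hτ : 0 < tn N := Real.rpow_pos_of_pos hN0 _
  have hH : 0 < H := lt_of_lt_of_le hτ hH1
  have hP0 : (0 : ℝ) < Pn N H := by
    have : 0 < Pn N H := by omega
    exact_mod_cast this
  have hV0 : 0 ≤ Vn N := by unfold Vn; positivity
  have hKN : Kn N H ≤ N := by
    have e1 : Dn N ≤ N := by nlinarith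
    exact c2.trans (by exact_mod_cast e1)
  have hlogK : Real.log (Kn N H) ≤ Real.log N := Real.log_le_log hK0 hKN
  have hlogK0 : 0 ≤ Real.log (Kn N H) := Real.log_nonneg c1
  have hdm : 0 < (N : ℝ) ^ (0.0001 : ℝ) := Real.rpow_pos_of_pos hN0 _
  have hu0 : 0 < (N : ℝ) ^ (0.0002 : ℝ) := Real.rpow_pos_of_pos hN0 _
  -- clear the denominator of `Q`
  have f1 : J * H ^ 2 * N ≤
      4 * (N : ℝ) ^ 2 * (N : ℝ) ^ (0.0001 : ℝ) * (1 + Real.log (Kn N H)) * (512 * Kn N H * Pn N H ^ 4) := by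
    have hden : 0 < 512 * Kn N H * (Pn N H : ℝ) ^ 4 := by positivity
    have g1 := mul_le_mul_of_nonneg_right hmain hden.le
    have g2 : J * Qn N H * H ^ 2 * (512 * Kn N H * (Pn N H : ℝ) ^ 4) = J * H ^ 2 * N := by
      unfold Qn
      field_simp
    rw [g2] at g1
    exact g1
  -- bound `P ^ 2`
  have f2 : (Pn N H : ℝ) ^ 2 * tn N ^ 2 ≤ 4 * ((N : ℝ) ^ (0.0002 : ℝ)) ^ 2 * H ^ 2 := by
    have g1 : (Pn N H : ℝ) * tn N ≤ 2 * (N : ℝ) ^ (0.0002 : ℝ) * H := by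
      rwa [le_div_iff₀ hτ] at c4
    have g2 := pow_le_pow_left₀ (by positivity) g1 2
    calc (Pn N H : ℝ) ^ 2 * tn N ^ 2 = ((Pn N H : ℝ) * tn N) ^ 2 := by ring
      _ ≤ (2 * (N : ℝ) ^ (0.0002 : ℝ) * H) ^ 2 := g2
      _ = 4 * ((N : ℝ) ^ (0.0002 : ℝ)) ^ 2 * H ^ 2 := by ring
  have f3 : J * H ^ 2 * tn N ^ 2 ≤
      (8192 * ((N : ℝ) * (N : ℝ) ^ (0.0001 : ℝ) * (1 + Real.log N) * Vn N *
        ((N : ℝ) ^ (0.0002 : ℝ)) ^ 2)) * H ^ 2 := by
    have g0 : J * H ^ 2 ≤ 2048 * (N : ℝ) * (N : ℝ) ^ (0.0001 : ℝ) * (1 + Real.log N) *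
        (Vn N * (Pn N H : ℝ) ^ 2) := by
      have k1 : J * H ^ 2 * N ≤ (2048 * (N : ℝ) * (N : ℝ) ^ (0.0001 : ℝ) * (1 + Real.log N) *
          (Vn N * (Pn N H : ℝ) ^ 2)) * N := by
        refine f1.trans ?_
        have k2 : 4 * (N : ℝ) ^ 2 * (N : ℝ) ^ (0.0001 : ℝ) * (1 + Real.log (Kn N H)) *
            (512 * Kn N H * (Pn N H : ℝ) ^ 4) =
            (2048 * (N : ℝ) * (N : ℝ) ^ (0.0001 : ℝ)) * (1 + Real.log (Kn N H)) *
              ((Kn N H * (Pn N H : ℝ) ^ 2) * (Pn N H : ℝ) ^ 2) * N := by ring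
        rw [k2]
        gcongr
      exact le_of_mul_le_mul_right k1 hN0
    calc J * H ^ 2 * tn N ^ 2 ≤ (2048 * (N : ℝ) * (N : ℝ) ^ (0.0001 : ℝ) * (1 + Real.log N) *
          (Vn N * (Pn N H : ℝ) ^ 2)) * tn N ^ 2 := by gcongr
      _ = (2048 * (N : ℝ) * (N : ℝ) ^ (0.0001 : ℝ) * (1 + Real.log N) * Vn N) *
          ((Pn N H : ℝ) ^ 2 * tn N ^ 2) := by ring
      _ ≤ (2048 * (N : ℝ) * (N : ℝ) ^ (0.0001 : ℝ) * (1 + Real.log N) * Vn N) *
          (4 * ((N : ℝ) ^ (0.0002 : ℝ)) ^ 2 * H ^ 2) := by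
            apply mul_le_mul_of_nonneg_left f2
            positivity
      _ = _ := by ring
  have f4 : J * tn N ^ 2 ≤ 8192 * ((N : ℝ) * (N : ℝ) ^ (0.0001 : ℝ) * (1 + Real.log N) * Vn N *
        ((N : ℝ) ^ (0.0002 : ℝ)) ^ 2) := by
    have k1 : (J * tn N ^ 2) * H ^ 2 ≤ (8192 * ((N : ℝ) * (N : ℝ) ^ (0.0001 : ℝ) * (1 + Real.log N) * Vn N *
        ((N : ℝ) ^ (0.0002 : ℝ)) ^ 2)) * H ^ 2 := by
      calc (J * tn N ^ 2) * H ^ 2 = J * H ^ 2 * tn N ^ 2 := by ring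
        _ ≤ _ := f3
    exact le_of_mul_le_mul_right k1 (by positivity)
  have e1 : (N : ℝ) * (N : ℝ) ^ (0.0001 : ℝ) * (N : ℝ) ^ (0.5138 : ℝ) * ((N : ℝ) ^ (0.0002 : ℝ)) ^ 2 =
      (N : ℝ) ^ (0.0277 : ℝ) * tn N ^ 2 := by
    unfold tn
    nth_rewrite 1 [← Real.rpow_one (N : ℝ)]
    rw [← Real.rpow_natCast, ← Real.rpow_natCast, ← Real.rpow_mul hN0.le, ← Real.rpow_mul hN0.le,
      ← Real.rpow_add hN0, ← Real.rpow_add hN0, ← Real.rpow_add hN0, ← Real.rpow_add hN0]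
    norm_num
  have f5 : J * tn N ^ 2 ≤ (8192 * 152 * (1 + Real.log N) ^ 2 * (N : ℝ) ^ (0.0277 : ℝ)) * tn N ^ 2 := by
    refine f4.trans (le_of_eq ?_)
    unfold Vn
    linear_combination (8192 * 152 * (1 + Real.log N) ^ 2) * e1
  exact (le_of_mul_le_mul_right f5 (by positivity)).trans d3

end Pool.Agent.Lib.MP_6cded1_nt.ML
end

section

/-!
# Numerical inequalities 4: the number of denominators, large primes, primes

`num_Y`: `J ≤ 4 N² dm (1 + log K) / (Q H²)`, `Q = N / (512 K P⁴)`: `J ≤ 2048 N dm (1 + log N) (K P²) (P / H)² ≤ 2048 N dm (1 + log N) V * 4 N^{0.0004} / τ²`; exponent `1 + 0.5138 + 0.0004 - 1.4866 = 0.0276`, `dm = N^{0.0001}`.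
`num_C2`: `card_primes_dvd` (in `Bad2`): `card * log P ≤ log q ≤ log N` and `log P ≥ 0.0002 log N`, so `card ≤ 5000`.
`num_PP`: `card_PP_ge` (as `P ≥ N^{0.0002} ≥ P₀`) and `log (4 P) ≤ log N`: `card (PP P) ≥ P / log N`.
`num_tau`: `4 H * 5 * 5001 * log N / P ≤ 100020 (log N) τ N^{-0.0002} ≤ τ`.
-/

set_option autoImplicit false

open Finset

namespace Pool.Agent.Lib.MP_6cded1_nt.ML

theorem num_PP : ∃ N₀ : ℕ, ∀ N : ℕ, N₀ ≤ N → ∀ H : ℝ, tn N ≤ H → H ≤ N →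
    (Pn N H : ℝ) ≤ (PP (Pn N H)).card * Real.log N ∧ 2 * 5001 ≤ (PP (Pn N H)).card := by
  obtain ⟨N₁, h₁⟩ := num_level
  obtain ⟨P₀, hP₀2, hP₀⟩ := card_PP_ge
  obtain ⟨N₂, h₂⟩ := pow_log_le P₀ 0 0 (0.0002 : ℝ) (by norm_num)
  obtain ⟨N₃, h₃⟩ := pow_log_le 10002 1 0 (0.0002 : ℝ) (by norm_num)
  refine ⟨max (max N₁ N₂) (max N₃ 2), fun N hN H hH1 hH2 => ?_⟩
  have hN1 : N₁ ≤ N := le_trans (le_trans (le_max_left _ _) (le_max_left _ _)) hN
  have hN2 : N₂ ≤ N := le_trans (le_trans (le_max_right _ _) (le_max_left _ _)) hN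
  have hN3 : N₃ ≤ N := le_trans (le_trans (le_max_left _ _) (le_max_right _ _)) hN
  have hN4 : 2 ≤ N := le_trans (le_trans (le_max_right _ _) (le_max_right _ _)) hN
  obtain ⟨_, _, hPu, _, _, h4P, _, hP2, _, _, _⟩ := h₁ N hN1 H hH1 hH2
  have h2 := h₂ N hN2
  have h3 := h₃ N hN3
  rw [pow_zero, mul_one, Real.rpow_zero, mul_one] at h2
  rw [pow_one, Real.rpow_zero, mul_one] at h3
  have hNR : (1 : ℝ) ≤ N := by
    have : (2 : ℝ) ≤ N := by exact_mod_cast hN4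
    linarith
  have hlog : 0 ≤ Real.log N := Real.log_nonneg hNR
  have hPge : P₀ ≤ Pn N H := by
    have : (P₀ : ℝ) ≤ Pn N H := h2.trans hPu
    exact_mod_cast this
  have h5 := hP₀ (Pn N H) hPge
  have hPpos : (0 : ℝ) < Pn N H := by
    have : (2 : ℝ) ≤ Pn N H := by exact_mod_cast hP2
    linarith
  have h6 : Real.log (4 * (Pn N H : ℝ)) ≤ Real.log N := by
    apply Real.log_le_log (by positivity)
    exact_mod_cast h4P
  have h7 : (Pn N H : ℝ) ≤ (PP (Pn N H)).card * Real.log N :=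
    h5.trans (mul_le_mul_of_nonneg_left h6 (Nat.cast_nonneg _))
  refine ⟨h7, ?_⟩
  have h8 : (10002 : ℝ) * (1 + Real.log N) ≤ (PP (Pn N H)).card * (1 + Real.log N) := by
    calc (10002 : ℝ) * (1 + Real.log N) ≤ Pn N H := h3.trans hPu
      _ ≤ (PP (Pn N H)).card * Real.log N := h7
      _ ≤ (PP (Pn N H)).card * (1 + Real.log N) :=
          mul_le_mul_of_nonneg_left (by linarith) (Nat.cast_nonneg _)
  have h9 : (10002 : ℝ) ≤ (PP (Pn N H)).card := le_of_mul_le_mul_right h8 (by linarith)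
  have h10 : 10002 ≤ (PP (Pn N H)).card := by exact_mod_cast h9
  exact h10

end Pool.Agent.Lib.MP_6cded1_nt.ML
end

section

/-!
# Numerical inequalities 4: the number of denominators, large primes, primes

`num_Y`: `J ≤ 4 N² dm (1 + log K) / (Q H²)`, `Q = N / (512 K P⁴)`: `J ≤ 2048 N dm (1 + log N) (K P²) (P / H)² ≤ 2048 N dm (1 + log N) V * 4 N^{0.0004} / τ²`; exponent `1 + 0.5138 + 0.0004 - 1.4866 = 0.0276`, `dm = N^{0.0001}`.
`num_C2`: `card_primes_dvd` (in `Bad2`): `card * log P ≤ log q ≤ log N` and `log P ≥ 0.0002 log N`, so `card ≤ 5000`.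
`num_PP`: `card_PP_ge` (as `P ≥ N^{0.0002} ≥ P₀`) and `log (4 P) ≤ log N`: `card (PP P) ≥ P / log N`.
`num_tau`: `4 H * 5 * 5001 * log N / P ≤ 100020 (log N) τ N^{-0.0002} ≤ τ`.
-/

set_option autoImplicit false

open Finset

namespace Pool.Agent.Lib.MP_6cded1_nt.ML

theorem num_tau : ∃ N₀ : ℕ, ∀ N : ℕ, N₀ ≤ N → ∀ H : ℝ, tn N ≤ H → H ≤ N →
    4 * H * (5 * 5001) ≤ tn N * (PP (Pn N H)).card := by
  obtain ⟨N₁, h₁⟩ := num_PP
  obtain ⟨N₂, h₂⟩ := pow_log_le 100020 1 0 (0.0002 : ℝ) (by norm_num)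
  refine ⟨max (max N₁ N₂) 2, fun N hN H hH1 hH2 => ?_⟩
  have hN1 : N₁ ≤ N := ((le_max_left _ _).trans (le_max_left _ _)).trans hN
  have hN2 : N₂ ≤ N := ((le_max_right _ _).trans (le_max_left _ _)).trans hN
  have hN3 : 2 ≤ N := (le_max_right _ _).trans hN
  have hx2 : (2 : ℝ) ≤ N := by exact_mod_cast hN3
  have hx1 : (1 : ℝ) < N := by linarith
  have hx0 : (0 : ℝ) < N := by linarith
  have hlog : 0 < Real.log N := Real.log_pos hx1
  have hτ : 0 < tn N := Real.rpow_pos_of_pos hx0 _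
  have hH : 0 < H := lt_of_lt_of_le hτ hH1
  have hPP := (h₁ N hN1 H hH1 hH2).1
  have hL := h₂ N hN2
  rw [pow_one, Real.rpow_zero, mul_one] at hL
  obtain ⟨u, hu⟩ : ∃ u, u = (N : ℝ) ^ (0.0002 : ℝ) := ⟨_, rfl⟩
  rw [← hu] at hL
  have hP1 : u * H / tn N ≤ Pn N H := by
    rw [hu]
    exact Nat.le_ceil _
  have h3 : u * H ≤ tn N * ((PP (Pn N H)).card * Real.log N) := by
    have h4 : u * H ≤ tn N * Pn N H := by
      rw [div_le_iff₀ hτ] at hP1
      linarith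
    exact h4.trans (mul_le_mul_of_nonneg_left hPP hτ.le)
  have h5 : 100020 * Real.log N ≤ u := by linarith
  have h6 : 100020 * Real.log N * H ≤ u * H := mul_le_mul_of_nonneg_right h5 hH.le
  have h7 : (4 * H * (5 * 5001)) * Real.log N ≤ (tn N * (PP (Pn N H)).card) * Real.log N := by
    calc (4 * H * (5 * 5001)) * Real.log N = 100020 * Real.log N * H := by ring
      _ ≤ u * H := h6
      _ ≤ tn N * ((PP (Pn N H)).card * Real.log N) := h3
      _ = (tn N * (PP (Pn N H)).card) * Real.log N := by ring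
  exact le_of_mul_le_mul_right h7 hlog

end Pool.Agent.Lib.MP_6cded1_nt.ML
end

section

/-!
# Umbrella file
-/
end

section

/-!
# At most 5000 prime divisors; the divisor bound

`num_C2`: `card_primes_dvd`: `card * log P ≤ log q ≤ log N` (`q ≤ K ≤ D ≤ N`) and `log P ≥ 0.0002 log N` (`num_level`), `log N > 0`, so `card ≤ 5000`.
`num_dm`: the divisor bound `d(q) ≤ C_ε q^ε` (proved in `Pool/Agent/Lib/FM60/Tau.lean`: `exists_card_divisors_le` or similar; any proof is fine) with `ε = 0.00005`, `q ≤ K ≤ N`, and `C ≤ N^{0.00005}` for large `N`.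
-/

set_option autoImplicit false

open Finset

namespace Pool.Agent.Lib.MP_6cded1_nt.ML

private theorem tau_aux' {a : ℝ} (ha : 0 < a) (v : ℕ) :
    (v : ℝ) + 1 ≤ (1 + 1 / a) * Real.exp (a * v) := by
  have h1 : 1 + a * v ≤ Real.exp (a * v) := by
    have := Real.add_one_le_exp (a * v)
    linarith
  have h2 : 0 < 1 + 1 / a := by positivity
  have h3 : (1 + 1 / a) * (1 + a * v) = 1 + v + a * v + 1 / a := by
    field_simp
    ring
  have h4 : (0 : ℝ) ≤ a * v := by positivity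
  have h5 : 0 < 1 / a := by positivity
  calc (v : ℝ) + 1 ≤ (1 + 1 / a) * (1 + a * v) := by rw [h3]; linarith
    _ ≤ _ := mul_le_mul_of_nonneg_left h1 h2.le

private theorem exists_card_divisors_le' (ε : ℝ) (hε : 0 < ε) :
    ∃ C : ℝ, 1 ≤ C ∧ ∀ n : ℕ, n ≠ 0 → (n.divisors.card : ℝ) ≤ C * (n : ℝ) ^ ε := by
  have hlog : 0 < Real.log 2 := Real.log_pos (by norm_num)
  set a : ℝ := ε * Real.log 2 with ha_def
  have ha : 0 < a := mul_pos hε hlog
  set C1 : ℝ := 1 + 1 / a with hC1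
  have hC1' : 1 ≤ C1 := by
    have : 0 < 1 / a := by positivity
    rw [hC1]; linarith
  obtain ⟨P0, hP0⟩ := exists_nat_ge ((2 : ℝ) ^ (1 / ε))
  refine ⟨C1 ^ P0, one_le_pow₀ hC1', fun n hn => ?_⟩
  rw [Nat.card_divisors hn]
  push_cast
  set c : ℕ → ℝ := fun p => if p < P0 then C1 else 1 with hc
  have key : ∀ p ∈ n.primeFactors,
      ((n.factorization p : ℝ) + 1) ≤ c p * (((p : ℝ) ^ (n.factorization p)) ^ ε) := by
    intro p hp
    have hpp : p.Prime := Nat.prime_of_mem_primeFactors hp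
    have hp2 : (2 : ℝ) ≤ p := by exact_mod_cast hpp.two_le
    have hp0 : (0 : ℝ) < p := by linarith
    set v := n.factorization p with hv
    have e1 : ((p : ℝ) ^ v) ^ ε = Real.exp (ε * Real.log p * v) := by
      rw [← Real.rpow_natCast, ← Real.rpow_mul hp0.le, Real.rpow_def_of_pos hp0]
      congr 1
      ring
    rw [e1]
    by_cases hlt : p < P0
    · simp only [hc, if_pos hlt]
      refine (tau_aux' ha v).trans ?_
      refine mul_le_mul_of_nonneg_left ?_ (by linarith)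
      apply Real.exp_le_exp.2
      apply mul_le_mul_of_nonneg_right _ (Nat.cast_nonneg v)
      rw [ha_def]
      exact mul_le_mul_of_nonneg_left (Real.log_le_log (by norm_num) hp2) hε.le
    · simp only [hc, if_neg hlt, one_mul]
      have h1 : (2 : ℝ) ^ (1 / ε) ≤ p := hP0.trans (by exact_mod_cast not_lt.1 hlt)
      have h2 : Real.log 2 ≤ ε * Real.log p := by
        have h3 := Real.log_le_log (by positivity) h1
        rw [Real.log_rpow (by norm_num)] at h3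
        have h4 := mul_le_mul_of_nonneg_left h3 hε.le
        have h5 : ε * (1 / ε * Real.log 2) = Real.log 2 := by field_simp
        rw [h5] at h4
        exact h4
      have h3 : ((v : ℝ) + 1) ≤ (2 : ℝ) ^ v := by
        have : v + 1 ≤ 2 ^ v := Nat.lt_two_pow_self
        exact_mod_cast this
      refine h3.trans ?_
      have h4 : (2 : ℝ) ^ v = Real.exp (Real.log 2 * v) := by
        rw [mul_comm, Real.exp_nat_mul, Real.exp_log (by norm_num)]
      rw [h4]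
      apply Real.exp_le_exp.2
      exact mul_le_mul_of_nonneg_right h2 (Nat.cast_nonneg v)
  calc ∏ p ∈ n.primeFactors, ((n.factorization p : ℝ) + 1)
      ≤ ∏ p ∈ n.primeFactors, (c p * (((p : ℝ) ^ (n.factorization p)) ^ ε)) :=
        Finset.prod_le_prod (fun p _ => by positivity) key
    _ = (∏ p ∈ n.primeFactors, c p) * (n : ℝ) ^ ε := by
        rw [Finset.prod_mul_distrib]
        congr 1
        rw [Real.finsetProd_rpow _ _ (fun p _ => by positivity)]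
        congr 1
        have := Nat.prod_factorization_pow_eq_self hn
        conv_rhs => rw [← this]
        rw [Finsupp.prod, Nat.support_factorization]
        push_cast
        rfl
    _ ≤ C1 ^ P0 * (n : ℝ) ^ ε := by
        apply mul_le_mul_of_nonneg_right _ (by positivity)
        have h1 : ∏ p ∈ n.primeFactors, c p = C1 ^ (n.primeFactors.filter (· < P0)).card := by
          rw [← Finset.prod_filter_mul_prod_filter_not n.primeFactors (· < P0) c]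
          rw [Finset.prod_congr rfl (g := fun _ => C1), Finset.prod_const,
            Finset.prod_eq_one (s := n.primeFactors.filter (fun x => ¬ x < P0)), mul_one]
          · intro p hp
            simp only [hc, if_neg (Finset.mem_filter.1 hp).2]
          · intro p hp
            simp only [hc, if_pos (Finset.mem_filter.1 hp).2]
        rw [h1]
        apply pow_le_pow_right₀ hC1'
        calc (n.primeFactors.filter (· < P0)).card ≤ (Finset.range P0).card :=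
              Finset.card_le_card fun p hp => Finset.mem_range.2 (Finset.mem_filter.1 hp).2
          _ = P0 := Finset.card_range P0


theorem num_dm : ∃ N₀ : ℕ, ∀ N : ℕ, N₀ ≤ N → ∀ q : ℕ, 1 ≤ q → q ≤ N →
    (q.divisors.card : ℝ) ≤ (N : ℝ) ^ (0.0001 : ℝ) := by
  obtain ⟨C, hC, h⟩ := exists_card_divisors_le' 0.00005 (by norm_num)
  have h1 : Filter.Tendsto (fun N : ℕ => (N : ℝ) ^ (0.00005 : ℝ)) Filter.atTop Filter.atTop :=
    (tendsto_rpow_atTop (by norm_num)).comp tendsto_natCast_atTop_atTop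
  obtain ⟨N₀, hN₀⟩ := Filter.eventually_atTop.1 (h1.eventually_ge_atTop C)
  refine ⟨max N₀ 1, fun N hN q hq1 hqN => ?_⟩
  have hN1 : N₀ ≤ N := le_trans (le_max_left _ _) hN
  have hN2 : 1 ≤ N := le_trans (le_max_right _ _) hN
  have hNpos : (0 : ℝ) < N := by exact_mod_cast hN2
  have h2 := h q (by omega)
  have h3 : (q : ℝ) ^ (0.00005 : ℝ) ≤ (N : ℝ) ^ (0.00005 : ℝ) :=
    Real.rpow_le_rpow (by positivity) (by exact_mod_cast hqN) (by norm_num)
  calc (q.divisors.card : ℝ) ≤ C * (q : ℝ) ^ (0.00005 : ℝ) := h2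
    _ ≤ (N : ℝ) ^ (0.00005 : ℝ) * (N : ℝ) ^ (0.00005 : ℝ) :=
        mul_le_mul (hN₀ N hN1) h3 (by positivity) (by positivity)
    _ = (N : ℝ) ^ (0.0001 : ℝ) := by
        rw [← Real.rpow_add hNpos]
        norm_num

end Pool.Agent.Lib.MP_6cded1_nt.ML
end

section

/-!
# One layer of the energy

`ω g = min 1 (2M/κ)`, `r g = cc g / κ` (`κ = g 2^j`), so `cc² wt = ω r cc` and `E := ∑_g ω r cc = ∑_{i ∈ A} u_i`, `u_i = ∑_{g : Cst g j (z i)} ω_g r_g`.  Cauchy: `E² ≤ n ∑_i u_i² = n ∑_{g, g'} ω ω' r r' #(g, g')`, `#(g, g')` = number of `i` in both clusters.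
Diagonal: `#(g, g) = cc g`, `ω² r² cc ≤ ρ ω r cc`: total `≤ ρ E`.  Off the diagonal `#(g, g') ≤ 32 κ κ' / N` (`overlap`): total `≤ (32/N) (∑_g ω_g cc_g)²`, and `∑_g ω_g cc_g = ∑_i ∑_{g : Cst g j (z i)} ω_g ≤ n T` (`weight_sum`).
So `E² ≤ n ρ E + 32 n³ T² / N`, hence `E ≤ n ρ + √(32 n³ T² / N) ≤ n ρ + 6 n T √(n/N)`.  (`ρ ≥ 0` may be assumed: if `n = 0` everything is `0`; otherwise `hρ` for one `g` gives `ρ ≥ 0`.)
-/

set_option autoImplicit false

open Finset Pool.Agent.Lib.MP_6cded1_nt.ML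

namespace Pool.Agent.Lib.MP_6cded1_nt.M3

open Classical in
/-- indicator of the cluster `(g, j)` -/
private noncomputable def ind (N j : ℕ) (z : ℕ → ℝ) (g i : ℕ) : ℝ :=
  if Cst N g j (z i) then 1 else 0

private theorem ind_nonneg (N j : ℕ) (z : ℕ → ℝ) (g i : ℕ) : 0 ≤ ind N j z g i := by
  unfold ind
  split_ifs <;> norm_num

private theorem ind_sq (N j : ℕ) (z : ℕ → ℝ) (g i : ℕ) :
    ind N j z g i * ind N j z g i = ind N j z g i := by
  unfold ind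
  split_ifs <;> simp

private theorem cc_eq (N : ℕ) (A : Finset ℕ) (z : ℕ → ℝ) (g j : ℕ) :
    (cc N A z g j : ℝ) = ∑ i ∈ A, ind N j z g i := by
  unfold cc ind
  rw [Finset.card_filter]
  push_cast
  rfl

private theorem pair_le (N : ℕ) (hN : 1 ≤ N) (A : Finset ℕ) (z : ℕ → ℝ) (hz : InCell N A z)
    (g g' j : ℕ) (hg : 1 ≤ g) (hg' : 1 ≤ g') (hne : g ≠ g') :
    ∑ i ∈ A, ind N j z g i * ind N j z g' i ≤
      32 * ((g : ℝ) * 2 ^ j) * ((g' : ℝ) * 2 ^ j) / N := by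
  have h := overlap N hN A z hz g g' j hg hg' hne
  refine le_trans (le_of_eq ?_) h
  rw [Finset.card_filter]
  push_cast
  refine Finset.sum_congr rfl fun i _ => ?_
  unfold ind
  by_cases h1 : Cst N g j (z i) <;> by_cases h2 : Cst N g' j (z i) <;> simp [h1, h2]

private theorem TT_nonneg (N M : ℕ) : 0 ≤ TT N M := by
  unfold TT
  positivity

/-- the last step: a quadratic inequality -/
private theorem quad {E n ρ T x : ℝ} (hn : 0 ≤ n) (hρ : 0 ≤ ρ) (hT : 0 ≤ T) (hx : 0 ≤ x)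
    (h : E ^ 2 ≤ n * (ρ * E + 32 * (x ^ 2) * (n * T ^ 2))) : E ≤ n * (ρ + 6 * T * x) := by
  by_contra hc
  have hc' : n * (ρ + 6 * T * x) < E := not_le.1 hc
  have h0 : 0 ≤ n * (ρ + 6 * T * x) := by positivity
  have hE : 0 < E := lt_of_le_of_lt h0 hc'
  have h1 : E * (n * (ρ + 6 * T * x)) < E * E := mul_lt_mul_of_pos_left hc' hE
  have h2 : n * (6 * T * x) ≤ E := by
    have : 0 ≤ n * ρ := mul_nonneg hn hρ
    nlinarith
  have h3 : 0 ≤ n * (6 * T * x) := by positivity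
  have h4 : n * (6 * T * x) * (n * (6 * T * x)) ≤ E * (n * (6 * T * x)) :=
    mul_le_mul_of_nonneg_right h2 h3
  have h5 : 0 ≤ (n * (T * x)) ^ 2 := sq_nonneg _
  nlinarith

theorem layer_bound (N M j : ℕ) (hN : 1 ≤ N) (hM : 1 ≤ M) (hMN : 4 * M ≤ N) (A : Finset ℕ) (z : ℕ → ℝ)
    (hz : InCell N A z) (ρ : ℝ) (hρ0 : 0 ≤ ρ)
    (hρ : ∀ g ∈ Icc 1 (2 * M - 1), (cc N A z g j : ℝ) ≤ ρ * ((g : ℝ) * 2 ^ j)) :
    ∑ g ∈ Icc 1 (2 * M - 1), (cc N A z g j : ℝ) ^ 2 * wt M g j ≤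
      A.card * (ρ + 6 * TT N M * Real.sqrt (A.card / N)) := by
  have hNr : (0 : ℝ) < N := by exact_mod_cast hN
  obtain ⟨c, hc⟩ : ∃ c : ℕ → ℝ, c = fun g => (cc N A z g j : ℝ) := ⟨_, rfl⟩
  obtain ⟨κ, hκ⟩ : ∃ κ : ℕ → ℝ, κ = fun g : ℕ => (g : ℝ) * 2 ^ j := ⟨_, rfl⟩
  obtain ⟨ω, hω⟩ : ∃ ω : ℕ → ℝ, ω = fun g => min 1 (2 * (M : ℝ) / κ g) := ⟨_, rfl⟩
  obtain ⟨a, ha⟩ : ∃ a : ℕ → ℝ, a = fun g => ω g * (c g / κ g) := ⟨_, rfl⟩
  have hI : ∀ g ∈ Icc 1 (2 * M - 1), 1 ≤ g := fun g hg => (Finset.mem_Icc.1 hg).1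
  have hκ0 : ∀ g ∈ Icc 1 (2 * M - 1), 0 < κ g := by
    intro g hg
    have : (0 : ℝ) < g := by exact_mod_cast hI g hg
    rw [hκ]
    positivity
  have hc0 : ∀ g, 0 ≤ c g := by
    intro g
    rw [hc]
    positivity
  have hω0 : ∀ g ∈ Icc 1 (2 * M - 1), 0 ≤ ω g := by
    intro g hg
    have := hκ0 g hg
    rw [hω]
    exact le_min zero_le_one (by positivity)
  have hω1 : ∀ g, ω g ≤ 1 := by
    intro g
    rw [hω]
    exact min_le_left _ _
  have ha0 : ∀ g ∈ Icc 1 (2 * M - 1), 0 ≤ a g := by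
    intro g hg
    have h1 := hκ0 g hg
    have h2 := hω0 g hg
    have h3 := hc0 g
    rw [ha]
    positivity
  have haρ : ∀ g ∈ Icc 1 (2 * M - 1), a g ≤ ρ := by
    intro g hg
    have h1 := hκ0 g hg
    have h2 : c g / κ g ≤ ρ := by
      rw [div_le_iff₀ h1]
      have := hρ g hg
      rw [hc, hκ]
      exact this
    have h3 : 0 ≤ c g / κ g := div_nonneg (hc0 g) h1.le
    have h4 : a g = ω g * (c g / κ g) := by rw [ha]
    rw [h4]
    exact (mul_le_of_le_one_left h3 (hω1 g)).trans h2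
  have haκ : ∀ g ∈ Icc 1 (2 * M - 1), a g * κ g = ω g * c g := by
    intro g hg
    have h1 := (hκ0 g hg).ne'
    have h4 : a g = ω g * (c g / κ g) := by rw [ha]
    rw [h4]
    field_simp
  have hci : ∀ g, c g = ∑ i ∈ A, ind N j z g i := by
    intro g
    rw [hc]
    exact cc_eq N A z g j
  -- the energy
  obtain ⟨E, hE⟩ : ∃ E : ℝ, E = ∑ g ∈ Icc 1 (2 * M - 1), a g * c g := ⟨_, rfl⟩
  have hL : ∑ g ∈ Icc 1 (2 * M - 1), (cc N A z g j : ℝ) ^ 2 * wt M g j = E := by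
    rw [hE]
    refine Finset.sum_congr rfl fun g hg => ?_
    have h1 := hκ0 g hg
    have h2 : wt M g j = ω g / κ g := by
      have h3 : wt M g j = min (1 / κ g) (2 * M / κ g ^ 2) := by
        rw [hκ]
        rfl
      have h4 : ω g / κ g = min (1 / κ g) (2 * M / κ g / κ g) := by
        have : ω g = min 1 (2 * (M : ℝ) / κ g) := by rw [hω]
        rw [this, min_div_div_right h1.le]
      rw [h3, h4, div_div, ← sq]
    have h5 : (cc N A z g j : ℝ) = c g := by rw [hc]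
    have h6 : a g = ω g * (c g / κ g) := by rw [ha]
    rw [h2, h5, h6]
    ring
  have hEu : E = ∑ i ∈ A, ∑ g ∈ Icc 1 (2 * M - 1), a g * ind N j z g i := by
    rw [hE, Finset.sum_comm]
    refine Finset.sum_congr rfl fun g _ => ?_
    rw [hci g, Finset.mul_sum]
  have hcs : E ^ 2 ≤ A.card * ∑ i ∈ A, (∑ g ∈ Icc 1 (2 * M - 1), a g * ind N j z g i) ^ 2 := by
    rw [hEu]
    exact sq_sum_le_card_mul_sum_sq
  have hexp : ∑ i ∈ A, (∑ g ∈ Icc 1 (2 * M - 1), a g * ind N j z g i) ^ 2 =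
      ∑ g ∈ Icc 1 (2 * M - 1), ∑ g' ∈ Icc 1 (2 * M - 1),
        a g * a g' * ∑ i ∈ A, ind N j z g i * ind N j z g' i := by
    have h1 : ∀ i ∈ A, (∑ g ∈ Icc 1 (2 * M - 1), a g * ind N j z g i) ^ 2 =
        ∑ g ∈ Icc 1 (2 * M - 1), ∑ g' ∈ Icc 1 (2 * M - 1),
          a g * a g' * (ind N j z g i * ind N j z g' i) := by
      intro i _
      rw [sq, Finset.sum_mul_sum]
      refine Finset.sum_congr rfl fun g _ => ?_
      refine Finset.sum_congr rfl fun g' _ => ?_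
      ring
    rw [Finset.sum_congr rfl h1, Finset.sum_comm]
    refine Finset.sum_congr rfl fun g _ => ?_
    rw [Finset.sum_comm]
    refine Finset.sum_congr rfl fun g' _ => ?_
    rw [Finset.mul_sum]
  have hb : ∀ g ∈ Icc 1 (2 * M - 1), ∀ g' ∈ Icc 1 (2 * M - 1),
      a g * a g' * ∑ i ∈ A, ind N j z g i * ind N j z g' i ≤
        (if g = g' then ρ * (a g * c g) else 0) + 32 / N * ((ω g * c g) * (ω g' * c g')) := by
    intro g hg g' hg'
    have e0 : 0 ≤ 32 / (N : ℝ) * ((ω g * c g) * (ω g' * c g')) := by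
      have h1 := hω0 g hg
      have h2 := hω0 g' hg'
      have h3 := hc0 g
      have h4 := hc0 g'
      positivity
    by_cases hgg : g = g'
    · subst hgg
      rw [if_pos rfl]
      have h1 : ∑ i ∈ A, ind N j z g i * ind N j z g i = c g := by
        rw [hci g]
        exact Finset.sum_congr rfl fun i _ => ind_sq N j z g i
      rw [h1]
      have h2 : a g * a g * c g ≤ ρ * (a g * c g) := by
        have h3 : 0 ≤ a g * c g := mul_nonneg (ha0 g hg) (hc0 g)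
        have h4 := mul_le_mul_of_nonneg_right (haρ g hg) h3
        calc a g * a g * c g = a g * (a g * c g) := by ring
          _ ≤ _ := h4
      linarith
    · rw [if_neg hgg, zero_add]
      have h1 := pair_le N hN A z hz g g' j (hI g hg) (hI g' hg') hgg
      have h2 : 0 ≤ a g * a g' := mul_nonneg (ha0 g hg) (ha0 g' hg')
      have h3 : ((g : ℝ) * 2 ^ j) = κ g := by rw [hκ]
      have h4 : ((g' : ℝ) * 2 ^ j) = κ g' := by rw [hκ]
      rw [h3, h4] at h1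
      refine (mul_le_mul_of_nonneg_left h1 h2).trans (le_of_eq ?_)
      rw [← haκ g hg, ← haκ g' hg']
      ring
  have hsum : ∑ g ∈ Icc 1 (2 * M - 1), ∑ g' ∈ Icc 1 (2 * M - 1),
        a g * a g' * ∑ i ∈ A, ind N j z g i * ind N j z g' i ≤
      ρ * E + 32 / N * (∑ g ∈ Icc 1 (2 * M - 1), ω g * c g) ^ 2 := by
    refine (Finset.sum_le_sum fun g hg => Finset.sum_le_sum fun g' hg' => hb g hg g' hg').trans
      (le_of_eq ?_)
    simp only [Finset.sum_add_distrib]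
    congr 1
    · rw [hE, Finset.mul_sum]
      refine Finset.sum_congr rfl fun g hg => ?_
      rw [Finset.sum_ite_eq, if_pos hg]
    · rw [sq, Finset.sum_mul_sum, Finset.mul_sum]
      refine Finset.sum_congr rfl fun g _ => ?_
      rw [Finset.mul_sum]
  have hW : ∑ g ∈ Icc 1 (2 * M - 1), ω g * c g ≤ A.card * TT N M := by
    have h1 : ∑ g ∈ Icc 1 (2 * M - 1), ω g * c g =
        ∑ i ∈ A, ∑ g ∈ Icc 1 (2 * M - 1), ω g * ind N j z g i := by
      rw [Finset.sum_comm]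
      refine Finset.sum_congr rfl fun g _ => ?_
      rw [hci g, Finset.mul_sum]
    rw [h1, ← nsmul_eq_mul]
    refine Finset.sum_le_card_nsmul _ _ _ fun i _ => ?_
    refine le_trans (le_of_eq ?_) (weight_sum N M j hM hMN (z i))
    refine Finset.sum_congr rfl fun g _ => ?_
    rw [hω, hκ]
    unfold ind
    split_ifs <;> simp
  have hW0 : 0 ≤ ∑ g ∈ Icc 1 (2 * M - 1), ω g * c g :=
    Finset.sum_nonneg fun g hg => mul_nonneg (hω0 g hg) (hc0 g)
  have hW2 : (∑ g ∈ Icc 1 (2 * M - 1), ω g * c g) ^ 2 ≤ (A.card * TT N M) ^ 2 :=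
    pow_le_pow_left₀ hW0 hW 2
  rw [hL]
  have hx : Real.sqrt ((A.card : ℝ) / N) ^ 2 = (A.card : ℝ) / N := Real.sq_sqrt (by positivity)
  refine quad (by positivity) hρ0 (TT_nonneg N M) (Real.sqrt_nonneg _) ?_
  rw [hx]
  rw [hexp] at hcs
  refine hcs.trans (mul_le_mul_of_nonneg_left ?_ (by positivity))
  refine hsum.trans ?_
  have h32 : (0 : ℝ) ≤ 32 / N := by positivity
  have h7 := mul_le_mul_of_nonneg_left hW2 h32
  have h8 : 32 / (N : ℝ) * ((A.card : ℝ) * TT N M) ^ 2 =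
      32 * ((A.card : ℝ) / N) * ((A.card : ℝ) * TT N M ^ 2) := by
    field_simp
  linarith

end Pool.Agent.Lib.MP_6cded1_nt.M3
end
end
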