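import Pool.Agent.Lib.MP_6cded1_nt.ML.Defs
import Pool.Agent.Lib.MP_6cded1_nt.ML.Near1
import Pool.Agent.Lib.MP_6cded1_nt.M3.Fls

section

/-!
# Case A: the congruence `u r² ≡ w s² mod p²` has few solutions in primes

Let `(r, s)`, `(r', s')` be two elements of the set.  `u r² w s'² ≡ w s² u r'²`, so `p² ∣ u w ((r s')² - (s r')²)`, `p² ∣ (r s' - s r') (r s' + s r')`.  `p` does not divide both factors (else `p ∣ 2 r s'`; `p > 2`, `r, s' ≠ p` primes).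
So `p²` divides one of them.  `|r s' - s r'| < 16 P² < 16 p²`: at most 31 multiples of `p²`; `0 < r s' + s r' ≤ 32 P² < 32 p²`: at most 31 multiples.  Fix `(r, s)` and the value `X` of `r s' - s r'` (resp. `r s' + s r'`):
two solutions `(r', s')`, `(r'', s'')` have `r ∣ r' - r''` (`r ≠ s` primes), and `|r' - r''| < 3 P < 3 r`, so there are at most 3 solutions.  Total `≤ 62 * 3 = 186`.
-/

set_option autoImplicit false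

open Finset

namespace Pool.Agent.Lib.MP_6cded1_nt.ML

private theorem fiber_le (P r : ℕ) (hr : P < r) (c X : ℤ) (hc : IsCoprime (r : ℤ) c)
    (S : Finset (ℕ × ℕ))
    (hS : ∀ x ∈ S, P < x.1 ∧ x.1 ≤ 4 * P ∧ (r : ℤ) * x.2 - c * x.1 = X) : S.card ≤ 3 := by
  have hrpos : 0 < (r : ℤ) := by
    have : 0 < r := by omega
    exact_mod_cast this
  have hr0 : (r : ℤ) ≠ 0 := hrpos.ne'
  have hinj : Set.InjOn Prod.fst (S : Set (ℕ × ℕ)) := by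
    intro x hx y hy hxy
    have h1 := (hS x hx).2.2
    have h2 := (hS y hy).2.2
    have h3 : (x.1 : ℤ) = y.1 := by exact_mod_cast hxy
    have h4 : (r : ℤ) * x.2 = r * y.2 := by rw [h3] at h1; linarith
    have h5 : (x.2 : ℤ) = y.2 := mul_left_cancel₀ hr0 h4
    exact Prod.ext hxy (by exact_mod_cast h5)
  rw [← card_image_of_injOn hinj]
  rcases (S.image Prod.fst).eq_empty_or_nonempty with h0 | hne
  · rw [h0]; simp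
  set m := (S.image Prod.fst).min' hne with hm
  have hmS : m ∈ S.image Prod.fst := min'_mem _ _
  have hsub : S.image Prod.fst ⊆ (range 3).image (fun i => m + r * i) := by
    intro a ha
    have hma : m ≤ a := min'_le _ _ ha
    obtain ⟨x, hx, rfl⟩ := mem_image.1 ha
    obtain ⟨y, hy, hym⟩ := mem_image.1 hmS
    have h1 := hS x hx
    have h2 := hS y hy
    rw [hym] at h2
    have h3 : (r : ℤ) ∣ c * ((x.1 : ℤ) - m) := ⟨x.2 - y.2, by linarith [h1.2.2, h2.2.2]⟩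
    have h4 : (r : ℤ) ∣ (x.1 : ℤ) - m := hc.dvd_of_dvd_mul_left h3
    have h5 : r ∣ x.1 - m := by
      have : ((x.1 - m : ℕ) : ℤ) = (x.1 : ℤ) - m := by omega
      rw [← this] at h4
      exact_mod_cast h4
    obtain ⟨k, hk⟩ := h5
    refine mem_image.2 ⟨k, ?_, by omega⟩
    rw [mem_range]
    by_contra hk3
    push Not at hk3
    have : r * 3 ≤ r * k := Nat.mul_le_mul_left _ hk3
    omega
  have h3 : ((range 3).image (fun i => m + r * i)).card ≤ (range 3).card := card_image_le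
  rw [card_range] at h3
  exact (card_le_card hsub).trans h3

private theorem class_le (P r p : ℕ) (hr : P < r) (hp : p ≠ 0) (c : ℤ) (hc : IsCoprime (r : ℤ) c)
    (S : Finset (ℕ × ℕ)) (lo : ℤ)
    (hS : ∀ x ∈ S, P < x.1 ∧ x.1 ≤ 4 * P ∧ (p : ℤ) ^ 2 ∣ (r : ℤ) * x.2 - c * x.1 ∧
      (p : ℤ) ^ 2 * lo ≤ (r : ℤ) * x.2 - c * x.1 ∧
      (r : ℤ) * x.2 - c * x.1 ≤ (p : ℤ) ^ 2 * (lo + 30)) : S.card ≤ 93 := by
  have hp2 : (0 : ℤ) < (p : ℤ) ^ 2 := by positivity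
  have h := card_le_mul_card_image_of_maps_to (s := S)
    (f := fun x : ℕ × ℕ => ((r : ℤ) * x.2 - c * x.1) / (p : ℤ) ^ 2) (t := Icc lo (lo + 30)) ?_ 3 ?_
  · rw [Int.card_Icc] at h
    have : (lo + 30 + 1 - lo).toNat = 31 := by
      have : lo + 30 + 1 - lo = 31 := by ring
      rw [this]; rfl
    rw [this] at h
    omega
  · intro x hx
    obtain ⟨_, _, ⟨k, hk⟩, h4, h5⟩ := hS x hx
    simp only [mem_Icc]
    rw [hk, Int.mul_ediv_cancel_left _ hp2.ne']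
    rw [hk] at h4 h5
    exact ⟨le_of_mul_le_mul_left h4 hp2, le_of_mul_le_mul_left h5 hp2⟩
  · intro b _
    refine fiber_le P r hr c ((p : ℤ) ^ 2 * b) hc _ ?_
    intro x hx
    rw [mem_filter] at hx
    obtain ⟨h1, h2, h3, _, _⟩ := hS x hx.1
    refine ⟨h1, h2, ?_⟩
    rw [← hx.2]
    exact (Int.mul_ediv_cancel' h3).symm

theorem tri_congr (P p : ℕ) (hp : p ∈ PP P) (hP : 2 ≤ P) (u w : ℤ) (hu : ¬ (p : ℤ) ∣ u) (hw : ¬ (p : ℤ) ∣ w) :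
    (((PP P) ×ˢ (PP P)).filter fun s : ℕ × ℕ => s.1 ≠ s.2 ∧ s.1 ≠ p ∧ s.2 ≠ p ∧
      (p : ℤ) ^ 2 ∣ u * (s.1 : ℤ) ^ 2 - w * (s.2 : ℤ) ^ 2).card ≤ 186 := by
  set T := ((PP P) ×ˢ (PP P)).filter fun s : ℕ × ℕ => s.1 ≠ s.2 ∧ s.1 ≠ p ∧ s.2 ≠ p ∧
      (p : ℤ) ^ 2 ∣ u * (s.1 : ℤ) ^ 2 - w * (s.2 : ℤ) ^ 2 with hT
  have hPP : ∀ x ∈ PP P, P < x ∧ x ≤ 4 * P ∧ x.Prime := by
    intro x hx
    unfold PP at hx
    rw [mem_filter, mem_Ioc] at hx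
    exact ⟨hx.1.1, hx.1.2, hx.2⟩
  have hTm : ∀ x ∈ T, (P < x.1 ∧ x.1 ≤ 4 * P ∧ x.1.Prime) ∧ (P < x.2 ∧ x.2 ≤ 4 * P ∧ x.2.Prime) ∧
      x.1 ≠ x.2 ∧ x.1 ≠ p ∧ x.2 ≠ p ∧ (p : ℤ) ^ 2 ∣ u * (x.1 : ℤ) ^ 2 - w * (x.2 : ℤ) ^ 2 := by
    intro x hx
    rw [hT, mem_filter, mem_product] at hx
    exact ⟨hPP _ hx.1.1, hPP _ hx.1.2, hx.2⟩
  obtain ⟨hp1, hp2, hpp⟩ := hPP p hp
  have hpZ : Prime (p : ℤ) := Nat.prime_iff_prime_int.1 hpp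
  rcases T.eq_empty_or_nonempty with h0 | ⟨x0, hx0⟩
  · rw [h0]; simp
  obtain ⟨r, s⟩ := x0
  obtain ⟨⟨hr1, hr2, hrp⟩, ⟨hs1, hs2, hsp⟩, hrs, hrp', hsp', hd0⟩ := hTm _ hx0
  simp only at hr1 hr2 hrp hs1 hs2 hsp hrs hrp' hsp' hd0
  have hcop : IsCoprime (r : ℤ) (s : ℤ) := by
    rw [Nat.isCoprime_iff_coprime]
    exact (Nat.coprime_primes hrp hsp).2 hrs
  have hcop' : IsCoprime (r : ℤ) (-(s : ℤ)) := hcop.neg_right
  have hndiv : ∀ x : ℕ, x.Prime → x ≠ p → ¬ (p : ℤ) ∣ (x : ℤ) := by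
    intro x hx hxp hd
    have : p ∣ x := by exact_mod_cast hd
    exact hxp ((Nat.prime_dvd_prime_iff_eq hpp hx).1 this).symm
  have hsub : T ⊆ (T.filter fun x => (p : ℤ) ^ 2 ∣ (r : ℤ) * x.2 - (s : ℤ) * x.1) ∪
      (T.filter fun x => (p : ℤ) ^ 2 ∣ (r : ℤ) * x.2 - (-(s : ℤ)) * x.1) := by
    intro x hx
    obtain ⟨⟨hx1, hx2, hx3⟩, ⟨hy1, hy2, hy3⟩, hxy, hxp, hyp, hd⟩ := hTm _ hx
    have h1 : (p : ℤ) ^ 2 ∣ (u * w) * (((r : ℤ) * x.2 - (s : ℤ) * x.1) *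
        ((r : ℤ) * x.2 - (-(s : ℤ)) * x.1)) := by
      obtain ⟨k0, hk0⟩ := hd0
      obtain ⟨k, hk⟩ := hd
      exact ⟨w * (x.2 : ℤ) ^ 2 * k0 - w * (s : ℤ) ^ 2 * k, by
        linear_combination (w * (x.2 : ℤ) ^ 2) * hk0 - (w * (s : ℤ) ^ 2) * hk⟩
    have hcu : IsCoprime ((p : ℤ) ^ 2) (u * w) :=
      (((Prime.coprime_iff_not_dvd hpZ).2 hu).mul_right
        ((Prime.coprime_iff_not_dvd hpZ).2 hw)).pow_left
    have h2 := hcu.dvd_of_dvd_mul_left h1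
    by_cases h3 : (p : ℤ) ∣ (r : ℤ) * x.2 - (s : ℤ) * x.1
    · have h4 : ¬ (p : ℤ) ∣ (r : ℤ) * x.2 - (-(s : ℤ)) * x.1 := by
        intro h4
        have h5 : (p : ℤ) ∣ 2 * ((r : ℤ) * x.2) := by
          have := dvd_add h3 h4
          have he : (r : ℤ) * x.2 - (s : ℤ) * x.1 + ((r : ℤ) * x.2 - (-(s : ℤ)) * x.1)
              = 2 * ((r : ℤ) * x.2) := by ring
          rwa [he] at this
        rcases hpZ.dvd_or_dvd h5 with h6 | h6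
        · have : p ∣ 2 := by exact_mod_cast h6
          have := Nat.le_of_dvd (by norm_num) this
          omega
        · rcases hpZ.dvd_or_dvd h6 with h7 | h7
          · exact hndiv r hrp hrp' h7
          · exact hndiv _ hy3 hyp h7
      refine mem_union_left _ (mem_filter.2 ⟨hx, ?_⟩)
      exact (((Prime.coprime_iff_not_dvd hpZ).2 h4).pow_left).dvd_of_dvd_mul_right h2
    · refine mem_union_right _ (mem_filter.2 ⟨hx, ?_⟩)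
      exact (((Prime.coprime_iff_not_dvd hpZ).2 h3).pow_left).dvd_of_dvd_mul_left h2
  have hpp1 : ((P : ℤ) + 1) ^ 2 ≤ (p : ℤ) ^ 2 := by
    have : (P : ℤ) + 1 ≤ p := by exact_mod_cast hp1
    exact pow_le_pow_left₀ (by positivity) this 2
  have hPz : (0 : ℤ) ≤ P := by positivity
  have bd : ∀ a b : ℕ, P < a → a ≤ 4 * P → P < b → b ≤ 4 * P →
      0 < (a : ℤ) * b ∧ (a : ℤ) * b ≤ 16 * (P : ℤ) ^ 2 := by
    intro a b ha1 ha2 hb1 hb2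
    have h1 : (0 : ℤ) < a := by exact_mod_cast (by omega : 0 < a)
    have h2 : (0 : ℤ) < b := by exact_mod_cast (by omega : 0 < b)
    have h3 : (a : ℤ) ≤ 4 * P := by exact_mod_cast ha2
    have h4 : (b : ℤ) ≤ 4 * P := by exact_mod_cast hb2
    refine ⟨mul_pos h1 h2, ?_⟩
    calc (a : ℤ) * b ≤ (4 * P) * (4 * P) := mul_le_mul h3 h4 h2.le (by positivity)
      _ = 16 * (P : ℤ) ^ 2 := by ring
  have c1 : (T.filter fun x => (p : ℤ) ^ 2 ∣ (r : ℤ) * x.2 - (s : ℤ) * x.1).card ≤ 93 := by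
    refine class_le P r p hr1 hpp.ne_zero _ hcop _ (-15) ?_
    intro x hx
    rw [mem_filter] at hx
    obtain ⟨⟨hx1, hx2, hx3⟩, ⟨hy1, hy2, hy3⟩, hxy, hxp, hyp, hd⟩ := hTm _ hx.1
    refine ⟨hx1, hx2, hx.2, ?_⟩
    obtain ⟨k, hk⟩ := hx.2
    have b1 := bd r x.2 hr1 hr2 hy1 hy2
    have b2 := bd s x.1 hs1 hs2 hx1 hx2
    rw [hk]
    have hp0 : (0 : ℤ) < (p : ℤ) ^ 2 := pow_pos (by exact_mod_cast hpp.pos) 2
    have hlo : -16 < k := by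
      by_contra hh
      push Not at hh
      have : (p : ℤ) ^ 2 * k ≤ (p : ℤ) ^ 2 * (-16) := mul_le_mul_of_nonneg_left hh hp0.le
      nlinarith
    have hhi : k < 16 := by
      by_contra hh
      push Not at hh
      have : (p : ℤ) ^ 2 * 16 ≤ (p : ℤ) ^ 2 * k := mul_le_mul_of_nonneg_left hh hp0.le
      nlinarith
    exact ⟨mul_le_mul_of_nonneg_left (by omega) hp0.le,
      mul_le_mul_of_nonneg_left (by omega) hp0.le⟩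
  have c2 : (T.filter fun x => (p : ℤ) ^ 2 ∣ (r : ℤ) * x.2 - (-(s : ℤ)) * x.1).card ≤ 93 := by
    refine class_le P r p hr1 hpp.ne_zero _ hcop' _ 1 ?_
    intro x hx
    rw [mem_filter] at hx
    obtain ⟨⟨hx1, hx2, hx3⟩, ⟨hy1, hy2, hy3⟩, hxy, hxp, hyp, hd⟩ := hTm _ hx.1
    refine ⟨hx1, hx2, hx.2, ?_⟩
    obtain ⟨k, hk⟩ := hx.2
    have b1 := bd r x.2 hr1 hr2 hy1 hy2
    have b2 := bd s x.1 hs1 hs2 hx1 hx2
    rw [hk]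
    have hp0 : (0 : ℤ) < (p : ℤ) ^ 2 := pow_pos (by exact_mod_cast hpp.pos) 2
    have hlo : 0 < k := by
      by_contra hh
      push Not at hh
      have : (p : ℤ) ^ 2 * k ≤ (p : ℤ) ^ 2 * 0 := mul_le_mul_of_nonneg_left hh hp0.le
      nlinarith
    have hhi : k < 32 := by
      by_contra hh
      push Not at hh
      have : (p : ℤ) ^ 2 * 32 ≤ (p : ℤ) ^ 2 * k := mul_le_mul_of_nonneg_left hh hp0.le
      nlinarith
    exact ⟨mul_le_mul_of_nonneg_left (by omega) hp0.le,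
      mul_le_mul_of_nonneg_left (by omega) hp0.le⟩
  exact (card_le_card hsub).trans ((card_union_le _ _).trans (by omega))

end Pool.Agent.Lib.MP_6cded1_nt.ML
end

section

/-!
# Grid points for one value of `h`

`y = gp W t j ∈ [0, 1]`, `|v y - A| ≤ η v < 1/2`, so `0 ≤ A ≤ v`.  Two such `A` satisfy `v ∣ (A₁ - A₂) v'`, so `(v / gcd v v') ∣ A₁ - A₂`: at most `gcd + 1 ≤ 2 gcd` values in `[0, v]`.  Each costs `≤ 3 η W` grid points (`grid_interval`).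
-/

set_option autoImplicit false

open Finset Pool.Agent.Lib.MP_6cded1_nt.ML

namespace Pool.Agent.Lib.MP_6cded1_nt.M3

/-- the numerators in `[0, v]` with `v ∣ A v' - h` -/
private theorem card_num (v v' : ℕ) (hv : 1 ≤ v) (h : ℤ) (S : Finset ℤ)
    (hS : ∀ A ∈ S, 0 ≤ A ∧ A ≤ v ∧ (v : ℤ) ∣ A * v' - h) : S.card ≤ 2 * Nat.gcd v v' := by
  classical
  obtain ⟨v1, v1', hco, e1, e2⟩ := Nat.exists_coprime v v'
  set g := Nat.gcd v v' with hg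
  have hgpos : 0 < g := Nat.gcd_pos_of_pos_left _ hv
  have hv1 : 0 < v1 := by
    rcases Nat.eq_zero_or_pos v1 with h | h
    · rw [h] at e1
      omega
    · exact h
  have hmap : ∀ A ∈ S, A / (v1 : ℤ) ∈ Icc (0 : ℤ) g := by
    intro A hA
    obtain ⟨h1, h2, -⟩ := hS A hA
    rw [mem_Icc]
    refine ⟨Int.ediv_nonneg h1 (by positivity), ?_⟩
    have h3 : A / (v1 : ℤ) ≤ ((v1 * g : ℕ) : ℤ) / v1 := by
      apply Int.ediv_le_ediv (by exact_mod_cast hv1)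
      rw [e1] at h2
      exact_mod_cast h2
    refine h3.trans ?_
    push_cast
    rw [Int.mul_ediv_cancel_left _ (by exact_mod_cast hv1.ne')]
  have hinj : Set.InjOn (fun A : ℤ => A / (v1 : ℤ)) (S : Set ℤ) := by
    intro A hA B hB hAB
    obtain ⟨-, -, hA3⟩ := hS A hA
    obtain ⟨-, -, hB3⟩ := hS B hB
    have h0 : (v : ℤ) ∣ (A - B) * v' := by
      have := dvd_sub hA3 hB3
      have e : A * v' - h - (B * v' - h) = (A - B) * (v' : ℤ) := by ring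
      rwa [e] at this
    have h2 : (v1 : ℤ) ∣ (A - B) * v1' := by
      obtain ⟨c, hc⟩ := h0
      refine ⟨c, ?_⟩
      have hg' : (g : ℤ) ≠ 0 := by exact_mod_cast hgpos.ne'
      have e1' : (v : ℤ) = v1 * g := by exact_mod_cast e1
      have e2' : (v' : ℤ) = v1' * g := by exact_mod_cast e2
      rw [e1', e2'] at hc
      apply mul_right_cancel₀ hg'
      linear_combination hc
    have h3 : (v1 : ℤ) ∣ A - B :=
      IsCoprime.dvd_of_dvd_mul_right (Nat.isCoprime_iff_coprime.mpr hco) h2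
    have h4 : A % v1 = B % v1 :=
      Int.emod_eq_emod_iff_emod_sub_eq_zero.mpr (Int.emod_eq_zero_of_dvd h3)
    have h5 := Int.mul_ediv_add_emod A v1
    have h6 := Int.mul_ediv_add_emod B v1
    have h7 : A / (v1 : ℤ) = B / v1 := hAB
    rw [← h5, ← h6, h4, h7]
  have := card_le_card_of_injOn _ hmap hinj
  rw [Int.card_Icc] at this
  omega

open Classical in
theorem tri_grid3 (W v v' : ℕ) (hW : 1 ≤ W) (hv : 1 ≤ v) (h : ℤ) (η t : ℝ) (hη : 1 / (W : ℝ) ≤ η) (hηv : η * v < 1 / 2)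
    (ht : 0 ≤ t) (ht' : t ≤ 1 / W) :
    (((range W).filter fun j => ∃ A : ℤ, (v : ℤ) ∣ A * v' - h ∧ |gp W t j - A / v| ≤ η).card : ℝ) ≤
      6 * (Nat.gcd v v' : ℝ) * η * W := by
  classical
  have hW0 : (0 : ℝ) < W := by exact_mod_cast hW
  have hv0 : (0 : ℝ) < v := by exact_mod_cast hv
  have hη0 : 0 ≤ η := le_trans (by positivity) hη
  set S : Finset ℤ := (Icc (0 : ℤ) v).filter fun A => (v : ℤ) ∣ A * v' - h with hS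
  have hScard : S.card ≤ 2 * Nat.gcd v v' := by
    refine card_num v v' hv h S fun A hA => ?_
    rw [hS, mem_filter, mem_Icc] at hA
    exact ⟨hA.1.1, hA.1.2, hA.2⟩
  have hsub : ((range W).filter fun j => ∃ A : ℤ, (v : ℤ) ∣ A * v' - h ∧ |gp W t j - A / v| ≤ η) ⊆
      S.biUnion fun A => (range W).filter fun j => |gp W t j - A / v| ≤ η := by
    intro j hj
    rw [mem_filter] at hj
    obtain ⟨hj, A, hA1, hA2⟩ := hj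
    rw [mem_biUnion]
    refine ⟨A, ?_, mem_filter.2 ⟨hj, hA2⟩⟩
    have hy0 : 0 ≤ gp W t j := by
      unfold gp
      positivity
    have hy1 : gp W t j ≤ 1 := by
      unfold gp
      have h1 : (j : ℝ) + 1 ≤ W := by exact_mod_cast mem_range.1 hj
      have h2 : (j : ℝ) / W ≤ (W - 1) / W := div_le_div_of_nonneg_right (by linarith) hW0.le
      have h3 : 1 / (W : ℝ) + (W - 1) / W = 1 := by field_simp; ring
      linarith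
    have h1 : |(v : ℝ) * gp W t j - A| < 1 / 2 := by
      have e : (v : ℝ) * gp W t j - A = v * (gp W t j - A / v) := by field_simp
      rw [e, abs_mul, abs_of_pos hv0]
      calc (v : ℝ) * |gp W t j - A / v| ≤ v * η := mul_le_mul_of_nonneg_left hA2 hv0.le
        _ < 1 / 2 := by linarith
    rw [abs_lt] at h1
    have h2 : (v : ℝ) * gp W t j ≤ v := by nlinarith
    have h3 : 0 ≤ (v : ℝ) * gp W t j := by positivity
    rw [hS, mem_filter, mem_Icc]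
    refine ⟨⟨?_, ?_⟩, hA1⟩
    · have : (-1 : ℝ) < A := by linarith [h1.2]
      have : (-1 : ℤ) < A := by exact_mod_cast this
      omega
    · have : (A : ℝ) < v + 1 := by linarith [h1.1]
      have : A < v + 1 := by exact_mod_cast this
      omega
  have h1 := (card_le_card hsub).trans card_biUnion_le
  have h2 : (((range W).filter fun j => ∃ A : ℤ, (v : ℤ) ∣ A * v' - h ∧ |gp W t j - A / v| ≤ η).card : ℝ) ≤
      ∑ A ∈ S, (((range W).filter fun j => |gp W t j - (A : ℝ) / v| ≤ η).card : ℝ) := by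
    exact_mod_cast h1
  refine h2.trans ?_
  calc ∑ A ∈ S, (((range W).filter fun j => |gp W t j - (A : ℝ) / v| ≤ η).card : ℝ)
      ≤ ∑ A ∈ S, 3 * η * W := sum_le_sum fun A _ => by
        convert grid_interval W hW t ((A : ℝ) / v) η hη
    _ = S.card * (3 * η * W) := by rw [sum_const, nsmul_eq_mul]
    _ ≤ (2 * Nat.gcd v v' : ℕ) * (3 * η * W) := by
        apply mul_le_mul_of_nonneg_right (by exact_mod_cast hScard) (by positivity)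
    _ = 6 * (Nat.gcd v v' : ℝ) * η * W := by push_cast; ring

end Pool.Agent.Lib.MP_6cded1_nt.M3
end

section

/-!
# Structure of a near-coincidence

`h = A v' - A' v ≠ 0`; `|h| = v v' |A/v - A'/v'| ≤ g p² g' p'² (2 * 2^j + 2 * 2^j') / N ≤ 512 P⁴ g g' (2^j + 2^j') / N` (`p, p' ≤ 4P`, `sts_basic`).  As `g g' 2^j, g g' 2^j' ≤ κ κ'` this is `≤ 1024 P⁴ κ κ' / N < P` (`hsm3`).  So `0 < |h| < P < p, p'` and neither `p` nor `p'` divides `h`.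
If `p = p'` then `p² ∣ v, v'`, so `p ∣ h`: contradiction.
-/

set_option autoImplicit false

open Finset Pool.Agent.Lib.MP_6cded1_nt.ML

namespace Pool.Agent.Lib.MP_6cded1_nt.M3

theorem tri_struct3 (N P : ℕ) (hN : 1 ≤ N) (hP : 1 ≤ P) (S : Finset (ℕ × ℕ)) (Λ : ℝ → Prop) (l : ℝ → ℕ × ℕ)
    (hl : Lbl N S Λ l) (hsm3 : ∀ s ∈ S, ∀ s' ∈ S, 1024 * kap s * kap s' * P ^ 3 < N) (y : ℝ) (s s' : Σ _ : ℕ, ℕ)
    (hs : s ∈ sts P Λ l y) (hs' : s' ∈ sts P Λ l y) (hd : Df l y s s') :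
    s.1 ≠ s'.1 ∧ ¬ ((s.1 : ℤ) ∣ fA l y s * fv l y s' - fA l y s' * fv l y s) ∧
      ¬ ((s'.1 : ℤ) ∣ fA l y s * fv l y s' - fA l y s' * fv l y s) ∧
      |((fA l y s * fv l y s' - fA l y s' * fv l y s : ℤ) : ℝ)| ≤
        512 * P ^ 4 * ((lab l y s).1 * (lab l y s').1) * (2 ^ (lab l y s).2 + 2 ^ (lab l y s').2) / N := by
  obtain ⟨hp, hPp, hpP, -, -, hS, hg1, -, -, -, hA⟩ := sts_basic N P S Λ l hl y s hs
  obtain ⟨hp', hPp', hpP', -, -, hS', hg1', -, -, -, hA'⟩ := sts_basic N P S Λ l hl y s' hs'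
  have hsm := hsm3 _ hS _ hS'
  unfold Df at hd
  have hv : fv l y s = (lab l y s).1 * s.1 ^ 2 := rfl
  have hv' : fv l y s' = (lab l y s').1 * s'.1 ^ 2 := rfl
  unfold kap at hsm
  obtain ⟨v, ev⟩ : ∃ v, v = fv l y s := ⟨_, rfl⟩
  obtain ⟨v', ev'⟩ : ∃ v', v' = fv l y s' := ⟨_, rfl⟩
  obtain ⟨A, eA⟩ : ∃ A, A = fA l y s := ⟨_, rfl⟩
  obtain ⟨A', eA'⟩ : ∃ A', A' = fA l y s' := ⟨_, rfl⟩
  obtain ⟨g, eg⟩ : ∃ g, g = (lab l y s).1 := ⟨_, rfl⟩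
  obtain ⟨g', eg'⟩ : ∃ g', g' = (lab l y s').1 := ⟨_, rfl⟩
  obtain ⟨j, ej⟩ : ∃ j, j = (lab l y s).2 := ⟨_, rfl⟩
  obtain ⟨j', ej'⟩ : ∃ j', j' = (lab l y s').2 := ⟨_, rfl⟩
  obtain ⟨p, ep⟩ : ∃ p, p = s.1 := ⟨_, rfl⟩
  obtain ⟨p', ep'⟩ : ∃ p', p' = s'.1 := ⟨_, rfl⟩
  rw [← ev, ← eA, ← ej] at hA
  rw [← ev', ← eA', ← ej'] at hA'
  rw [← ev, ← ev', ← eA, ← eA'] at hd
  rw [← ev, ← eg, ← ep] at hv
  rw [← ev', ← eg', ← ep'] at hv'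
  rw [← eg] at hg1
  rw [← eg'] at hg1'
  rw [← ep] at hp hPp hpP
  rw [← ep'] at hp' hPp' hpP'
  rw [← eg, ← eg', ← ej, ← ej'] at hsm
  rw [← ev, ← ev', ← eA, ← eA', ← ep, ← ep', ← eg, ← eg', ← ej, ← ej']
  have hN0 : (0 : ℝ) < N := by exact_mod_cast hN
  have hP1 : (1 : ℝ) ≤ P := by exact_mod_cast hP
  have hpR : (p : ℝ) ≤ 4 * P := by exact_mod_cast hpP
  have hpR' : (p' : ℝ) ≤ 4 * P := by exact_mod_cast hpP'
  have hp0 : (0 : ℝ) < p := by exact_mod_cast hp.pos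
  have hp0' : (0 : ℝ) < p' := by exact_mod_cast hp'.pos
  have hg0 : (0 : ℝ) < g := by exact_mod_cast hg1
  have hg0' : (0 : ℝ) < g' := by exact_mod_cast hg1'
  have hvR : (v : ℝ) = g * p ^ 2 := by rw [hv]; push_cast; ring
  have hvR' : (v' : ℝ) = g' * p' ^ 2 := by rw [hv']; push_cast; ring
  have hv0 : (0 : ℝ) < v := by rw [hvR]; positivity
  have hv0' : (0 : ℝ) < v' := by rw [hvR']; positivity
  -- the main bound
  have hmain : |((A * v' - A' * v : ℤ) : ℝ)| ≤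
      512 * P ^ 4 * (g * g') * (2 ^ j + 2 ^ j') / N := by
    push_cast
    have e1 : (A : ℝ) * v' - A' * v = v * v' * ((y - A' / v') - (y - A / v)) := by
      field_simp
      ring
    rw [e1, abs_mul, abs_of_pos (mul_pos hv0 hv0')]
    have h1 : |(y - (A' : ℝ) / v') - (y - A / v)| ≤ 2 * 2 ^ j' / N + 2 * 2 ^ j / N :=
      (abs_sub _ _).trans (add_le_add hA' hA)
    have h2 : (v : ℝ) * v' ≤ g * g' * ((4 * P) ^ 2 * (4 * P) ^ 2) := by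
      rw [hvR, hvR']
      have h3 : (g : ℝ) * p ^ 2 * (g' * p' ^ 2) = g * g' * (p ^ 2 * p' ^ 2) := by ring
      rw [h3]
      gcongr
    calc (v : ℝ) * v' * |(y - (A' : ℝ) / v') - (y - A / v)|
        ≤ (g * g' * ((4 * P) ^ 2 * (4 * P) ^ 2)) * (2 * 2 ^ j' / N + 2 * 2 ^ j / N) := by
          gcongr
      _ = 512 * P ^ 4 * (g * g') * (2 ^ j + 2 ^ j') / N := by ring
  have hsmall : |((A * v' - A' * v : ℤ) : ℝ)| < P := by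
    refine hmain.trans_lt ?_
    rw [div_lt_iff₀ hN0]
    have h1 : (1 : ℝ) ≤ 2 ^ j := one_le_pow₀ (by norm_num)
    have h1' : (1 : ℝ) ≤ 2 ^ j' := one_le_pow₀ (by norm_num)
    have h2 : (2 : ℝ) ^ j + 2 ^ j' ≤ 2 * (2 ^ j * 2 ^ j') := by nlinarith
    have h3 : 512 * (P : ℝ) ^ 4 * ((g : ℝ) * (g' : ℝ)) * ((2 : ℝ) ^ j + (2 : ℝ) ^ j') ≤
        512 * (P : ℝ) ^ 4 * ((g : ℝ) * (g' : ℝ)) * (2 * ((2 : ℝ) ^ j * (2 : ℝ) ^ j')) := by gcongr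
    have h4 : 512 * (P : ℝ) ^ 4 * ((g : ℝ) * (g' : ℝ)) * (2 * ((2 : ℝ) ^ j * (2 : ℝ) ^ j')) =
        (P : ℝ) * (1024 * ((g : ℝ) * 2 ^ j) * ((g' : ℝ) * 2 ^ j') * (P : ℝ) ^ 3) := by ring
    have h5 : (P : ℝ) * (1024 * ((g : ℝ) * 2 ^ j) * ((g' : ℝ) * 2 ^ j') * (P : ℝ) ^ 3) < (P : ℝ) * N := by
      apply mul_lt_mul_of_pos_left hsm
      linarith
    linarith
  have hne : A * (v' : ℤ) - A' * v ≠ 0 := sub_ne_zero.2 hd
  have hsmallZ : |A * (v' : ℤ) - A' * v| < P := by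
    have h1 : ((|A * (v' : ℤ) - A' * v| : ℤ) : ℝ) < (P : ℤ) := by
      rw [Int.cast_abs]
      exact_mod_cast hsmall
    exact_mod_cast h1
  have key : ∀ r : ℕ, P < r → ¬ ((r : ℤ) ∣ A * v' - A' * v) := by
    intro r hr hdv
    apply hne
    apply Int.eq_zero_of_abs_lt_dvd hdv
    refine hsmallZ.trans ?_
    exact_mod_cast hr
  refine ⟨?_, key p hPp, key p' hPp', hmain⟩
  intro hpp
  apply key p hPp
  rw [hv, hv', ← hpp]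
  push_cast
  exact ⟨A * (g' * p) - A' * (g * p), by ring⟩

end Pool.Agent.Lib.MP_6cded1_nt.M3
end

section

/-!
# The sum over one index class

`v₁ = g₁ p²`, `v₂ = g₂ p₂²` (`p₂ = x.2.2.1`), `gcd v₁ v₂ = gcd g₁ g₂ =: γ` (`p ∤ g₂`, `p ≠ p₂`, `p₂ ∤ g₁`, primes).  By `tri_grid3` with `η = 2 * 2^j₁ / N` (`η v₁ = 2 κ₁ p²/N ≤ 32 κ₁ P²/N < 1/2`, `η ≥ 1/N ≥ 1/W`) each inner card is `≤ 12 γ 2^j₁ W / N`.
Number of `x ∈ I`: `x.1` is a nonzero multiple of `γ` with `|x.1| ≤ X₂ = 1024 P⁴ g₁ κ₂ / N`: at most `2 X₂ / γ` values; `x.2.1` is nonzero, `|x.2.1| ≤ X₃ = 1024 P⁴ g₁ κ₃/N`: at most `2 X₃`; given these `(p₂, p₃)` is in the set of `tri_congr` with `u = x.2.1 g₂`, `w = x.1 g₃`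
(`p ∤ u, w`): at most 186.  Total `≤ (2 X₂/γ)(2 X₃) 186 * 12 γ 2^j₁ W/N = 8928 X₂ X₃ 2^j₁ W / N` and `g₁² 2^j₁ ≤ κ₁²`.
-/

set_option autoImplicit false

open Finset Pool.Agent.Lib.MP_6cded1_nt.ML

namespace Pool.Agent.Lib.MP_6cded1_nt.M3

private theorem card_mult (γ : ℕ) (hγ : 1 ≤ γ) (X : ℝ) (hX : 0 ≤ X) (S : Finset ℤ)
    (hS : ∀ a ∈ S, a ≠ 0 ∧ |(a : ℝ)| ≤ X ∧ (γ : ℤ) ∣ a) : (S.card : ℝ) ≤ 2 * X / γ := by
  classical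
  have hg0 : (0 : ℝ) < γ := by exact_mod_cast hγ
  have hgz : (γ : ℤ) ≠ 0 := by
    have : (γ : ℤ) ≥ 1 := by exact_mod_cast hγ
    omega
  set K : ℕ := ⌊X / γ⌋₊ with hK
  have hKX : (K : ℝ) ≤ X / γ := Nat.floor_le (div_nonneg hX hg0.le)
  have hmaps : ∀ a ∈ S, a / (γ : ℤ) ∈ (Icc (-(K : ℤ)) K).erase 0 := by
    intro a ha
    obtain ⟨h1, h2, k, rfl⟩ := hS a ha
    rw [Int.mul_ediv_cancel_left _ hgz]
    push_cast at h2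
    rw [abs_mul, abs_of_pos hg0] at h2
    have h3 : |(k : ℝ)| ≤ X / γ := by
      rw [le_div_iff₀ hg0]
      linarith
    have h4 : k.natAbs ≤ K := by
      rw [hK]
      apply Nat.le_floor
      rw [Nat.cast_natAbs]
      push_cast
      exact h3
    have h5 : k ≠ 0 := by
      rintro rfl
      exact h1 (mul_zero _)
    rw [mem_erase, mem_Icc]
    refine ⟨h5, ?_, ?_⟩ <;> omega
  have hinj : Set.InjOn (fun a : ℤ => a / (γ : ℤ)) (S : Set ℤ) := by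
    intro a ha b hb hab
    obtain ⟨_, _, k, rfl⟩ := hS a ha
    obtain ⟨_, _, l, rfl⟩ := hS b hb
    simp only [Int.mul_ediv_cancel_left _ hgz] at hab
    rw [hab]
  have hc := card_le_card_of_injOn _ hmaps hinj
  have hc2 : ((Icc (-(K : ℤ)) K).erase 0).card = 2 * K := by
    rw [card_erase_of_mem (by rw [mem_Icc]; constructor <;> omega), Int.card_Icc]
    omega
  rw [hc2] at hc
  have hc3 : (S.card : ℝ) ≤ 2 * K := by exact_mod_cast hc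
  have : 2 * X / γ = 2 * (X / γ) := by ring
  rw [this]
  linarith

private theorem gcd_eq (p r g g' : ℕ) (hp : p.Prime) (hr : r.Prime) (hpr : r ≠ p) (h1 : ¬ p ∣ g') (h2 : ¬ r ∣ g) :
    Nat.gcd (g * p ^ 2) (g' * r ^ 2) = Nat.gcd g g' := by
  have hpr' : Nat.Coprime p r := (Nat.coprime_primes hp hr).2 (Ne.symm hpr)
  have hpg : Nat.Coprime p g' := (Nat.Prime.coprime_iff_not_dvd hp).2 h1
  have hrg : Nat.Coprime r g := (Nat.Prime.coprime_iff_not_dvd hr).2 h2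
  have e1 : Nat.Coprime (p ^ 2) (g' * r ^ 2) :=
    Nat.Coprime.mul_right (Nat.Coprime.pow_left 2 hpg) (Nat.Coprime.pow 2 2 hpr')
  rw [Nat.Coprime.gcd_mul_right_cancel _ e1]
  exact Nat.Coprime.gcd_mul_right_cancel_right _ (Nat.Coprime.pow_left 2 hrg)

open Classical in
theorem tri_index (N P W p : ℕ) (hN : 1 ≤ N) (hP : 2 ≤ P) (hNW : N ≤ W) (hp : p ∈ PP P) (s₁ s₂ s₃ : ℕ × ℕ)
    (h1 : 1 ≤ s₁.1) (h2 : 1 ≤ s₂.1) (h3 : 1 ≤ s₃.1) (hsm : 64 * kap s₁ * P ^ 2 < N) (t : ℝ) (ht : 0 ≤ t)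
    (ht' : t ≤ 1 / W) (hp2 : ¬ p ∣ s₂.1) (hp3 : ¬ p ∣ s₃.1) (I : Finset (ℤ × ℤ × ℕ × ℕ))
    (hI : ∀ x ∈ I, x.1 ≠ 0 ∧ x.2.1 ≠ 0 ∧ |(x.1 : ℝ)| ≤ 1024 * P ^ 4 * s₁.1 * kap s₂ / N ∧
      |(x.2.1 : ℝ)| ≤ 1024 * P ^ 4 * s₁.1 * kap s₃ / N ∧ ((Nat.gcd s₁.1 s₂.1 : ℕ) : ℤ) ∣ x.1 ∧
      ¬ (p : ℤ) ∣ x.1 ∧ ¬ (p : ℤ) ∣ x.2.1 ∧ x.2.2.1 ∈ PP P ∧ x.2.2.2 ∈ PP P ∧ x.2.2.1 ≠ x.2.2.2 ∧ x.2.2.1 ≠ p ∧
      x.2.2.2 ≠ p ∧ ¬ x.2.2.1 ∣ s₁.1 ∧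
      (p : ℤ) ^ 2 ∣ (x.2.1 * s₂.1) * (x.2.2.1 : ℤ) ^ 2 - (x.1 * s₃.1) * (x.2.2.2 : ℤ) ^ 2) :
    ∑ x ∈ I, (((range W).filter fun j => ∃ A : ℤ,
        ((s₁.1 * p ^ 2 : ℕ) : ℤ) ∣ A * ((s₂.1 * x.2.2.1 ^ 2 : ℕ) : ℤ) - x.1 ∧
        |gp W t j - A / ((s₁.1 * p ^ 2 : ℕ) : ℝ)| ≤ 2 * 2 ^ s₁.2 / N).card : ℝ) ≤
      8928 * (1024 * P ^ 4 / N) ^ 2 * (kap s₁ ^ 2 * kap s₂ * kap s₃) * W / N := by
  have hNr : (0 : ℝ) < N := by exact_mod_cast hN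
  have hWr : (0 : ℝ) < W := lt_of_lt_of_le hNr (by exact_mod_cast hNW)
  have hW1 : 1 ≤ W := le_trans hN hNW
  have hPr : (0 : ℝ) < P := by
    have : 0 < P := by omega
    exact_mod_cast this
  obtain ⟨⟨hp1, hp4⟩, hpp⟩ : (P < p ∧ p ≤ 4 * P) ∧ p.Prime := by
    unfold PP at hp
    rw [mem_filter, mem_Ioc] at hp
    exact hp
  have hpZ : Prime (p : ℤ) := Nat.prime_iff_prime_int.1 hpp
  have hγ1 : 1 ≤ Nat.gcd s₁.1 s₂.1 := Nat.gcd_pos_of_pos_left _ h1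
  set γ : ℕ := Nat.gcd s₁.1 s₂.1 with hγ
  have hγr : (0 : ℝ) < γ := by exact_mod_cast hγ1
  have hk1 := kap_nonneg s₁
  have hk2 := kap_nonneg s₂
  have hk3 := kap_nonneg s₃
  have hs1r : (0 : ℝ) ≤ s₁.1 := Nat.cast_nonneg _
  set X₂ : ℝ := 1024 * P ^ 4 * s₁.1 * kap s₂ / N with hX₂
  set X₃ : ℝ := 1024 * P ^ 4 * s₁.1 * kap s₃ / N with hX₃
  have hX₂0 : 0 ≤ X₂ := by rw [hX₂]; positivity
  have hX₃0 : 0 ≤ X₃ := by rw [hX₃]; positivity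
  have hinner : ∀ x ∈ I, (((range W).filter fun j => ∃ A : ℤ,
        ((s₁.1 * p ^ 2 : ℕ) : ℤ) ∣ A * ((s₂.1 * x.2.2.1 ^ 2 : ℕ) : ℤ) - x.1 ∧
        |gp W t j - A / ((s₁.1 * p ^ 2 : ℕ) : ℝ)| ≤ 2 * 2 ^ s₁.2 / N).card : ℝ) ≤
        12 * γ * 2 ^ s₁.2 * W / N := by
    intro x hx
    obtain ⟨_, _, _, _, _, _, _, hr, _, _, hrp, _, hrd, _⟩ := hI x hx
    have hrpr : x.2.2.1.Prime := by
      unfold PP at hr
      exact (mem_filter.1 hr).2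
    have hη : 1 / (W : ℝ) ≤ 2 * 2 ^ s₁.2 / N := by
      rw [div_le_div_iff₀ hWr hNr, one_mul]
      have h5 : (N : ℝ) ≤ W := by exact_mod_cast hNW
      have h6 : (1 : ℝ) ≤ 2 ^ s₁.2 := one_le_pow₀ (by norm_num)
      nlinarith
    have hηv : 2 * 2 ^ s₁.2 / (N : ℝ) * ((s₁.1 * p ^ 2 : ℕ) : ℝ) < 1 / 2 := by
      have h5 : (p : ℝ) ≤ 4 * P := by exact_mod_cast hp4
      have h6 : (p : ℝ) ^ 2 ≤ 16 * P ^ 2 := by nlinarith [Nat.cast_nonneg (α := ℝ) p]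
      have h7 : 2 * 2 ^ s₁.2 / (N : ℝ) * ((s₁.1 * p ^ 2 : ℕ) : ℝ) = 2 * kap s₁ * p ^ 2 / N := by
        unfold kap
        push_cast
        ring
      rw [h7, div_lt_div_iff₀ hNr (by norm_num)]
      have h8 : 2 * kap s₁ * (p : ℝ) ^ 2 ≤ 2 * kap s₁ * (16 * P ^ 2) :=
        mul_le_mul_of_nonneg_left h6 (by positivity)
      linarith
    have h4 := tri_grid3 W (s₁.1 * p ^ 2) (s₂.1 * x.2.2.1 ^ 2) hW1
      (Nat.mul_pos h1 (pow_pos hpp.pos 2)) x.1 (2 * 2 ^ s₁.2 / N) t hη hηv ht ht'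
    rw [gcd_eq p x.2.2.1 s₁.1 s₂.1 hpp hrpr hrp hp2 hrd] at h4
    refine h4.trans (le_of_eq ?_)
    ring
  have hcard : (I.card : ℝ) ≤ 186 * ((2 * X₂ / γ) * (2 * X₃)) := by
    have hA : ((I.image fun x => x.1).card : ℝ) ≤ 2 * X₂ / γ := by
      refine card_mult γ hγ1 X₂ hX₂0 _ ?_
      intro a ha
      obtain ⟨x, hx, rfl⟩ := mem_image.1 ha
      obtain ⟨a1, _, a3, _, a5, _⟩ := hI x hx
      exact ⟨a1, a3, a5⟩
    have hB : ((I.image fun x => x.2.1).card : ℝ) ≤ 2 * X₃ := by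
      have := card_mult 1 le_rfl X₃ hX₃0 (I.image fun x => x.2.1) ?_
      · simpa using this
      intro a ha
      obtain ⟨x, hx, rfl⟩ := mem_image.1 ha
      obtain ⟨_, a2, _, a4, _⟩ := hI x hx
      exact ⟨a2, a4, by simp⟩
    have hC : I.card ≤ 186 * ((I.image fun x => x.1) ×ˢ (I.image fun x => x.2.1)).card := by
      refine card_le_mul_card_image_of_maps_to (f := fun x : ℤ × ℤ × ℕ × ℕ => (x.1, x.2.1)) ?_ 186 ?_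
      · intro x hx
        exact mem_product.2 ⟨mem_image_of_mem _ hx, mem_image_of_mem _ hx⟩
      · rintro ⟨a, b⟩ _
        rcases (I.filter fun x => (x.1, x.2.1) = (a, b)).eq_empty_or_nonempty with h0 | ⟨x0, hx0⟩
        · rw [h0]
          simp
        obtain ⟨hx0I, hx0e⟩ := mem_filter.1 hx0
        have ha : x0.1 = a := congrArg Prod.fst hx0e
        have hb : x0.2.1 = b := congrArg Prod.snd hx0e
        obtain ⟨_, _, _, _, _, pa, pb, _⟩ := hI x0 hx0I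
        rw [ha] at pa
        rw [hb] at pb
        have hu : ¬ (p : ℤ) ∣ b * (s₂.1 : ℤ) := by
          intro hd
          rcases hpZ.dvd_or_dvd hd with h5 | h5
          · exact pb h5
          · exact hp2 (by exact_mod_cast h5)
        have hw : ¬ (p : ℤ) ∣ a * (s₃.1 : ℤ) := by
          intro hd
          rcases hpZ.dvd_or_dvd hd with h5 | h5
          · exact pa h5
          · exact hp3 (by exact_mod_cast h5)
        refine le_trans (card_le_card_of_injOn (fun x : ℤ × ℤ × ℕ × ℕ => x.2.2) ?_ ?_)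
          (tri_congr P p hp hP (b * (s₂.1 : ℤ)) (a * (s₃.1 : ℤ)) hu hw)
        · intro x hx
          obtain ⟨hxI, hxe⟩ := mem_filter.1 hx
          have ha' : x.1 = a := congrArg Prod.fst hxe
          have hb' : x.2.1 = b := congrArg Prod.snd hxe
          obtain ⟨_, _, _, _, _, _, _, q1, q2, q3, q4, q5, _, q6⟩ := hI x hxI
          rw [ha', hb'] at q6
          exact mem_filter.2 ⟨mem_product.2 ⟨q1, q2⟩, q3, q4, q5, q6⟩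
        · intro x hx y hy hxy
          obtain ⟨_, hxe⟩ := mem_filter.1 (mem_coe.1 hx)
          obtain ⟨_, hye⟩ := mem_filter.1 (mem_coe.1 hy)
          have e1 : x.1 = y.1 := (congrArg Prod.fst hxe).trans (congrArg Prod.fst hye).symm
          have e2 : x.2.1 = y.2.1 := (congrArg Prod.snd hxe).trans (congrArg Prod.snd hye).symm
          exact Prod.ext e1 (Prod.ext e2 hxy)
    have hD : (I.card : ℝ) ≤ 186 * (((I.image fun x => x.1).card : ℝ) * ((I.image fun x => x.2.1).card : ℝ)) := by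
      rw [card_product] at hC
      exact_mod_cast hC
    refine hD.trans ?_
    have : ((I.image fun x => x.1).card : ℝ) * ((I.image fun x => x.2.1).card : ℝ) ≤ (2 * X₂ / γ) * (2 * X₃) :=
      mul_le_mul hA hB (Nat.cast_nonneg _) (by positivity)
    linarith
  calc ∑ x ∈ I, (((range W).filter fun j => ∃ A : ℤ,
        ((s₁.1 * p ^ 2 : ℕ) : ℤ) ∣ A * ((s₂.1 * x.2.2.1 ^ 2 : ℕ) : ℤ) - x.1 ∧
        |gp W t j - A / ((s₁.1 * p ^ 2 : ℕ) : ℝ)| ≤ 2 * 2 ^ s₁.2 / N).card : ℝ)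
      ≤ ∑ _x ∈ I, (12 * γ * 2 ^ s₁.2 * W / N : ℝ) := sum_le_sum hinner
    _ = I.card * (12 * γ * 2 ^ s₁.2 * W / N) := by rw [sum_const, nsmul_eq_mul]
    _ ≤ (186 * ((2 * X₂ / γ) * (2 * X₃))) * (12 * γ * 2 ^ s₁.2 * W / N) :=
        mul_le_mul_of_nonneg_right hcard (by positivity)
    _ = 8928 * (1024 * P ^ 4 / N) ^ 2 * (((s₁.1 : ℝ) ^ 2 * 2 ^ s₁.2) * kap s₂ * kap s₃) * W / N := by
        rw [hX₂, hX₃]
        field_simp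
        ring
    _ ≤ 8928 * (1024 * P ^ 4 / N) ^ 2 * (kap s₁ ^ 2 * kap s₂ * kap s₃) * W / N := by
        have h5 : (s₁.1 : ℝ) ^ 2 * 2 ^ s₁.2 ≤ kap s₁ ^ 2 := by
          unfold kap
          have h6 : (1 : ℝ) ≤ 2 ^ s₁.2 := one_le_pow₀ (by norm_num)
          have h7 : (0 : ℝ) ≤ (s₁.1 : ℝ) ^ 2 * 2 ^ s₁.2 := by positivity
          nlinarith
        gcongr

end Pool.Agent.Lib.MP_6cded1_nt.M3
end

section

/-!
# The sum over the grid of the number of triples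

For a triple `(x₁, x₂, x₃)` of star points of `y = gp W t j` as in the filter let `p_i = x_i.1`, `s_i = lab x_i`, `h₂ = A₁ v₂ - A₂ v₁`, `h₃ = A₁ v₃ - A₃ v₁`.  By `tri_struct3` (for the three pairs): `h₂, h₃ ≠ 0`, the `p_i` are distinct, `p₁ ∤ h₂, h₃`, `p₂ ∤ h₂`, `|h₂| ≤ 512 P⁴ g₁ g₂ (2^j₁ + 2^j₂)/N ≤ 1024 P⁴ g₁ κ₂ / N`
(`j₁ ≤ j₂`), `|h₃| ≤ 1024 P⁴ g₁ κ₃/N`; `gcd g₁ g₂ ∣ h₂`; `p₁ ∤ g₂, g₃` and `p₂ ∤ g₁` (`v_i = g_i p_i²`: if `p₁ ∣ g₂` then `p₁ ∣ h₂`; the same for the others).  Mod `p₁²`: `A₁ g₂ p₂² ≡ h₂`, `A₁ g₃ p₃² ≡ h₃`, hence `h₃ g₂ p₂² ≡ h₂ g₃ p₃²`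
(`h₃ (A₁ g₂ p₂²) ≡ h₂ (A₁ g₃ p₃²)`, both `≡ h₂ h₃`, and `p₁ ∤ A₁`).  So `(h₂, h₃, p₂, p₃)` is in the set `I(p₁, s₁, s₂, s₃)` of all such quadruples (a finite set: the conditions of `tri_index` bound everything), and `j` is in the inner set of `tri_index` with `A = A₁` (`v₁ ∣ A₁ v₂ - h₂ = A₂ v₁`).
For fixed `y` the map `(x₁, x₂, x₃) ↦ (p₁, s₁, s₂, s₃, h₂, h₃, p₂, p₃)` is injective (`sts_inj`).  Interchange the sums and use `tri_index`: `≤ ∑_{p₁} ∑_{s₁, s₂, s₃} 8928 (1024 P⁴/N)² κ₁² κ₂ κ₃ W/N ≤ 10^10 card(PP P) P⁸ (∑ κ)⁴ / N³ * W` (`∑ κ₁² ≤ (∑ κ₁)²`, `8928 * 1024² < 10^10`).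
-/

set_option autoImplicit false

open Finset Pool.Agent.Lib.MP_6cded1_nt.ML

namespace Pool.Agent.Lib.MP_6cded1_nt.M3

/-- Outer index: the first prime and the three labels. -/
private abbrev OIx : Type := ℕ × (ℕ × ℕ) × (ℕ × ℕ) × (ℕ × ℕ)

/-- Inner index `(h₂, h₃, p₂, p₃)`. -/
private abbrev IIx : Type := ℤ × ℤ × ℕ × ℕ

/-- The conditions on an inner index, exactly as in `tri_index`. -/
private def Cd (N P p : ℕ) (s₁ s₂ s₃ : ℕ × ℕ) (x : IIx) : Prop :=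
  x.1 ≠ 0 ∧ x.2.1 ≠ 0 ∧ |(x.1 : ℝ)| ≤ 1024 * P ^ 4 * s₁.1 * kap s₂ / N ∧
      |(x.2.1 : ℝ)| ≤ 1024 * P ^ 4 * s₁.1 * kap s₃ / N ∧ ((Nat.gcd s₁.1 s₂.1 : ℕ) : ℤ) ∣ x.1 ∧
      ¬ (p : ℤ) ∣ x.1 ∧ ¬ (p : ℤ) ∣ x.2.1 ∧ x.2.2.1 ∈ PP P ∧ x.2.2.2 ∈ PP P ∧ x.2.2.1 ≠ x.2.2.2 ∧ x.2.2.1 ≠ p ∧
      x.2.2.2 ≠ p ∧ ¬ x.2.2.1 ∣ s₁.1 ∧
      (p : ℤ) ^ 2 ∣ (x.2.1 * s₂.1) * (x.2.2.1 : ℤ) ^ 2 - (x.1 * s₃.1) * (x.2.2.2 : ℤ) ^ 2

/-- The grid condition, exactly as in `tri_index`. -/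
private def Gd (N W p : ℕ) (t : ℝ) (s₁ s₂ : ℕ × ℕ) (x : IIx) (j : ℕ) : Prop :=
  ∃ A : ℤ, ((s₁.1 * p ^ 2 : ℕ) : ℤ) ∣ A * ((s₂.1 * x.2.2.1 ^ 2 : ℕ) : ℤ) - x.1 ∧
        |gp W t j - A / ((s₁.1 * p ^ 2 : ℕ) : ℝ)| ≤ 2 * 2 ^ s₁.2 / N

open Classical in
/-- The set of inner indices of an outer index. -/
private noncomputable def Iset (N P p : ℕ) (s₁ s₂ s₃ : ℕ × ℕ) : Finset IIx :=
  if ¬ p ∣ s₂.1 ∧ ¬ p ∣ s₃.1 then
    ((Icc (-⌈1024 * (P : ℝ) ^ 4 * s₁.1 * kap s₂ / N⌉) ⌈1024 * (P : ℝ) ^ 4 * s₁.1 * kap s₂ / N⌉) ×ˢ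
      (Icc (-⌈1024 * (P : ℝ) ^ 4 * s₁.1 * kap s₃ / N⌉) ⌈1024 * (P : ℝ) ^ 4 * s₁.1 * kap s₃ / N⌉) ×ˢ
      PP P ×ˢ PP P).filter (Cd N P p s₁ s₂ s₃)
  else ∅

private theorem abs_le_ceil {h : ℤ} {X : ℝ} (hh : |(h : ℝ)| ≤ X) : h ∈ Icc (-⌈X⌉) ⌈X⌉ := by
  rw [mem_Icc]
  have h1 : ((|h| : ℤ) : ℝ) ≤ (⌈X⌉ : ℤ) := by
    rw [Int.cast_abs]
    exact hh.trans (Int.le_ceil X)
  have h2 : |h| ≤ ⌈X⌉ := by exact_mod_cast h1
  exact abs_le.1 h2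

private theorem mem_Iset {N P p : ℕ} {s₁ s₂ s₃ : ℕ × ℕ} {x : IIx} (h2 : ¬ p ∣ s₂.1) (h3 : ¬ p ∣ s₃.1)
    (hx : Cd N P p s₁ s₂ s₃ x) : x ∈ Iset N P p s₁ s₂ s₃ := by
  classical
  rw [Iset, if_pos ⟨h2, h3⟩, mem_filter]
  refine ⟨?_, hx⟩
  obtain ⟨-, -, a3, a4, -, -, -, a8, a9, -⟩ := hx
  simp only [mem_product]
  exact ⟨abs_le_ceil a3, abs_le_ceil a4, a8, a9⟩

open Classical in
/-- `tri_index` for `Iset`. -/
private theorem index_bound (N P W p : ℕ) (hN : 1 ≤ N) (hP : 2 ≤ P) (hNW : N ≤ W) (hp : p ∈ PP P) (s₁ s₂ s₃ : ℕ × ℕ)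
    (h1 : 1 ≤ s₁.1) (h2 : 1 ≤ s₂.1) (h3 : 1 ≤ s₃.1) (hsm : 64 * kap s₁ * P ^ 2 < N) (t : ℝ) (ht : 0 ≤ t)
    (ht' : t ≤ 1 / W) :
    ∑ x ∈ Iset N P p s₁ s₂ s₃, (((range W).filter fun j => Gd N W p t s₁ s₂ x j).card : ℝ) ≤
      8928 * (1024 * P ^ 4 / N) ^ 2 * (kap s₁ ^ 2 * kap s₂ * kap s₃) * W / N := by
  by_cases hc : ¬ p ∣ s₂.1 ∧ ¬ p ∣ s₃.1
  · have := tri_index N P W p hN hP hNW hp s₁ s₂ s₃ h1 h2 h3 hsm t ht ht' hc.1 hc.2 (Iset N P p s₁ s₂ s₃) ?_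
    · refine le_trans (le_of_eq ?_) this
      rfl
    · intro x hx
      rw [Iset, if_pos hc, mem_filter] at hx
      exact hx.2
  · rw [Iset, if_neg hc, sum_empty]
    have := kap_nonneg s₁
    have := kap_nonneg s₂
    have := kap_nonneg s₃
    positivity

/-- The index of a triple. -/
private noncomputable def tix3 (l : ℝ → ℕ × ℕ) (y : ℝ)
    (x : (Σ _ : ℕ, ℕ) × (Σ _ : ℕ, ℕ) × (Σ _ : ℕ, ℕ)) : Σ _ : OIx, IIx :=
  ⟨(x.1.1, lab l y x.1, lab l y x.2.1, lab l y x.2.2),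
    (fA l y x.1 * fv l y x.2.1 - fA l y x.2.1 * fv l y x.1,
      fA l y x.1 * fv l y x.2.2 - fA l y x.2.2 * fv l y x.1, x.2.1.1, x.2.2.1)⟩

open Classical in
/-- The set of all indices. -/
private noncomputable def Tset (N P : ℕ) (S : Finset (ℕ × ℕ)) : Finset (Σ _ : OIx, IIx) :=
  (PP P ×ˢ S ×ˢ S ×ˢ S).sigma fun a => Iset N P a.1 a.2.1 a.2.2.1 a.2.2.2

private theorem bound_h {N P g g' j j' : ℕ} {h : ℝ} (hj : j ≤ j')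
    (hh : |h| ≤ 512 * (P : ℝ) ^ 4 * ((g : ℝ) * g') * (2 ^ j + 2 ^ j') / N) :
    |h| ≤ 1024 * (P : ℝ) ^ 4 * g * kap (g', j') / N := by
  refine hh.trans ?_
  have h1 : (2 : ℝ) ^ j ≤ 2 ^ j' := pow_le_pow_right₀ (by norm_num) hj
  apply div_le_div_of_nonneg_right _ (Nat.cast_nonneg N)
  unfold kap
  have h2 : 1024 * (P : ℝ) ^ 4 * g * ((g' : ℝ) * 2 ^ j') =
      512 * (P : ℝ) ^ 4 * ((g : ℝ) * g') * (2 ^ j' + 2 ^ j') := by ring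
  simp only
  rw [h2]
  apply mul_le_mul_of_nonneg_left (by linarith)
  positivity

private theorem tix3_mem (N P : ℕ) (hN : 1 ≤ N) (hP : 2 ≤ P) (S : Finset (ℕ × ℕ)) (Λ : ℝ → Prop)
    (l : ℝ → ℕ × ℕ) (hl : Lbl N S Λ l)
    (hsm3 : ∀ s ∈ S, ∀ s' ∈ S, 1024 * kap s * kap s' * P ^ 3 < N) (W : ℕ) (t : ℝ) (j : ℕ)
    (x : (Σ _ : ℕ, ℕ) × (Σ _ : ℕ, ℕ) × (Σ _ : ℕ, ℕ))
    (hx1 : x.1 ∈ sts P Λ l (gp W t j)) (hx2 : x.2.1 ∈ sts P Λ l (gp W t j))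
    (hx3 : x.2.2 ∈ sts P Λ l (gp W t j))
    (hd12 : Df l (gp W t j) x.1 x.2.1) (hd13 : Df l (gp W t j) x.1 x.2.2) (hd23 : Df l (gp W t j) x.2.1 x.2.2)
    (hj2 : (lab l (gp W t j) x.1).2 ≤ (lab l (gp W t j) x.2.1).2)
    (hj3 : (lab l (gp W t j) x.1).2 ≤ (lab l (gp W t j) x.2.2).2) :
    tix3 l (gp W t j) x ∈ Tset N P S ∧
      Gd N W (tix3 l (gp W t j) x).1.1 t (tix3 l (gp W t j) x).1.2.1 (tix3 l (gp W t j) x).1.2.2.1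
        (tix3 l (gp W t j) x).2 j := by
  obtain ⟨s1, s2, s3⟩ := x
  simp only at hx1 hx2 hx3 hd12 hd13 hd23 hj2 hj3
  set y := gp W t j with hy
  have b1 := sts_basic N P S Λ l hl y s1 hx1
  have b2 := sts_basic N P S Λ l hl y s2 hx2
  have b3 := sts_basic N P S Λ l hl y s3 hx3
  obtain ⟨t1, t2, t2', t3⟩ := tri_struct3 N P hN (by omega) S Λ l hl hsm3 y s1 s2 hx1 hx2 hd12
  obtain ⟨t4, t5, t5', t6⟩ := tri_struct3 N P hN (by omega) S Λ l hl hsm3 y s1 s3 hx1 hx3 hd13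
  obtain ⟨t7, -, -, -⟩ := tri_struct3 N P hN (by omega) S Λ l hl hsm3 y s2 s3 hx2 hx3 hd23
  set A1 := fA l y s1 with hA1
  set A2 := fA l y s2 with hA2
  set A3 := fA l y s3 with hA3
  set h2 : ℤ := A1 * fv l y s2 - A2 * fv l y s1 with hh2
  set h3 : ℤ := A1 * fv l y s3 - A3 * fv l y s1 with hh3
  set g1 := (lab l y s1).1 with hg1
  set g2 := (lab l y s2).1 with hg2
  set g3 := (lab l y s3).1 with hg3
  have hv1 : (fv l y s1 : ℤ) = (g1 : ℤ) * (s1.1 : ℤ) ^ 2 := by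
    simp only [fv, ← hg1]; push_cast; rfl
  have hv2 : (fv l y s2 : ℤ) = (g2 : ℤ) * (s2.1 : ℤ) ^ 2 := by
    simp only [fv, ← hg2]; push_cast; rfl
  have hv3 : (fv l y s3 : ℤ) = (g3 : ℤ) * (s3.1 : ℤ) ^ 2 := by
    simp only [fv, ← hg3]; push_cast; rfl
  have hpr1 : Prime (s1.1 : ℤ) := Nat.prime_iff_prime_int.1 b1.1
  have hh2' : h2 = A1 * ((g2 : ℤ) * (s2.1 : ℤ) ^ 2) - A2 * ((g1 : ℤ) * (s1.1 : ℤ) ^ 2) := by
    rw [hh2, hv1, hv2]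
  have hh3' : h3 = A1 * ((g3 : ℤ) * (s3.1 : ℤ) ^ 2) - A3 * ((g1 : ℤ) * (s1.1 : ℤ) ^ 2) := by
    rw [hh3, hv1, hv3]
  have d1 : (s1.1 : ℤ) ∣ (s1.1 : ℤ) ^ 2 := dvd_pow_self _ two_ne_zero
  have d2 : (s2.1 : ℤ) ∣ (s2.1 : ℤ) ^ 2 := dvd_pow_self _ two_ne_zero
  have hndg2 : ¬ s1.1 ∣ g2 := by
    intro h
    apply t2
    have h' : (s1.1 : ℤ) ∣ (g2 : ℤ) := by exact_mod_cast h
    rw [hh2']
    exact dvd_sub ((h'.mul_right _).mul_left _) ((d1.mul_left _).mul_left _)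
  have hndg3 : ¬ s1.1 ∣ g3 := by
    intro h
    apply t5
    have h' : (s1.1 : ℤ) ∣ (g3 : ℤ) := by exact_mod_cast h
    rw [hh3']
    exact dvd_sub ((h'.mul_right _).mul_left _) ((d1.mul_left _).mul_left _)
  have hndg1 : ¬ s2.1 ∣ g1 := by
    intro h
    apply t2'
    have h' : (s2.1 : ℤ) ∣ (g1 : ℤ) := by exact_mod_cast h
    rw [hh2']
    exact dvd_sub ((d2.mul_left _).mul_left _) ((h'.mul_right _).mul_left _)
  have hndA1 : ¬ (s1.1 : ℤ) ∣ A1 := by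
    intro h
    apply t2
    rw [hh2']
    exact dvd_sub (h.mul_right _) ((d1.mul_left _).mul_left _)
  have hgcd : ((Nat.gcd g1 g2 : ℕ) : ℤ) ∣ h2 := by
    have e1 : ((Nat.gcd g1 g2 : ℕ) : ℤ) ∣ (g1 : ℤ) := by exact_mod_cast Nat.gcd_dvd_left g1 g2
    have e2 : ((Nat.gcd g1 g2 : ℕ) : ℤ) ∣ (g2 : ℤ) := by exact_mod_cast Nat.gcd_dvd_right g1 g2
    rw [hh2']
    exact dvd_sub ((e2.mul_right _).mul_left _) ((e1.mul_right _).mul_left _)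
  have c2 : (s1.1 : ℤ) ^ 2 ∣ A1 * ((g2 : ℤ) * (s2.1 : ℤ) ^ 2) - h2 := by
    refine ⟨A2 * g1, ?_⟩
    rw [hh2']
    ring
  have c3 : (s1.1 : ℤ) ^ 2 ∣ A1 * ((g3 : ℤ) * (s3.1 : ℤ) ^ 2) - h3 := by
    refine ⟨A3 * g1, ?_⟩
    rw [hh3']
    ring
  have hcong : (s1.1 : ℤ) ^ 2 ∣ (h3 * (g2 : ℤ)) * (s2.1 : ℤ) ^ 2 -
      (h2 * (g3 : ℤ)) * (s3.1 : ℤ) ^ 2 := by
    have h1 : (s1.1 : ℤ) ^ 2 ∣ A1 * ((h3 * (g2 : ℤ)) * (s2.1 : ℤ) ^ 2 -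
        (h2 * (g3 : ℤ)) * (s3.1 : ℤ) ^ 2) := by
      have e1 := (c2.mul_left h3)
      have e2 := (c3.mul_left h2)
      have e3 := dvd_sub e1 e2
      have e4 : h3 * (A1 * ((g2 : ℤ) * (s2.1 : ℤ) ^ 2) - h2) -
          h2 * (A1 * ((g3 : ℤ) * (s3.1 : ℤ) ^ 2) - h3) =
          A1 * ((h3 * (g2 : ℤ)) * (s2.1 : ℤ) ^ 2 - (h2 * (g3 : ℤ)) * (s3.1 : ℤ) ^ 2) := by
        ring
      rwa [e4] at e3
    have hcop : IsCoprime ((s1.1 : ℤ) ^ 2) A1 :=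
      IsCoprime.pow_left ((Prime.coprime_iff_not_dvd hpr1).2 hndA1)
    exact hcop.dvd_of_dvd_mul_left h1
  have hpp1 : s1.1 ∈ PP P := mem_filter.2 ⟨mem_Ioc.2 ⟨b1.2.1, b1.2.2.1⟩, b1.1⟩
  have hpp2 : s2.1 ∈ PP P := mem_filter.2 ⟨mem_Ioc.2 ⟨b2.2.1, b2.2.2.1⟩, b2.1⟩
  have hpp3 : s3.1 ∈ PP P := mem_filter.2 ⟨mem_Ioc.2 ⟨b3.2.1, b3.2.2.1⟩, b3.1⟩
  have hcd : Cd N P s1.1 (lab l y s1) (lab l y s2) (lab l y s3) (h2, h3, s2.1, s3.1) := by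
    refine ⟨sub_ne_zero.2 hd12, sub_ne_zero.2 hd13, bound_h hj2 t3, bound_h hj3 t6, hgcd, t2, t5, hpp2, hpp3,
      t7, Ne.symm t1, Ne.symm t4, hndg1, hcong⟩
  refine ⟨?_, ?_⟩
  · rw [Tset, mem_sigma]
    refine ⟨?_, ?_⟩
    · simp only [tix3, mem_product]
      exact ⟨hpp1, b1.2.2.2.2.2.1, b2.2.2.2.2.2.1, b3.2.2.2.2.2.1⟩
    · exact mem_Iset hndg2 hndg3 hcd
  · refine ⟨A1, ⟨A2, ?_⟩, ?_⟩
    · simp only [tix3]
      rw [← hg1, ← hg2, ← hA1, ← hA2, hv1, hv2]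
      push_cast
      ring
    · have := b1.2.2.2.2.2.2.2.2.2.2
      simp only [tix3]
      exact this

private theorem tix3_inj (N P : ℕ) (hN : 1 ≤ N) (S : Finset (ℕ × ℕ)) (Λ : ℝ → Prop)
    (l : ℝ → ℕ × ℕ) (hl : Lbl N S Λ l) (hsm : ∀ s ∈ S, 64 * kap s * P ^ 2 < N) (y : ℝ)
    (x x' : (Σ _ : ℕ, ℕ) × (Σ _ : ℕ, ℕ) × (Σ _ : ℕ, ℕ))
    (hx1 : x.1 ∈ sts P Λ l y) (hx2 : x.2.1 ∈ sts P Λ l y)
    (hx3 : x.2.2 ∈ sts P Λ l y)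
    (hx1' : x'.1 ∈ sts P Λ l y) (hx2' : x'.2.1 ∈ sts P Λ l y)
    (hx3' : x'.2.2 ∈ sts P Λ l y) (heq : tix3 l y x = tix3 l y x') : x = x' := by
  obtain ⟨s1, s2, s3⟩ := x
  obtain ⟨s1', s2', s3'⟩ := x'
  simp only at hx1 hx2 hx3 hx1' hx2' hx3'
  simp only [tix3, Sigma.mk.injEq, heq_eq_eq, Prod.mk.injEq] at heq
  obtain ⟨⟨e1, e2, e3, e4⟩, -, -, e5, e6⟩ := heq
  have f1 := sts_inj N P hN S Λ l hl hsm y s1 s1' hx1 hx1' e1 e2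
  have f2 := sts_inj N P hN S Λ l hl hsm y s2 s2' hx2 hx2' e5 e3
  have f3 := sts_inj N P hN S Λ l hl hsm y s3 s3' hx3 hx3' e6 e4
  rw [f1, f2, f3]

private theorem sum_sq_le_sq_sum (S : Finset (ℕ × ℕ)) : ∑ s ∈ S, kap s ^ 2 ≤ (∑ s ∈ S, kap s) ^ 2 := by
  rw [sq (∑ s ∈ S, kap s), sum_mul]
  refine sum_le_sum fun s hs => ?_
  rw [sq]
  exact mul_le_mul_of_nonneg_left (single_le_sum (f := kap) (fun s _ => kap_nonneg s) hs) (kap_nonneg s)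

open Classical in
theorem triples_sum3 (N P W : ℕ) (hN : 1 ≤ N) (hP : 2 ≤ P) (hNW : N ≤ W) (S : Finset (ℕ × ℕ)) (Λ : ℝ → Prop)
    (l : ℝ → ℕ × ℕ) (hl : Lbl N S Λ l) (hsm : ∀ s ∈ S, 64 * kap s * P ^ 2 < N)
    (hsm3 : ∀ s ∈ S, ∀ s' ∈ S, 1024 * kap s * kap s' * P ^ 3 < N) (t : ℝ) (ht : 0 ≤ t) (ht' : t ≤ 1 / W) :
    (∑ j ∈ range W, (((sts P Λ l (gp W t j) ×ˢ sts P Λ l (gp W t j) ×ˢ sts P Λ l (gp W t j)).filter fun x =>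
      (Df l (gp W t j) x.1 x.2.1 ∧ Df l (gp W t j) x.1 x.2.2 ∧ Df l (gp W t j) x.2.1 x.2.2) ∧
        (lab l (gp W t j) x.1).2 ≤ (lab l (gp W t j) x.2.1).2 ∧
        (lab l (gp W t j) x.1).2 ≤ (lab l (gp W t j) x.2.2).2).card : ℝ)) ≤
      10 ^ 10 * ((PP P).card : ℝ) * P ^ 8 * (∑ s ∈ S, kap s) ^ 4 / N ^ 3 * W := by
  have hN0 : (0 : ℝ) < N := by exact_mod_cast hN
  have hmap : ∀ j, (((sts P Λ l (gp W t j) ×ˢ sts P Λ l (gp W t j) ×ˢ sts P Λ l (gp W t j)).filter fun x =>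
      (Df l (gp W t j) x.1 x.2.1 ∧ Df l (gp W t j) x.1 x.2.2 ∧ Df l (gp W t j) x.2.1 x.2.2) ∧
        (lab l (gp W t j) x.1).2 ≤ (lab l (gp W t j) x.2.1).2 ∧
        (lab l (gp W t j) x.1).2 ≤ (lab l (gp W t j) x.2.2).2).card) ≤
      ((Tset N P S).filter fun a => Gd N W a.1.1 t a.1.2.1 a.1.2.2.1 a.2 j).card := by
    intro j
    refine Finset.card_le_card_of_injOn (tix3 l (gp W t j)) ?_ ?_
    · intro x hx
      simp only [coe_filter, mem_product, Set.mem_setOf_eq] at hx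
      obtain ⟨⟨hx1, hx2, hx3⟩, ⟨hd12, hd13, hd23⟩, hj2, hj3⟩ := hx
      simp only [coe_filter, Set.mem_setOf_eq]
      exact tix3_mem N P hN hP S Λ l hl hsm3 W t j x hx1 hx2 hx3 hd12 hd13 hd23 hj2 hj3
    · intro x hx x' hx' heq
      simp only [coe_filter, mem_product, Set.mem_setOf_eq] at hx hx'
      exact tix3_inj N P hN S Λ l hl hsm (gp W t j) x x' hx.1.1 hx.1.2.1 hx.1.2.2 hx'.1.1 hx'.1.2.1
        hx'.1.2.2 heq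
  have hswap : (∑ j ∈ range W, (((Tset N P S).filter fun a => Gd N W a.1.1 t a.1.2.1 a.1.2.2.1 a.2 j).card : ℝ)) =
      ∑ a ∈ Tset N P S, (((range W).filter fun j => Gd N W a.1.1 t a.1.2.1 a.1.2.2.1 a.2 j).card : ℝ) := by
    simp only [card_filter, Nat.cast_sum]
    exact sum_comm
  have hsig : (∑ a ∈ Tset N P S, (((range W).filter fun j => Gd N W a.1.1 t a.1.2.1 a.1.2.2.1 a.2 j).card : ℝ)) =
      ∑ a ∈ PP P ×ˢ S ×ˢ S ×ˢ S, ∑ x ∈ Iset N P a.1 a.2.1 a.2.2.1 a.2.2.2,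
        (((range W).filter fun j => Gd N W a.1 t a.2.1 a.2.2.1 x j).card : ℝ) := by
    rw [Tset, sum_sigma]
  have hbd : ∀ a ∈ PP P ×ˢ S ×ˢ S ×ˢ S, (∑ x ∈ Iset N P a.1 a.2.1 a.2.2.1 a.2.2.2,
        (((range W).filter fun j => Gd N W a.1 t a.2.1 a.2.2.1 x j).card : ℝ)) ≤
      8928 * (1024 * P ^ 4 / N) ^ 2 * (kap a.2.1 ^ 2 * kap a.2.2.1 * kap a.2.2.2) * W / N := by
    rintro ⟨p, s₁, s₂, s₃⟩ ha
    simp only [mem_product] at ha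
    obtain ⟨hp, h1, h2, h3⟩ := ha
    exact index_bound N P W p hN hP hNW hp s₁ s₂ s₃ (hl.pos _ h1) (hl.pos _ h2) (hl.pos _ h3) (hsm _ h1) t ht ht'
  have hsum : ∑ a ∈ PP P ×ˢ S ×ˢ S ×ˢ S,
      (8928 * (1024 * P ^ 4 / N) ^ 2 * (kap a.2.1 ^ 2 * kap a.2.2.1 * kap a.2.2.2) * W / N : ℝ) =
      (PP P).card * (8928 * (1024 * P ^ 4 / N) ^ 2 *
        ((∑ s ∈ S, kap s ^ 2) * (∑ s ∈ S, kap s) * (∑ s ∈ S, kap s)) * W / N) := by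
    rw [sum_product]
    simp only [sum_const, nsmul_eq_mul]
    congr 1
    have e1 : ∀ a : (ℕ × ℕ) × (ℕ × ℕ) × (ℕ × ℕ),
        (8928 * (1024 * P ^ 4 / N) ^ 2 * (kap a.1 ^ 2 * kap a.2.1 * kap a.2.2) * W / N : ℝ) =
        (8928 * (1024 * P ^ 4 / N) ^ 2 * W / N) * (kap a.1 ^ 2 * (kap a.2.1 * kap a.2.2)) := by
      intro a
      ring
    simp only [e1]
    rw [← mul_sum, sum_product]
    simp only [← mul_sum]
    have e2 : ∑ a ∈ S ×ˢ S, kap a.1 * kap a.2 = (∑ s ∈ S, kap s) * (∑ s ∈ S, kap s) := by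
      rw [sum_product, sum_mul_sum]
    rw [e2, ← sum_mul]
    ring
  have hK : 0 ≤ ∑ s ∈ S, kap s := sum_nonneg fun s _ => kap_nonneg s
  have hfin : ((PP P).card : ℝ) * (8928 * (1024 * P ^ 4 / N) ^ 2 *
        ((∑ s ∈ S, kap s ^ 2) * (∑ s ∈ S, kap s) * (∑ s ∈ S, kap s)) * W / N) ≤
      10 ^ 10 * ((PP P).card : ℝ) * P ^ 8 * (∑ s ∈ S, kap s) ^ 4 / N ^ 3 * W := by
    have h1 : (∑ s ∈ S, kap s ^ 2) * (∑ s ∈ S, kap s) * (∑ s ∈ S, kap s) ≤ (∑ s ∈ S, kap s) ^ 4 := by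
      have := sum_sq_le_sq_sum S
      calc (∑ s ∈ S, kap s ^ 2) * (∑ s ∈ S, kap s) * (∑ s ∈ S, kap s)
          ≤ (∑ s ∈ S, kap s) ^ 2 * (∑ s ∈ S, kap s) * (∑ s ∈ S, kap s) := by
            apply mul_le_mul_of_nonneg_right _ hK
            exact mul_le_mul_of_nonneg_right this hK
        _ = (∑ s ∈ S, kap s) ^ 4 := by ring
    have h2 : ((PP P).card : ℝ) * (8928 * (1024 * P ^ 4 / N) ^ 2 *
        ((∑ s ∈ S, kap s ^ 2) * (∑ s ∈ S, kap s) * (∑ s ∈ S, kap s)) * W / N) =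
        (8928 * 1024 ^ 2) * ((PP P).card * P ^ 8 / N ^ 3 * W) *
          ((∑ s ∈ S, kap s ^ 2) * (∑ s ∈ S, kap s) * (∑ s ∈ S, kap s)) := by
      field_simp
    have h3 : 10 ^ 10 * ((PP P).card : ℝ) * P ^ 8 * (∑ s ∈ S, kap s) ^ 4 / N ^ 3 * W =
        10 ^ 10 * ((PP P).card * P ^ 8 / N ^ 3 * W) * (∑ s ∈ S, kap s) ^ 4 := by
      field_simp
    rw [h2, h3]
    have h4 : (0 : ℝ) ≤ (PP P).card * P ^ 8 / N ^ 3 * W := by positivity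
    have h5 : (0 : ℝ) ≤ (∑ s ∈ S, kap s) ^ 4 := by positivity
    calc (8928 * 1024 ^ 2) * ((PP P).card * P ^ 8 / N ^ 3 * W) *
          ((∑ s ∈ S, kap s ^ 2) * (∑ s ∈ S, kap s) * (∑ s ∈ S, kap s))
        ≤ (8928 * 1024 ^ 2) * ((PP P).card * P ^ 8 / N ^ 3 * W) * (∑ s ∈ S, kap s) ^ 4 := by
          apply mul_le_mul_of_nonneg_left h1
          positivity
      _ ≤ 10 ^ 10 * ((PP P).card * P ^ 8 / N ^ 3 * W) * (∑ s ∈ S, kap s) ^ 4 := by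
          apply mul_le_mul_of_nonneg_right _ h5
          apply mul_le_mul_of_nonneg_right _ h4
          norm_num
  calc (∑ j ∈ range W, (((sts P Λ l (gp W t j) ×ˢ sts P Λ l (gp W t j) ×ˢ sts P Λ l (gp W t j)).filter fun x =>
      (Df l (gp W t j) x.1 x.2.1 ∧ Df l (gp W t j) x.1 x.2.2 ∧ Df l (gp W t j) x.2.1 x.2.2) ∧
        (lab l (gp W t j) x.1).2 ≤ (lab l (gp W t j) x.2.1).2 ∧
        (lab l (gp W t j) x.1).2 ≤ (lab l (gp W t j) x.2.2).2).card : ℝ))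
      ≤ ∑ j ∈ range W, (((Tset N P S).filter fun a => Gd N W a.1.1 t a.1.2.1 a.1.2.2.1 a.2 j).card : ℝ) :=
        sum_le_sum fun j _ => by exact_mod_cast hmap j
    _ = ∑ a ∈ PP P ×ˢ S ×ˢ S ×ˢ S, ∑ x ∈ Iset N P a.1 a.2.1 a.2.2.1 a.2.2.2,
        (((range W).filter fun j => Gd N W a.1 t a.2.1 a.2.2.1 x j).card : ℝ) := by rw [hswap, hsig]
    _ ≤ ∑ a ∈ PP P ×ˢ S ×ˢ S ×ˢ S,
      (8928 * (1024 * P ^ 4 / N) ^ 2 * (kap a.2.1 ^ 2 * kap a.2.2.1 * kap a.2.2.2) * W / N : ℝ) :=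
        sum_le_sum hbd
    _ = _ := hsum
    _ ≤ _ := hfin

end Pool.Agent.Lib.MP_6cded1_nt.M3
end
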