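import Pool.Agent.Lib.MP_6cded1_nt.ML.Nd
import Pool.Agent.Lib.MP_6cded1_nt.ML.Grid1
import Pool.Agent.Lib.MP_6cded1_nt.M3.Layer
import Pool.Agent.Lib.MP_6cded1_nt.M3.Fls
import Pool.Agent.Lib.MP_6cded1_nt.M3.TSum

section

/-!
# Triples with the least element first

One of the three elements has the least `w`; the triples whose second (third) element has the least `w` are mapped injectively to triples of the set on the right by exchanging it with the first element (`D` symmetric).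
-/

set_option autoImplicit false

open Finset Pool.Agent.Lib.MP_6cded1_nt.ML

namespace Pool.Agent.Lib.MP_6cded1_nt.M3

open Classical in
theorem triples_min {α : Type*} (S : Finset α) (D : α → α → Prop) (hsym : ∀ a b, D a b → D b a) (w : α → ℕ) :
    ((S ×ˢ S ×ˢ S).filter fun x => D x.1 x.2.1 ∧ D x.1 x.2.2 ∧ D x.2.1 x.2.2).card ≤
      3 * ((S ×ˢ S ×ˢ S).filter fun x => (D x.1 x.2.1 ∧ D x.1 x.2.2 ∧ D x.2.1 x.2.2) ∧
        w x.1 ≤ w x.2.1 ∧ w x.1 ≤ w x.2.2).card := by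
  set M := (S ×ˢ S ×ˢ S).filter fun x => (D x.1 x.2.1 ∧ D x.1 x.2.2 ∧ D x.2.1 x.2.2) ∧
        w x.1 ≤ w x.2.1 ∧ w x.1 ≤ w x.2.2 with hM
  have hsub : ((S ×ˢ S ×ˢ S).filter fun x => D x.1 x.2.1 ∧ D x.1 x.2.2 ∧ D x.2.1 x.2.2) ⊆
      (M ∪ M.image (fun x => (x.2.1, x.1, x.2.2))) ∪ M.image (fun x => (x.2.2, x.2.1, x.1)) := by
    intro x hx
    rw [mem_filter, mem_product, mem_product] at hx
    obtain ⟨⟨ha, hb, hc⟩, hab, hac, hbc⟩ := hx
    obtain ⟨a, b, c⟩ := x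
    simp only at ha hb hc hab hac hbc
    rw [mem_union, mem_union]
    by_cases h1 : w a ≤ w b ∧ w a ≤ w c
    · left; left
      rw [hM, mem_filter, mem_product, mem_product]
      exact ⟨⟨ha, hb, hc⟩, ⟨hab, hac, hbc⟩, h1⟩
    · by_cases h2 : w b ≤ w a ∧ w b ≤ w c
      · left; right
        rw [mem_image]
        refine ⟨(b, a, c), ?_, rfl⟩
        rw [hM, mem_filter, mem_product, mem_product]
        exact ⟨⟨hb, ha, hc⟩, ⟨hsym _ _ hab, hbc, hac⟩, h2⟩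
      · right
        rw [mem_image]
        refine ⟨(c, b, a), ?_, rfl⟩
        rw [hM, mem_filter, mem_product, mem_product]
        refine ⟨⟨hc, hb, ha⟩, ⟨hsym _ _ hbc, hsym _ _ hac, hsym _ _ hab⟩, ?_⟩
        show w c ≤ w b ∧ w c ≤ w a
        constructor <;> omega
  calc _ ≤ _ := card_le_card hsub
    _ ≤ M.card + M.card + M.card := by
        refine (card_union_le _ _).trans (Nat.add_le_add ?_ card_image_le)
        exact (card_union_le _ _).trans (Nat.add_le_add le_rfl card_image_le)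
    _ = 3 * M.card := by ring

end Pool.Agent.Lib.MP_6cded1_nt.M3
end

section

/-!
# The final numerical inequality

`Nat.log 2 N + 1 ≤ 2 (1 + log N)`; `5 * 2 (1 + log N) N^{1-u} ≤ N^{1-u/2} / 2`; if `L < N^{2/7-5u}` then `(2 + log₂ N) τ L ≤ 4 (1 + log N) N^{1-u} ≤ N^{1-u/2}/4`: contradiction.  (`5/7 + 4u + 2/7 - 5u = 1 - u`.)  See `ML/NumFinal.lean`.
-/

set_option autoImplicit false

open Finset Pool.Agent.Lib.MP_6cded1_nt.ML

namespace Pool.Agent.Lib.MP_6cded1_nt.M3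

theorem num_final3 (u : ℝ) (hu : 0 < u) (hu1 : u ≤ 1 / 1000) : ∃ N₀ : ℕ, ∀ N : ℕ, N₀ ≤ N → ∀ L : ℝ,
    (N : ℝ) ^ (1 - u / 2) ≤ tu u N * L + ((Nat.log 2 N + 1 : ℕ) : ℝ) * (tu u N * L + 5 * (N : ℝ) ^ (1 - u)) →
    (N : ℝ) ^ ((2 : ℝ) / 7 - 5 * u) ≤ L := by
  obtain ⟨N1, h1⟩ := pow_log_le 14 1 (1 - u) (1 - u / 2) (by linarith)
  refine ⟨max N1 1, fun N hN L hL => ?_⟩
  have hN1 : N1 ≤ N := le_trans (le_max_left _ _) hN
  have hN3 : 1 ≤ N := le_trans (le_max_right _ _) hN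
  have hx1 : (1 : ℝ) ≤ (N : ℝ) := by exact_mod_cast hN3
  have hx0 : (0 : ℝ) < (N : ℝ) := by linarith
  have hlog0 : 0 ≤ Real.log (N : ℝ) := Real.log_nonneg hx1
  have g1 := h1 N hN1
  rw [pow_one] at g1
  obtain ⟨k, hk⟩ : ∃ k : ℝ, k = ((Nat.log 2 N + 1 : ℕ) : ℝ) := ⟨_, rfl⟩
  rw [← hk] at hL
  have hk0 : 0 ≤ k := by rw [hk]; exact Nat.cast_nonneg _
  have hk2 : k ≤ 2 * (1 + Real.log (N : ℝ)) := by
    have e1 : ((Nat.log 2 N : ℕ) : ℝ) * Real.log 2 ≤ Real.log (N : ℝ) := by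
      rw [← Real.log_pow]
      apply Real.log_le_log (by positivity)
      exact_mod_cast Nat.pow_log_le_self 2 (by omega)
    have e2 : (0.6931471803 : ℝ) < Real.log 2 := Real.log_two_gt_d9
    have e3 : (0 : ℝ) ≤ ((Nat.log 2 N : ℕ) : ℝ) := Nat.cast_nonneg _
    rw [hk]
    push_cast
    nlinarith
  have htu : tu u N = (N : ℝ) ^ ((5 : ℝ) / 7 + 4 * u) := rfl
  have htu0 : 0 < tu u N := by
    rw [htu]
    exact Real.rpow_pos_of_pos hx0 _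
  have hY : 0 < (N : ℝ) ^ (1 - u) := Real.rpow_pos_of_pos hx0 _
  by_contra hc
  push Not at hc
  have a2 : tu u N * (N : ℝ) ^ ((2 : ℝ) / 7 - 5 * u) = (N : ℝ) ^ (1 - u) := by
    rw [htu, ← Real.rpow_add hx0]
    congr 1
    ring
  have a1 : tu u N * L ≤ (N : ℝ) ^ (1 - u) := by
    rw [← a2]
    exact mul_le_mul_of_nonneg_left hc.le htu0.le
  have a3 : k * (tu u N * L + 5 * (N : ℝ) ^ (1 - u)) ≤
      2 * (1 + Real.log (N : ℝ)) * (6 * (N : ℝ) ^ (1 - u)) := by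
    apply mul_le_mul hk2 (by linarith) _ (by positivity)
    by_contra h
    push Not at h
    have : k * (tu u N * L + 5 * (N : ℝ) ^ (1 - u)) ≤ 0 :=
      mul_nonpos_of_nonneg_of_nonpos hk0 h.le
    have h7 : 0 < (N : ℝ) ^ (1 - u / 2) := Real.rpow_pos_of_pos hx0 _
    linarith
  have a4 : (N : ℝ) ^ (1 - u) ≤ (1 + Real.log (N : ℝ)) * (N : ℝ) ^ (1 - u) := by
    nlinarith
  nlinarith

end Pool.Agent.Lib.MP_6cded1_nt.M3
end

section

/-!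
# Numerical inequalities: case A

Square: with `p = card(PP P) ≥ P / log N`: `16 H² N * 3 * 10^10 p P⁸ Z⁴ / N³ ≤ p² N^{2-2u}`, i.e. `4.8 * 10^11 H² P⁸ Z⁴ ≤ p N^{4-2u}`; suffices `4.8 * 10^11 log N H² P⁷ Z⁴ ≤ N^{4-2u}`.  `P⁷ ≤ 128 N^{7u} H⁷/τ⁷`, `Z⁴ ≤ N^{8+12u}/H⁸`:
`H² P⁷ Z⁴ ≤ 128 H N^{8+19u-5-28u} ≤ 128 N^{4-9u}`.
-/

set_option autoImplicit false

open Finset Pool.Agent.Lib.MP_6cded1_nt.ML

namespace Pool.Agent.Lib.MP_6cded1_nt.M3

theorem num_A3 (u : ℝ) (hu : 0 < u) (hu1 : u ≤ 1 / 1000) : ∃ N₀ : ℕ, ∀ N : ℕ, N₀ ≤ N → ∀ H : ℝ, tu u N ≤ H → H ≤ N →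
    ∀ Z : ℝ, 0 ≤ Z → Z ≤ Ku u N H →
    4 * H * Real.sqrt (N * (3 * 10 ^ 10 * ((PP (Pu u N H)).card : ℝ) * Pu u N H ^ 8 * Z ^ 4 / N ^ 3)) ≤
      (PP (Pu u N H)).card * (N : ℝ) ^ (1 - u) := by
  obtain ⟨N1, h1⟩ := num_P u hu hu1
  obtain ⟨N2, h2⟩ := pow_log_le (48 * 10 ^ 10 * 128) 1 (4 - 9 * u) (4 - 2 * u) (by linarith)
  refine ⟨max (max N1 N2) 1, fun N hN H hH1 hH2 Z hZ0 hZ => ?_⟩
  have hN1 : N1 ≤ N := ((le_max_left _ _).trans (le_max_left _ _)).trans hN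
  have hN2 : N2 ≤ N := ((le_max_right _ _).trans (le_max_left _ _)).trans hN
  have hN4 : 1 ≤ N := (le_max_right _ _).trans hN
  have hn : (0 : ℝ) < (N : ℝ) := by exact_mod_cast hN4
  have hlog : 0 ≤ Real.log (N : ℝ) := Real.log_nonneg (by exact_mod_cast hN4)
  have hτ : 0 < tu u N := Real.rpow_pos_of_pos hn _
  have hH : 0 < H := lt_of_lt_of_le hτ hH1
  obtain ⟨-, -, -, hP2, hP3, -, -⟩ := h1 N hN1 H hH1 hH2
  have e2 := h2 N hN2
  rw [pow_one] at e2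
  obtain ⟨P, hP⟩ : ∃ P : ℝ, P = (Pu u N H : ℝ) := ⟨_, rfl⟩
  obtain ⟨p, hp⟩ : ∃ p : ℝ, p = ((PP (Pu u N H)).card : ℝ) := ⟨_, rfl⟩
  rw [← hP] at hP2 hP3 ⊢
  rw [← hp] at hP3 ⊢
  have hP0 : 0 ≤ P := by rw [hP]; exact Nat.cast_nonneg _
  have hp0 : 0 ≤ p := by rw [hp]; exact Nat.cast_nonneg _
  set L : ℝ := 1 + Real.log (N : ℝ) with hL
  have hL0 : 0 < L := by linarith
  have hPL : P ≤ p * L := hP3.trans (mul_le_mul_of_nonneg_left (by linarith) hp0)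
  -- the powers
  have hA : 0 < (N : ℝ) ^ u := Real.rpow_pos_of_pos hn _
  have hP7 : P ^ 7 ≤ 128 * ((N : ℝ) ^ u) ^ 7 * H ^ 7 / (tu u N) ^ 7 := by
    calc P ^ 7 ≤ (2 * (N : ℝ) ^ u * H / tu u N) ^ 7 := pow_le_pow_left₀ hP0 hP2 7
      _ = _ := by rw [div_pow, mul_pow, mul_pow]; norm_num
  have hZ4 : Z ^ 4 ≤ ((N : ℝ) ^ (2 + 3 * u)) ^ 4 / H ^ 8 := by
    calc Z ^ 4 ≤ (Ku u N H) ^ 4 := pow_le_pow_left₀ hZ0 hZ 4
      _ = _ := by unfold Ku; rw [div_pow, ← pow_mul]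
  have hkey : H ^ 2 * (P ^ 7 * Z ^ 4) ≤ 128 * (N : ℝ) ^ (4 - 9 * u) := by
    calc H ^ 2 * (P ^ 7 * Z ^ 4)
        ≤ H ^ 2 * ((128 * ((N : ℝ) ^ u) ^ 7 * H ^ 7 / (tu u N) ^ 7) *
            (((N : ℝ) ^ (2 + 3 * u)) ^ 4 / H ^ 8)) := by
          refine mul_le_mul_of_nonneg_left (mul_le_mul hP7 hZ4 (by positivity) (by positivity))
            (by positivity)
      _ = 128 * (((N : ℝ) ^ u) ^ 7 * ((N : ℝ) ^ (2 + 3 * u)) ^ 4 / (tu u N) ^ 7) * H := by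
          field_simp
      _ ≤ 128 * (((N : ℝ) ^ u) ^ 7 * ((N : ℝ) ^ (2 + 3 * u)) ^ 4 / (tu u N) ^ 7) * N := by
          refine mul_le_mul_of_nonneg_left hH2 (by positivity)
      _ = 128 * (N : ℝ) ^ (4 - 9 * u) := by
          unfold tu
          rw [← Real.rpow_natCast, ← Real.rpow_natCast, ← Real.rpow_natCast, ← Real.rpow_mul hn.le,
            ← Real.rpow_mul hn.le, ← Real.rpow_mul hn.le, ← Real.rpow_add hn, ← Real.rpow_sub hn,
            mul_assoc]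
          congr 1
          have e5 : ∀ y : ℝ, (N : ℝ) ^ y * (N : ℝ) = (N : ℝ) ^ (y + 1) := by
            intro y
            rw [Real.rpow_add hn, Real.rpow_one]
          rw [e5]
          congr 1
          push_cast
          ring
  have hmain : 48 * 10 ^ 10 * (H ^ 2 * (p * P ^ 8 * Z ^ 4)) ≤ p ^ 2 * (N : ℝ) ^ (4 - 2 * u) := by
    calc 48 * 10 ^ 10 * (H ^ 2 * (p * P ^ 8 * Z ^ 4))
        = (48 * 10 ^ 10 * p * (H ^ 2 * (P ^ 7 * Z ^ 4))) * P := by ring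
      _ ≤ (48 * 10 ^ 10 * p * (H ^ 2 * (P ^ 7 * Z ^ 4))) * (p * L) :=
          mul_le_mul_of_nonneg_left hPL (by positivity)
      _ = (48 * 10 ^ 10 * p * (p * L)) * (H ^ 2 * (P ^ 7 * Z ^ 4)) := by ring
      _ ≤ (48 * 10 ^ 10 * p * (p * L)) * (128 * (N : ℝ) ^ (4 - 9 * u)) :=
          mul_le_mul_of_nonneg_left hkey (by positivity)
      _ = p ^ 2 * (48 * 10 ^ 10 * 128 * L * (N : ℝ) ^ (4 - 9 * u)) := by ring
      _ ≤ p ^ 2 * (N : ℝ) ^ (4 - 2 * u) := mul_le_mul_of_nonneg_left e2 (by positivity)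
  have hsq : N * (3 * 10 ^ 10 * p * P ^ 8 * Z ^ 4 / N ^ 3) ≤
      (p * (N : ℝ) ^ (1 - u) / (4 * H)) ^ 2 := by
    have e3 : (N : ℝ) ^ (4 - 2 * u) = ((N : ℝ) ^ (1 - u)) ^ 2 * (N : ℝ) ^ 2 := by
      rw [← Real.rpow_natCast, ← Real.rpow_natCast, ← Real.rpow_mul hn.le, ← Real.rpow_add hn]
      congr 1
      push_cast
      ring
    rw [e3] at hmain
    rw [div_pow, mul_pow, mul_pow, le_div_iff₀ (by positivity)]
    have e4 : N * (3 * 10 ^ 10 * p * P ^ 8 * Z ^ 4 / N ^ 3) * (4 ^ 2 * H ^ 2) =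
        (48 * 10 ^ 10 * (H ^ 2 * (p * P ^ 8 * Z ^ 4))) / (N : ℝ) ^ 2 := by
      field_simp
      ring
    rw [e4, div_le_iff₀ (by positivity)]
    linarith
  have h3 : Real.sqrt (N * (3 * 10 ^ 10 * p * P ^ 8 * Z ^ 4 / N ^ 3)) ≤
      p * (N : ℝ) ^ (1 - u) / (4 * H) := by
    have h4 : 0 ≤ p * (N : ℝ) ^ (1 - u) / (4 * H) := by positivity
    rw [← Real.sqrt_sq h4]
    exact Real.sqrt_le_sqrt hsq
  calc 4 * H * Real.sqrt (N * (3 * 10 ^ 10 * p * P ^ 8 * Z ^ 4 / N ^ 3))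
      ≤ 4 * H * (p * (N : ℝ) ^ (1 - u) / (4 * H)) :=
        mul_le_mul_of_nonneg_left h3 (by positivity)
    _ = p * (N : ℝ) ^ (1 - u) := by field_simp

end Pool.Agent.Lib.MP_6cded1_nt.M3
end

section

/-!
# Numerical inequalities: case B

Square both sides (or use `Real.sqrt_le_left`, `Real.sqrt_le_iff`): with `p = card(PP P)`: `16 H² N * 49152 P⁴ p² Z² / N² ≤ p² N^{2-2u}`, i.e. `786432 H² P⁴ Z² ≤ N^{3-2u}`: `P⁴ ≤ 16 N^{4u} H⁴/τ⁴`, `Z² ≤ N^{4+6u}/H⁴`: `H² P⁴ Z² ≤ 16 H² N^{4+10u-20/7-16u} = 16 H² N^{8/7-6u}` and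
`H² ≤ N^{13/7+2u}`: `16 N^{3-4u}`.
-/

set_option autoImplicit false

open Finset Pool.Agent.Lib.MP_6cded1_nt.ML

namespace Pool.Agent.Lib.MP_6cded1_nt.M3

theorem num_B3 (u : ℝ) (hu : 0 < u) (hu1 : u ≤ 1 / 1000) : ∃ N₀ : ℕ, ∀ N : ℕ, N₀ ≤ N → ∀ H : ℝ, tu u N ≤ H → H ≤ N →
    H ≤ (N : ℝ) ^ ((13 : ℝ) / 14 + u) → ∀ Z : ℝ, 0 ≤ Z → Z ≤ Ku u N H →
    4 * H * Real.sqrt (N * (49152 * Pu u N H ^ 4 * ((PP (Pu u N H)).card : ℝ) ^ 2 * Z ^ 2 / N ^ 2)) ≤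
      (PP (Pu u N H)).card * (N : ℝ) ^ (1 - u) := by
  obtain ⟨N1, h1⟩ := num_P u hu hu1
  obtain ⟨N2, h2⟩ := pow_log_le (786432 * 16) 0 (3 - 4 * u) (3 - 2 * u) (by linarith)
  refine ⟨max N1 (max N2 1), fun N hN H hH1 hH2 hH3 Z hZ0 hZ => ?_⟩
  have hN1 : N1 ≤ N := (le_max_left _ _).trans hN
  have hN2 : N2 ≤ N := ((le_max_left _ _).trans (le_max_right _ _)).trans hN
  have hN3 : 1 ≤ N := ((le_max_right _ _).trans (le_max_right _ _)).trans hN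
  have hNpos : (0 : ℝ) < (N : ℝ) := by exact_mod_cast hN3
  have hτ : 0 < tu u N := Real.rpow_pos_of_pos hNpos _
  have hH : 0 < H := lt_of_lt_of_le hτ hH1
  obtain ⟨-, -, -, hP2, -, -, -⟩ := h1 N hN1 H hH1 hH2
  have e2 : 786432 * 16 * (N : ℝ) ^ (3 - 4 * u) ≤ (N : ℝ) ^ (3 - 2 * u) := by
    have := h2 N hN2
    rw [pow_zero, mul_one] at this
    exact this
  obtain ⟨P, hP⟩ : ∃ P : ℕ, P = Pu u N H := ⟨_, rfl⟩
  obtain ⟨p, hp⟩ : ∃ p : ℝ, p = ((PP P).card : ℝ) := ⟨_, rfl⟩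
  rw [← hP, ← hp]
  rw [← hP] at hP2
  have hp0 : 0 ≤ p := by rw [hp]; exact Nat.cast_nonneg _
  have hP0 : (0 : ℝ) ≤ (P : ℝ) := Nat.cast_nonneg _
  -- powers
  have hA : 0 < (N : ℝ) ^ u := Real.rpow_pos_of_pos hNpos _
  have hx0 : 0 ≤ 2 * (N : ℝ) ^ u * H / tu u N := by positivity
  have hP4 : (P : ℝ) ^ 4 ≤ (2 * (N : ℝ) ^ u * H / tu u N) ^ 4 := pow_le_pow_left₀ hP0 hP2 4
  have hZ2 : Z ^ 2 ≤ (Ku u N H) ^ 2 := pow_le_pow_left₀ hZ0 hZ 2
  have hH2' : H ^ 2 ≤ ((N : ℝ) ^ ((13 : ℝ) / 14 + u)) ^ 2 := pow_le_pow_left₀ hH.le hH3 2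
  have hrp : ∀ (a : ℝ) (k : ℕ), ((N : ℝ) ^ a) ^ k = (N : ℝ) ^ (a * k) := by
    intro a k
    rw [Real.rpow_mul hNpos.le, Real.rpow_natCast]
  have hkey : H ^ 2 * (P : ℝ) ^ 4 * Z ^ 2 ≤ 16 * (N : ℝ) ^ (3 - 4 * u) := by
    have h3 : H ^ 2 * (P : ℝ) ^ 4 * Z ^ 2 ≤
        H ^ 2 * (2 * (N : ℝ) ^ u * H / tu u N) ^ 4 * (Ku u N H) ^ 2 := by
      apply mul_le_mul _ hZ2 (by positivity) (by positivity)
      exact mul_le_mul_of_nonneg_left hP4 (by positivity)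
    have h4 : H ^ 2 * (2 * (N : ℝ) ^ u * H / tu u N) ^ 4 * (Ku u N H) ^ 2 =
        16 * H ^ 2 * (((N : ℝ) ^ u) ^ 4 * ((N : ℝ) ^ (2 + 3 * u)) ^ 2 / (tu u N) ^ 4) := by
      unfold Ku
      have hHne : H ≠ 0 := hH.ne'
      have hτne : tu u N ≠ 0 := hτ.ne'
      field_simp
      ring
    have h5 : ((N : ℝ) ^ u) ^ 4 * ((N : ℝ) ^ (2 + 3 * u)) ^ 2 / (tu u N) ^ 4 =
        (N : ℝ) ^ ((8 : ℝ) / 7 - 6 * u) := by
      unfold tu
      rw [hrp, hrp, hrp, ← Real.rpow_add hNpos, ← Real.rpow_sub hNpos]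
      congr 1
      push_cast
      ring
    have h6 : H ^ 2 * (N : ℝ) ^ ((8 : ℝ) / 7 - 6 * u) ≤ (N : ℝ) ^ (3 - 4 * u) := by
      calc H ^ 2 * (N : ℝ) ^ ((8 : ℝ) / 7 - 6 * u)
          ≤ ((N : ℝ) ^ ((13 : ℝ) / 14 + u)) ^ 2 * (N : ℝ) ^ ((8 : ℝ) / 7 - 6 * u) :=
            mul_le_mul_of_nonneg_right hH2' (Real.rpow_nonneg hNpos.le _)
        _ = (N : ℝ) ^ (3 - 4 * u) := by
            rw [hrp, ← Real.rpow_add hNpos]
            congr 1
            push_cast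
            ring
    calc H ^ 2 * (P : ℝ) ^ 4 * Z ^ 2 ≤ _ := h3
      _ = _ := h4
      _ = 16 * (H ^ 2 * (N : ℝ) ^ ((8 : ℝ) / 7 - 6 * u)) := by rw [h5]; ring
      _ ≤ 16 * (N : ℝ) ^ (3 - 4 * u) := by linarith
  have hkey2 : 786432 * (H ^ 2 * (P : ℝ) ^ 4 * Z ^ 2) ≤ (N : ℝ) ^ (3 - 2 * u) := by
    linarith
  have hR0 : 0 ≤ p * (N : ℝ) ^ (1 - u) := mul_nonneg hp0 (Real.rpow_nonneg hNpos.le _)
  have h4H : 4 * H * Real.sqrt (N * (49152 * (P : ℝ) ^ 4 * p ^ 2 * Z ^ 2 / N ^ 2)) =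
      Real.sqrt ((4 * H) ^ 2 * (N * (49152 * (P : ℝ) ^ 4 * p ^ 2 * Z ^ 2 / N ^ 2))) := by
    rw [Real.sqrt_mul (show (0 : ℝ) ≤ (4 * H) ^ 2 by positivity), Real.sqrt_sq (by positivity)]
  rw [h4H]
  apply Real.sqrt_le_iff.2
  refine ⟨hR0, ?_⟩
  have h7 : (4 * H) ^ 2 * (N * (49152 * (P : ℝ) ^ 4 * p ^ 2 * Z ^ 2 / N ^ 2)) =
      p ^ 2 * (786432 * (H ^ 2 * (P : ℝ) ^ 4 * Z ^ 2)) / N := by
    field_simp
    ring
  rw [h7, div_le_iff₀ hNpos]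
  have h8 : (p * (N : ℝ) ^ (1 - u)) ^ 2 * N = p ^ 2 * (N : ℝ) ^ (3 - 2 * u) := by
    rw [mul_pow, hrp, mul_assoc]
    congr 1
    have h9 : (N : ℝ) ^ ((1 - u) * ((2 : ℕ) : ℝ)) * (N : ℝ) =
        (N : ℝ) ^ ((1 - u) * ((2 : ℕ) : ℝ)) * (N : ℝ) ^ (1 : ℝ) := by rw [Real.rpow_one]
    rw [h9, ← Real.rpow_add hNpos]
    congr 1
    push_cast
    ring
  rw [h8]
  exact mul_le_mul_of_nonneg_left hkey2 (by positivity)

end Pool.Agent.Lib.MP_6cded1_nt.M3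
end

section

/-!
# Numerical inequalities: smallness

`K P² ≤ N^{2+3u}/H² * 4 N^{2u} H²/τ² = 4 N^{4/7-3u}`.  `K² P³ ≤ N^{4+6u}/H⁴ * 8 N^{3u} H³/τ³ = 8 N^{13/7-3u}/H ≤ 8 N^{13/14-4u}` if `H ≥ N^{13/14+u}`.
-/

set_option autoImplicit false

open Finset Pool.Agent.Lib.MP_6cded1_nt.ML

namespace Pool.Agent.Lib.MP_6cded1_nt.M3

theorem num_KP (u : ℝ) (hu : 0 < u) (hu1 : u ≤ 1 / 1000) : ∃ N₀ : ℕ, ∀ N : ℕ, N₀ ≤ N → ∀ H : ℝ, tu u N ≤ H → H ≤ N →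
    64 * Ku u N H * Pu u N H ^ 2 < N ∧
    ((N : ℝ) ^ ((13 : ℝ) / 14 + u) ≤ H → 1024 * Ku u N H * Ku u N H * Pu u N H ^ 3 < N) := by
  obtain ⟨N₁, hN₁⟩ := num_P u hu hu1
  obtain ⟨N₂, hN₂⟩ := pow_log_le 256 0 (4 / 7 - 3 * u) (9 / 10) (by linarith)
  obtain ⟨N₃, hN₃⟩ := pow_log_le 8192 0 (13 / 14 - 4 * u) (13 / 14) (by linarith)
  refine ⟨max (max N₁ N₂) (max N₃ 2), fun N hN H hH1 hH2 => ?_⟩
  have hNa : N₁ ≤ N := le_trans (le_trans (le_max_left _ _) (le_max_left _ _)) hN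
  have hNb : N₂ ≤ N := le_trans (le_trans (le_max_right _ _) (le_max_left _ _)) hN
  have hNc : N₃ ≤ N := le_trans (le_trans (le_max_left _ _) (le_max_right _ _)) hN
  have hNd : 2 ≤ N := le_trans (le_trans (le_max_right _ _) (le_max_right _ _)) hN
  obtain ⟨-, -, -, hP, -, -, -⟩ := hN₁ N hNa H hH1 hH2
  have h2 := hN₂ N hNb
  have h3 := hN₃ N hNc
  rw [pow_zero, mul_one] at h2 h3
  have hN1 : (1 : ℝ) < N := by
    have : (2 : ℝ) ≤ N := by exact_mod_cast hNd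
    linarith
  have hx : (0 : ℝ) < N := by linarith
  have ht : 0 < tu u N := by
    unfold tu
    exact Real.rpow_pos_of_pos hx _
  have hH0 : 0 < H := lt_of_lt_of_le ht hH1
  have hP0 : (0 : ℝ) ≤ Pu u N H := Nat.cast_nonneg _
  have hK0 : 0 ≤ Ku u N H := by
    unfold Ku
    positivity
  have e1 : (N : ℝ) ^ (9 / 10 : ℝ) < N := by
    have := Real.rpow_lt_rpow_of_exponent_lt hN1 (show (9 / 10 : ℝ) < 1 by norm_num)
    rwa [Real.rpow_one] at this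
  have e2 : (N : ℝ) ^ (13 / 14 : ℝ) < N := by
    have := Real.rpow_lt_rpow_of_exponent_lt hN1 (show (13 / 14 : ℝ) < 1 by norm_num)
    rwa [Real.rpow_one] at this
  constructor
  · have h4 : Ku u N H * Pu u N H ^ 2 ≤ 4 * (N : ℝ) ^ (4 / 7 - 3 * u) := by
      have h5 : (Pu u N H : ℝ) ^ 2 ≤ (2 * (N : ℝ) ^ u * H / tu u N) ^ 2 := pow_le_pow_left₀ hP0 hP 2
      have h6 : (N : ℝ) ^ (2 + 3 * u) * ((N : ℝ) ^ u) ^ 2 = (N : ℝ) ^ (4 / 7 - 3 * u) * tu u N ^ 2 := by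
        unfold tu
        rw [← Real.rpow_natCast, ← Real.rpow_natCast, ← Real.rpow_mul hx.le, ← Real.rpow_mul hx.le,
          ← Real.rpow_add hx, ← Real.rpow_add hx]
        congr 1
        push_cast
        ring
      calc Ku u N H * Pu u N H ^ 2 ≤ Ku u N H * (2 * (N : ℝ) ^ u * H / tu u N) ^ 2 :=
            mul_le_mul_of_nonneg_left h5 hK0
        _ = 4 * ((N : ℝ) ^ (2 + 3 * u) * ((N : ℝ) ^ u) ^ 2) / tu u N ^ 2 := by
            unfold Ku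
            field_simp
            ring
        _ = 4 * (N : ℝ) ^ (4 / 7 - 3 * u) := by
            rw [h6]
            field_simp
    calc 64 * Ku u N H * Pu u N H ^ 2 = 64 * (Ku u N H * Pu u N H ^ 2) := by ring
      _ ≤ 64 * (4 * (N : ℝ) ^ (4 / 7 - 3 * u)) := mul_le_mul_of_nonneg_left h4 (by norm_num)
      _ = 256 * (N : ℝ) ^ (4 / 7 - 3 * u) := by ring
      _ ≤ (N : ℝ) ^ (9 / 10 : ℝ) := h2
      _ < N := e1
  · intro hH3
    have h4 : Ku u N H * Ku u N H * Pu u N H ^ 3 ≤ 8 * (N : ℝ) ^ (13 / 14 - 4 * u) := by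
      have h5 : (Pu u N H : ℝ) ^ 3 ≤ (2 * (N : ℝ) ^ u * H / tu u N) ^ 3 := pow_le_pow_left₀ hP0 hP 3
      have h6 : (N : ℝ) ^ (2 + 3 * u) * (N : ℝ) ^ (2 + 3 * u) * ((N : ℝ) ^ u) ^ 3 =
          (N : ℝ) ^ (13 / 14 - 4 * u) * (N : ℝ) ^ ((13 : ℝ) / 14 + u) * tu u N ^ 3 := by
        unfold tu
        rw [← Real.rpow_natCast, ← Real.rpow_natCast, ← Real.rpow_mul hx.le, ← Real.rpow_mul hx.le,
          ← Real.rpow_add hx, ← Real.rpow_add hx, ← Real.rpow_add hx, ← Real.rpow_add hx]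
        congr 1
        push_cast
        ring
      have h7 : 0 < (N : ℝ) ^ (13 / 14 - 4 * u) := Real.rpow_pos_of_pos hx _
      calc Ku u N H * Ku u N H * Pu u N H ^ 3
          ≤ Ku u N H * Ku u N H * (2 * (N : ℝ) ^ u * H / tu u N) ^ 3 :=
            mul_le_mul_of_nonneg_left h5 (mul_nonneg hK0 hK0)
        _ = 8 * ((N : ℝ) ^ (2 + 3 * u) * (N : ℝ) ^ (2 + 3 * u) * ((N : ℝ) ^ u) ^ 3) / (H * tu u N ^ 3) := by
            unfold Ku
            field_simp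
            ring
        _ = 8 * (N : ℝ) ^ (13 / 14 - 4 * u) * ((N : ℝ) ^ ((13 : ℝ) / 14 + u) / H) := by
            rw [h6]
            field_simp
        _ ≤ 8 * (N : ℝ) ^ (13 / 14 - 4 * u) * 1 := by
            apply mul_le_mul_of_nonneg_left _ (by positivity)
            rw [div_le_one hH0]
            exact hH3
        _ = 8 * (N : ℝ) ^ (13 / 14 - 4 * u) := mul_one _
    calc 1024 * Ku u N H * Ku u N H * Pu u N H ^ 3 = 1024 * (Ku u N H * Ku u N H * Pu u N H ^ 3) := by ring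
      _ ≤ 1024 * (8 * (N : ℝ) ^ (13 / 14 - 4 * u)) := mul_le_mul_of_nonneg_left h4 (by norm_num)
      _ = 8192 * (N : ℝ) ^ (13 / 14 - 4 * u) := by ring
      _ ≤ (N : ℝ) ^ (13 / 14 : ℝ) := h3
      _ < N := e2

end Pool.Agent.Lib.MP_6cded1_nt.M3
end

section

/-!
# Few large prime divisors

`card_primes_dvd` (`ML/Bad2.lean`): `card * log P ≤ log q ≤ log N`, and `log P ≥ u log N` (`P ≥ N^u H/τ ≥ N^u`), `log N > 0`: `card ≤ 1/u ≤ ⌈1/u⌉₊`.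
-/

set_option autoImplicit false

open Finset Pool.Agent.Lib.MP_6cded1_nt.ML

namespace Pool.Agent.Lib.MP_6cded1_nt.M3

theorem num_C (u : ℝ) (hu : 0 < u) (hu1 : u ≤ 1 / 1000) : ∃ N₀ : ℕ, ∀ N : ℕ, N₀ ≤ N → ∀ H : ℝ, tu u N ≤ H → H ≤ N →
    ∀ q : ℕ, 1 ≤ q → q ≤ N → ((PP (Pu u N H)).filter fun p => p ∣ q).card + 1 ≤ Cu u := by
  obtain ⟨N₁, hN₁⟩ := num_P u hu hu1
  refine ⟨max N₁ 2, fun N hN H hH1 hH2 q hq1 hqN => ?_⟩
  have hN1 : N₁ ≤ N := (le_max_left _ _).trans hN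
  have hN2 : 2 ≤ N := (le_max_right _ _).trans hN
  obtain ⟨hP2, -, hP3, -⟩ := hN₁ N hN1 H hH1 hH2
  have hNr : (2 : ℝ) ≤ N := by exact_mod_cast hN2
  have hN0 : (0 : ℝ) < N := by linarith
  have ht : 0 < tu u N := Real.rpow_pos_of_pos hN0 _
  have hlN : 0 < Real.log N := Real.log_pos (by linarith)
  have h1 : (N : ℝ) ^ u ≤ Pu u N H := by
    refine le_trans ?_ hP3
    rw [le_div_iff₀ ht]
    exact mul_le_mul_of_nonneg_left hH1 (Real.rpow_pos_of_pos hN0 _).le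
  have h2 : u * Real.log N ≤ Real.log (Pu u N H) := by
    rw [← Real.log_rpow hN0]
    exact Real.log_le_log (Real.rpow_pos_of_pos hN0 _) h1
  have h3 := card_primes_dvd (Pu u N H) q hP2 hq1
  have h4 : Real.log q ≤ Real.log N := by
    refine Real.log_le_log ?_ ?_
    · exact_mod_cast hq1
    · exact_mod_cast hqN
  set c := ((PP (Pu u N H)).filter fun p => p ∣ q).card with hc
  have hc0 : (0 : ℝ) ≤ c := Nat.cast_nonneg _
  have h5 : (c : ℝ) * (u * Real.log N) ≤ Real.log N :=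
    (mul_le_mul_of_nonneg_left h2 hc0).trans (h3.trans h4)
  have h6 : (c : ℝ) * u ≤ 1 := by
    by_contra hcon
    push Not at hcon
    nlinarith [mul_lt_mul_of_pos_right hcon hlN]
  have h7 : (c : ℝ) ≤ 1 / u := by
    rw [le_div_iff₀ hu]
    exact h6
  have h8 : c ≤ ⌈1 / u⌉₊ := by
    have := h7.trans (Nat.le_ceil (1 / u))
    exact_mod_cast this
  unfold Cu
  omega

end Pool.Agent.Lib.MP_6cded1_nt.M3
end

section

/-!
# The energy is large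

`fls` and `sum_phi_sq`: with `n = card A`, `(n H)² ≤ (∑ ‖B‖)² ≤ 18 M D² n² + 4 M (81/4) dm J D N En`.  `18 M D² ≤ (9/2) N D ≤ H² / 2` and `81 M D N ≤ (81/4) N²` (`4 D M ≤ N`).  So `n² H² / 2 ≤ (81/4) N² dm J En`.
(`En ≥ 0`, `dm ≥ 1 > 0`.)
-/

set_option autoImplicit false

open Finset Pool.Agent.Lib.MP_6cded1_nt.ML

namespace Pool.Agent.Lib.MP_6cded1_nt.M3

theorem energy (a b : ℕ → ℂ) (ha : ∀ d, ‖a d‖ ≤ 1) (hb : ∀ m, ‖b m‖ ≤ 1) (N D M : ℕ) (H dm : ℝ) (A : Finset ℕ)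
    (z : ℕ → ℝ) (hD : 1 ≤ D) (hM : 1 ≤ M) (hDM : 4 * D * M ≤ N) (hN8 : N ≤ 8 * D * M)
    (hz : ∀ i ∈ A, 0 ≤ z i ∧ z i < 1) (hdm1 : 1 ≤ dm)
    (hdm : ∀ g : ℕ, 1 ≤ g → g < 2 * M → (g.divisors.card : ℝ) ≤ dm) (hH0 : 0 < H) (hH : 9 * (N : ℝ) * D ≤ H ^ 2)
    (hB : ∀ i ∈ A, H < ‖B a b D M (z i)‖) :
    2 * (A.card : ℝ) ^ 2 * H ^ 2 ≤ 81 * N ^ 2 * dm * JJ N * En N M A z := by
  have hEn : 0 ≤ En N M A z := by
    unfold En
    refine Finset.sum_nonneg fun j _ => Finset.sum_nonneg fun g _ => ?_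
    have h1 : 0 ≤ wt M g j := by
      unfold wt
      refine le_min (by positivity) (by positivity)
    positivity
  have h1 := fls a b ha hb D M A z
  have h2 := sum_phi_sq N D M dm A z hD hM hDM hN8 hz hdm
  have h3 : (A.card : ℝ) * H ≤ ∑ i ∈ A, ‖B a b D M (z i)‖ := by
    have h := Finset.sum_le_sum (f := fun _ => H) (g := fun i => ‖B a b D M (z i)‖) (s := A)
      (fun i hi => (hB i hi).le)
    simpa [Finset.sum_const, nsmul_eq_mul] using h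
  have hn : (0 : ℝ) ≤ A.card := Nat.cast_nonneg _
  have h4 : ((A.card : ℝ) * H) ^ 2 ≤ (∑ i ∈ A, ‖B a b D M (z i)‖) ^ 2 :=
    pow_le_pow_left₀ (mul_nonneg hn hH0.le) h3 2
  have hDM' : 4 * (D : ℝ) * M ≤ N := by exact_mod_cast hDM
  have hDr : (1 : ℝ) ≤ D := by exact_mod_cast hD
  have hMr : (1 : ℝ) ≤ M := by exact_mod_cast hM
  have hNr : (0 : ℝ) ≤ N := Nat.cast_nonneg _
  have hJ : (0 : ℝ) ≤ (JJ N : ℝ) := Nat.cast_nonneg _
  have hdm0 : 0 ≤ dm := by linarith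
  have hn2 : 0 ≤ (A.card : ℝ) ^ 2 := sq_nonneg _
  -- first term
  have h5 : 18 * (M : ℝ) * D ^ 2 ≤ H ^ 2 / 2 := by nlinarith [mul_le_mul_of_nonneg_right hDM' (by linarith : (0:ℝ) ≤ D)]
  have h6 : 18 * (M : ℝ) * D ^ 2 * (A.card : ℝ) ^ 2 ≤ H ^ 2 / 2 * (A.card : ℝ) ^ 2 :=
    mul_le_mul_of_nonneg_right h5 hn2
  -- second term
  set Q : ℝ := dm * JJ N * En N M A z with hQ
  have hQ0 : 0 ≤ Q := by positivity
  have h7 : 4 * (M : ℝ) * (81 / 4 * dm * JJ N * D * N * En N M A z) = 81 * (M * D * N) * Q := by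
    rw [hQ]; ring
  have h8 : (M : ℝ) * D * N ≤ N ^ 2 / 4 := by nlinarith [mul_le_mul_of_nonneg_right hDM' hNr]
  have h9 : 81 * ((M : ℝ) * D * N) * Q ≤ 81 * ((N : ℝ) ^ 2 / 4) * Q := by
    apply mul_le_mul_of_nonneg_right _ hQ0
    linarith
  have h10 : 4 * (M : ℝ) * ∑ g ∈ Icc 1 (2 * M - 1), (∑ i ∈ A, cap (3 * D) (2 * nd ((g : ℝ) * z i))) ^ 2 ≤
      4 * (M : ℝ) * (81 / 4 * dm * JJ N * D * N * En N M A z) :=
    mul_le_mul_of_nonneg_left h2 (by positivity)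
  have h11 : ((A.card : ℝ) * H) ^ 2 ≤ H ^ 2 / 2 * (A.card : ℝ) ^ 2 + 81 * ((N : ℝ) ^ 2 / 4) * Q := by
    linarith
  have h12 : 81 * (N : ℝ) ^ 2 * dm * JJ N * En N M A z = 81 * (N : ℝ) ^ 2 * Q := by rw [hQ]; ring
  rw [h12]
  nlinarith

end Pool.Agent.Lib.MP_6cded1_nt.M3
end

section

/-!
# Case B

`level_split3` with `X = 49152 P⁴ card(PP P)² (∑ κ)² / N²`: for every grid point `y` with `4 C₂ ≤ card (sts y)`, `card² ≤ 2 #{pairs with Df}` (`pairs_comb`, `df_class`), so `EE (...) ≤ (2/W) ∑_j #pairs ≤ X` (`pairs_sum3`).  Compare `ML/Level3a.lean`.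
-/

set_option autoImplicit false

open Finset Pool.Agent.Lib.MP_6cded1_nt.ML

namespace Pool.Agent.Lib.MP_6cded1_nt.M3

open Classical in
theorem levelB3 (f : ℕ → ℂ) (hf : Mult f) (a b : ℕ → ℂ) (N D M P W : ℕ) (H t : ℝ) (hN : 1 ≤ N) (hNW : N ≤ W)
    (hPW : ∀ p ∈ PP P, p ^ 2 ∣ W) (hH : 0 ≤ H) (S : Finset (ℕ × ℕ)) (Λ : ℝ → Prop) (l : ℝ → ℕ × ℕ)
    (hl : Lbl N S Λ l) (hΛB : ∀ z, Λ z → ‖B a b D M z‖ ≤ 2 * H) (C₂ : ℕ)
    (hC₂ : ∀ s ∈ S, ((PP P).filter fun p => p ∣ s.1).card + 1 ≤ C₂) (hC₂P : 2 * C₂ ≤ (PP P).card)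
    (hpars : EE W t (fun x => ‖F f N x‖ ^ 2) ≤ N) (ht : 0 ≤ t) (ht' : t ≤ 1 / W)
    (hsm : ∀ s ∈ S, 64 * kap s * P ^ 2 < N) :
    (PP P).card * EE W t (fun z => ‖F f N z‖ * sel (Λ z) ‖B a b D M z‖) ≤
      4 * H * (4 * C₂ * EE W t (fun z => ‖F f N z‖) +
        Real.sqrt (N * (49152 * P ^ 4 * ((PP P).card : ℝ) ^ 2 * (∑ s ∈ S, kap s) ^ 2 / N ^ 2))) := by
  have hW : 1 ≤ W := hN.trans hNW
  have hWpos : (0 : ℝ) < W := by exact_mod_cast hW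
  refine level_split3 f hf a b N D M P W H t _ hW hPW hH S Λ l hl hΛB C₂ hC₂ hC₂P hpars ?_
  have hsum := pairs_sum3 N P W hN hNW S Λ l hl hsm t ht ht'
  have hterm : ∀ j ∈ range W,
      sel (4 * C₂ ≤ (sts P Λ l (gp W t j)).card) (((sts P Λ l (gp W t j)).card : ℝ) ^ 2) ≤
      2 * (((sts P Λ l (gp W t j) ×ˢ sts P Λ l (gp W t j)).filter fun x =>
        Df l (gp W t j) x.1 x.2).card : ℝ) := by
    intro j _
    by_cases hm : 4 * C₂ ≤ (sts P Λ l (gp W t j)).card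
    · rw [sel_pos hm]
      have h2 := pairs_comb (sts P Λ l (gp W t j)) (Df l (gp W t j)) C₂
        (fun s hs => df_class N P S Λ l hl (gp W t j) C₂ hC₂ s hs) hm
      exact_mod_cast h2
    · rw [sel_neg hm]
      positivity
  unfold EE
  rw [div_le_iff₀ hWpos]
  calc (∑ j ∈ range W, sel (4 * C₂ ≤ (sts P Λ l (gp W t j)).card)
        (((sts P Λ l (gp W t j)).card : ℝ) ^ 2))
      ≤ ∑ j ∈ range W, 2 * (((sts P Λ l (gp W t j) ×ˢ sts P Λ l (gp W t j)).filter fun x =>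
          Df l (gp W t j) x.1 x.2).card : ℝ) :=
        Finset.sum_le_sum hterm
    _ = 2 * ∑ j ∈ range W, (((sts P Λ l (gp W t j) ×ˢ sts P Λ l (gp W t j)).filter fun x =>
          Df l (gp W t j) x.1 x.2).card : ℝ) := by
        rw [Finset.mul_sum]
    _ ≤ 2 * (24576 * P ^ 4 * ((PP P).card : ℝ) ^ 2 * (∑ s ∈ S, kap s) ^ 2 / N ^ 2 * W) :=
        mul_le_mul_of_nonneg_left hsum (by norm_num)
    _ = 49152 * P ^ 4 * ((PP P).card : ℝ) ^ 2 * (∑ s ∈ S, kap s) ^ 2 / N ^ 2 * W := by ring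

end Pool.Agent.Lib.MP_6cded1_nt.M3
end

section

/-!
# Case A

`level_split3` with `X = 3 * 10^10 card(PP P) P⁸ (∑ κ)⁴ / N³`: for every grid point `y` with `4 C₂ ≤ card (sts y)`, `card² ≤ #{triples} ≤ 3 #{triples with least j first}` (`triples_comb`, `df_class`, `triples_min` with `w s = (lab l y s).2`; `Df` is symmetric), `triples_sum3`.  Compare `ML/Level3b.lean`.
-/

set_option autoImplicit false

open Finset Pool.Agent.Lib.MP_6cded1_nt.ML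

namespace Pool.Agent.Lib.MP_6cded1_nt.M3

open Classical in
theorem levelA3 (f : ℕ → ℂ) (hf : Mult f) (a b : ℕ → ℂ) (N D M P W : ℕ) (H t : ℝ) (hN : 1 ≤ N) (hP : 2 ≤ P)
    (hNW : N ≤ W) (hPW : ∀ p ∈ PP P, p ^ 2 ∣ W) (hH : 0 ≤ H) (S : Finset (ℕ × ℕ)) (Λ : ℝ → Prop)
    (l : ℝ → ℕ × ℕ) (hl : Lbl N S Λ l) (hΛB : ∀ z, Λ z → ‖B a b D M z‖ ≤ 2 * H) (C₂ : ℕ) (h1 : 1 ≤ C₂)
    (hC₂ : ∀ s ∈ S, ((PP P).filter fun p => p ∣ s.1).card + 1 ≤ C₂) (hC₂P : 2 * C₂ ≤ (PP P).card)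
    (hpars : EE W t (fun x => ‖F f N x‖ ^ 2) ≤ N) (ht : 0 ≤ t) (ht' : t ≤ 1 / W)
    (hsm : ∀ s ∈ S, 64 * kap s * P ^ 2 < N)
    (hsm3 : ∀ s ∈ S, ∀ s' ∈ S, 1024 * kap s * kap s' * P ^ 3 < N) :
    (PP P).card * EE W t (fun z => ‖F f N z‖ * sel (Λ z) ‖B a b D M z‖) ≤
      4 * H * (4 * C₂ * EE W t (fun z => ‖F f N z‖) +
        Real.sqrt (N * (3 * 10 ^ 10 * ((PP P).card : ℝ) * P ^ 8 * (∑ s ∈ S, kap s) ^ 4 / N ^ 3))) := by
  have hW : 1 ≤ W := le_trans hN hNW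
  have hW0 : (0 : ℝ) < W := by exact_mod_cast hW
  refine level_split3 f hf a b N D M P W H t _ hW hPW hH S Λ l hl hΛB C₂ hC₂ hC₂P hpars ?_
  have hsum := triples_sum3 N P W hN hP hNW S Λ l hl hsm hsm3 t ht ht'
  have hle : (∑ j ∈ range W, sel (4 * C₂ ≤ (sts P Λ l (gp W t j)).card)
      (((sts P Λ l (gp W t j)).card : ℝ) ^ 2)) ≤
      ∑ j ∈ range W, 3 * (((sts P Λ l (gp W t j) ×ˢ sts P Λ l (gp W t j) ×ˢ sts P Λ l (gp W t j)).filter fun x =>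
      (Df l (gp W t j) x.1 x.2.1 ∧ Df l (gp W t j) x.1 x.2.2 ∧ Df l (gp W t j) x.2.1 x.2.2) ∧
        (lab l (gp W t j) x.1).2 ≤ (lab l (gp W t j) x.2.1).2 ∧
        (lab l (gp W t j) x.1).2 ≤ (lab l (gp W t j) x.2.2).2).card : ℝ) := by
    refine Finset.sum_le_sum ?_
    intro j _
    by_cases hA : 4 * C₂ ≤ (sts P Λ l (gp W t j)).card
    · rw [sel_pos hA]
      have h3 := triples_comb (sts P Λ l (gp W t j)) (Df l (gp W t j)) C₂ h1
        (fun s hs => df_class N P S Λ l hl (gp W t j) C₂ hC₂ s hs) hA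
      have h4 := triples_min (sts P Λ l (gp W t j)) (Df l (gp W t j))
        (fun x y hxy => by
          unfold Df at hxy ⊢
          exact Ne.symm hxy) (fun s => (lab l (gp W t j) s).2)
      have h5 := h3.trans h4
      exact_mod_cast h5
    · rw [sel_neg hA]
      positivity
  rw [← Finset.mul_sum] at hle
  unfold EE
  rw [div_le_iff₀ hW0]
  refine (hle.trans (mul_le_mul_of_nonneg_left hsum (by norm_num))).trans (le_of_eq ?_)
  ring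

end Pool.Agent.Lib.MP_6cded1_nt.M3
end

section

/-!
# Existence of a dense cluster

`n = card A`, `r = n H² / (81 N² dm J²)`.  `energy`, `En ≤ J n (ρ + 6 T √(n/N))` if `cc ≤ ρ κ` for all `g < 2M`, `j < J` (`layer_bound`): `2 n² H² ≤ 81 N² dm J² n (ρ + 6 T √(n/N))`, i.e. `2 r ≤ ρ + 6 T √(n/N) < ρ + r` (`n > 0` because `hnum` fails for `n = 0`).
`dense`: if no cluster has `r κ ≤ cc`, this holds with `ρ = r`: contradiction.  `card_upper`: `ρ = 8` (`cc_le`): `r < 8`.  (`A ⊆ range N`: `0 ≤ z i < 1`.)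
-/

set_option autoImplicit false

open Finset Pool.Agent.Lib.MP_6cded1_nt.ML

namespace Pool.Agent.Lib.MP_6cded1_nt.M3

private theorem r_lt (a b : ℕ → ℂ) (ha : ∀ d, ‖a d‖ ≤ 1) (hb : ∀ m, ‖b m‖ ≤ 1) (N D M : ℕ) (H dm : ℝ) (A : Finset ℕ)
    (z : ℕ → ℝ) (hD : 1 ≤ D) (hM : 1 ≤ M) (hDM : 4 * D * M ≤ N) (hN8 : N ≤ 8 * D * M) (hz : InCell N A z)
    (hdm1 : 1 ≤ dm) (hdm : ∀ g : ℕ, 1 ≤ g → g < 2 * M → (g.divisors.card : ℝ) ≤ dm) (hH0 : 0 < H)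
    (hH : 9 * (N : ℝ) * D ≤ H ^ 2) (hB : ∀ i ∈ A, H < ‖B a b D M (z i)‖)
    (hnum : 6 * TT N M * Real.sqrt (A.card / N) < A.card * H ^ 2 / (81 * N ^ 2 * dm * JJ N ^ 2)) (ρ : ℝ) (hρ0 : 0 ≤ ρ)
    (hρ : ∀ j ∈ range (JJ N), ∀ g ∈ Icc 1 (2 * M - 1), (cc N A z g j : ℝ) ≤ ρ * ((g : ℝ) * 2 ^ j)) :
    A.card * H ^ 2 / (81 * N ^ 2 * dm * JJ N ^ 2) < ρ := by
  have hN1 : 1 ≤ N := by
    have : 1 * 1 ≤ D * M := Nat.mul_le_mul hD hM
    have e : 4 * D * M = 4 * (D * M) := by ring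
    omega
  have hNR : (0 : ℝ) < N := by exact_mod_cast hN1
  have hMN : 4 * M ≤ N := by
    refine le_trans ?_ hDM
    have : 1 * M ≤ D * M := Nat.mul_le_mul_right _ hD
    nlinarith
  have hJ1 : (1 : ℝ) ≤ JJ N := by
    unfold JJ
    push_cast
    have : (0 : ℝ) ≤ (Nat.log 2 N : ℝ) := Nat.cast_nonneg _
    linarith
  have hJ0 : (0 : ℝ) < JJ N := by linarith
  have hdm0 : 0 < dm := by linarith
  have hz' : ∀ i ∈ A, 0 ≤ z i ∧ z i < 1 := by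
    intro i hi
    obtain ⟨h1, h2, h3⟩ := hz i hi
    refine ⟨le_trans (by positivity) h2, lt_of_lt_of_le h3 ?_⟩
    rw [div_le_one hNR]
    exact_mod_cast h1
  have hE := energy a b ha hb N D M H dm A z hD hM hDM hN8 hz' hdm1 hdm hH0 hH hB
  have hEn : En N M A z ≤ JJ N * (A.card * (ρ + 6 * TT N M * Real.sqrt (A.card / N))) := by
    unfold En
    calc ∑ j ∈ range (JJ N), ∑ g ∈ Icc 1 (2 * M - 1), (cc N A z g j : ℝ) ^ 2 * wt M g j
        ≤ ∑ j ∈ range (JJ N), (A.card : ℝ) * (ρ + 6 * TT N M * Real.sqrt (A.card / N)) :=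
          Finset.sum_le_sum fun j hj => layer_bound N M j hN1 hM hMN A z hz ρ hρ0 (hρ j hj)
      _ = _ := by rw [Finset.sum_const, Finset.card_range, nsmul_eq_mul]
  have hn0 : (0 : ℝ) < A.card := by
    rcases Nat.eq_zero_or_pos A.card with h0 | h0
    · rw [h0] at hnum
      simp at hnum
    · exact_mod_cast h0
  set n : ℝ := (A.card : ℝ) with hn
  set s : ℝ := 6 * TT N M * Real.sqrt (n / N) with hs
  set C : ℝ := 81 * (N : ℝ) ^ 2 * dm * JJ N ^ 2 with hC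
  have hC0 : 0 < C := by positivity
  have h1 : 2 * n ^ 2 * H ^ 2 ≤ C * n * (ρ + s) := by
    refine hE.trans ?_
    have h2 : 81 * (N : ℝ) ^ 2 * dm * JJ N * En N M A z ≤
        81 * (N : ℝ) ^ 2 * dm * JJ N * (JJ N * (n * (ρ + s))) :=
      mul_le_mul_of_nonneg_left hEn (by positivity)
    refine h2.trans (le_of_eq ?_)
    rw [hC]
    ring
  have h2 : 2 * (n * H ^ 2) ≤ C * (ρ + s) := by
    have : n * (2 * (n * H ^ 2)) ≤ n * (C * (ρ + s)) := by nlinarith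
    exact le_of_mul_le_mul_left this hn0
  have h3 : 2 * (n * H ^ 2 / C) ≤ ρ + s := by
    have : 2 * (n * H ^ 2 / C) = 2 * (n * H ^ 2) / C := by ring
    rw [this, div_le_iff₀ hC0]
    linarith
  linarith

theorem dense (a b : ℕ → ℂ) (ha : ∀ d, ‖a d‖ ≤ 1) (hb : ∀ m, ‖b m‖ ≤ 1) (N D M : ℕ) (H dm : ℝ) (A : Finset ℕ)
    (z : ℕ → ℝ) (hD : 1 ≤ D) (hM : 1 ≤ M) (hDM : 4 * D * M ≤ N) (hN8 : N ≤ 8 * D * M) (hz : InCell N A z)
    (hdm1 : 1 ≤ dm) (hdm : ∀ g : ℕ, 1 ≤ g → g < 2 * M → (g.divisors.card : ℝ) ≤ dm) (hH0 : 0 < H)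
    (hH : 9 * (N : ℝ) * D ≤ H ^ 2) (hB : ∀ i ∈ A, H < ‖B a b D M (z i)‖)
    (hnum : 6 * TT N M * Real.sqrt (A.card / N) < A.card * H ^ 2 / (81 * N ^ 2 * dm * JJ N ^ 2)) :
    ∃ g ∈ Icc 1 (2 * M - 1), ∃ j ∈ range (JJ N),
      A.card * H ^ 2 / (81 * N ^ 2 * dm * JJ N ^ 2) * ((g : ℝ) * 2 ^ j) ≤ cc N A z g j := by
  by_contra hcon
  push Not at hcon
  have h0 : 0 ≤ A.card * H ^ 2 / (81 * (N : ℝ) ^ 2 * dm * JJ N ^ 2) := by positivity
  exact lt_irrefl _ (r_lt a b ha hb N D M H dm A z hD hM hDM hN8 hz hdm1 hdm hH0 hH hB hnum _ h0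
    (fun j hj g hg => (hcon g hg j hj).le))

theorem card_upper (a b : ℕ → ℂ) (ha : ∀ d, ‖a d‖ ≤ 1) (hb : ∀ m, ‖b m‖ ≤ 1) (N D M : ℕ) (H dm : ℝ) (A : Finset ℕ)
    (z : ℕ → ℝ) (hD : 1 ≤ D) (hM : 1 ≤ M) (hDM : 4 * D * M ≤ N) (hN8 : N ≤ 8 * D * M) (hz : InCell N A z)
    (hdm1 : 1 ≤ dm) (hdm : ∀ g : ℕ, 1 ≤ g → g < 2 * M → (g.divisors.card : ℝ) ≤ dm) (hH0 : 0 < H)
    (hH : 9 * (N : ℝ) * D ≤ H ^ 2) (hB : ∀ i ∈ A, H < ‖B a b D M (z i)‖)
    (hnum : 6 * TT N M * Real.sqrt (A.card / N) < A.card * H ^ 2 / (81 * N ^ 2 * dm * JJ N ^ 2)) :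
    (A.card : ℝ) ≤ 648 * N ^ 2 * dm * JJ N ^ 2 / H ^ 2 := by
  have hN1 : 1 ≤ N := by
    have : 1 * 1 ≤ D * M := Nat.mul_le_mul hD hM
    have e : 4 * D * M = 4 * (D * M) := by ring
    omega
  have hNR : (0 : ℝ) < N := by exact_mod_cast hN1
  have hJ0 : (0 : ℝ) < JJ N := by
    unfold JJ
    push_cast
    positivity
  have h1 := r_lt a b ha hb N D M H dm A z hD hM hDM hN8 hz hdm1 hdm hH0 hH hB hnum 8 (by norm_num)
    (fun j _ g hg => cc_le N hN1 A z hz g j (Finset.mem_Icc.1 hg).1)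
  have hC0 : 0 < 81 * (N : ℝ) ^ 2 * dm * JJ N ^ 2 := by positivity
  rw [div_lt_iff₀ hC0] at h1
  rw [le_div_iff₀ (by positivity)]
  linarith

end Pool.Agent.Lib.MP_6cded1_nt.M3
end

section

/-!
# The divisor bound

As `num_dm` in `ML/Num6b.lean` (there is a private `exists_card_divisors_le'`: copy it): `d(q) ≤ C q^{u/8} ≤ N^{u/4}`.
-/

set_option autoImplicit false

open Finset Pool.Agent.Lib.MP_6cded1_nt.ML

namespace Pool.Agent.Lib.MP_6cded1_nt.M3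

private theorem tau_aux' {a : ℝ} (ha : 0 < a) (v : ℕ) :
    (v : ℝ) + 1 ≤ (1 + 1 / a) * Real.exp (a * v) := by
  have h1 : 1 + a * v ≤ Real.exp (a * v) := by
    have := Real.add_one_le_exp (a * v)
    linarith
  have h2 : 0 < 1 + 1 / a := by positivity
  have h3 : (1 + 1 / a) * (1 + a * v) = 1 + v + a * v + 1 / a := by
    field_simp
    ring
  have h4 : (0 : ℝ) ≤ a * v := by positivity
  have h5 : 0 < 1 / a := by positivity
  calc (v : ℝ) + 1 ≤ (1 + 1 / a) * (1 + a * v) := by rw [h3]; linarith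
    _ ≤ _ := mul_le_mul_of_nonneg_left h1 h2.le

private theorem exists_card_divisors_le' (ε : ℝ) (hε : 0 < ε) :
    ∃ C : ℝ, 1 ≤ C ∧ ∀ n : ℕ, n ≠ 0 → (n.divisors.card : ℝ) ≤ C * (n : ℝ) ^ ε := by
  have hlog : 0 < Real.log 2 := Real.log_pos (by norm_num)
  set a : ℝ := ε * Real.log 2 with ha_def
  have ha : 0 < a := mul_pos hε hlog
  set C1 : ℝ := 1 + 1 / a with hC1
  have hC1' : 1 ≤ C1 := by
    have : 0 < 1 / a := by positivity
    rw [hC1]; linarith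
  obtain ⟨P0, hP0⟩ := exists_nat_ge ((2 : ℝ) ^ (1 / ε))
  refine ⟨C1 ^ P0, one_le_pow₀ hC1', fun n hn => ?_⟩
  rw [Nat.card_divisors hn]
  push_cast
  set c : ℕ → ℝ := fun p => if p < P0 then C1 else 1 with hc
  have key : ∀ p ∈ n.primeFactors,
      ((n.factorization p : ℝ) + 1) ≤ c p * (((p : ℝ) ^ (n.factorization p)) ^ ε) := by
    intro p hp
    have hpp : p.Prime := Nat.prime_of_mem_primeFactors hp
    have hp2 : (2 : ℝ) ≤ p := by exact_mod_cast hpp.two_le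
    have hp0 : (0 : ℝ) < p := by linarith
    set v := n.factorization p with hv
    have e1 : ((p : ℝ) ^ v) ^ ε = Real.exp (ε * Real.log p * v) := by
      rw [← Real.rpow_natCast, ← Real.rpow_mul hp0.le, Real.rpow_def_of_pos hp0]
      congr 1
      ring
    rw [e1]
    by_cases hlt : p < P0
    · simp only [hc, if_pos hlt]
      refine (tau_aux' ha v).trans ?_
      refine mul_le_mul_of_nonneg_left ?_ (by linarith)
      apply Real.exp_le_exp.2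
      apply mul_le_mul_of_nonneg_right _ (Nat.cast_nonneg v)
      rw [ha_def]
      exact mul_le_mul_of_nonneg_left (Real.log_le_log (by norm_num) hp2) hε.le
    · simp only [hc, if_neg hlt, one_mul]
      have h1 : (2 : ℝ) ^ (1 / ε) ≤ p := hP0.trans (by exact_mod_cast not_lt.1 hlt)
      have h2 : Real.log 2 ≤ ε * Real.log p := by
        have h3 := Real.log_le_log (by positivity) h1
        rw [Real.log_rpow (by norm_num)] at h3
        have h4 := mul_le_mul_of_nonneg_left h3 hε.le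
        have h5 : ε * (1 / ε * Real.log 2) = Real.log 2 := by field_simp
        rw [h5] at h4
        exact h4
      have h3 : ((v : ℝ) + 1) ≤ (2 : ℝ) ^ v := by
        have : v + 1 ≤ 2 ^ v := Nat.lt_two_pow_self
        exact_mod_cast this
      refine h3.trans ?_
      have h4 : (2 : ℝ) ^ v = Real.exp (Real.log 2 * v) := by
        rw [mul_comm, Real.exp_nat_mul, Real.exp_log (by norm_num)]
      rw [h4]
      apply Real.exp_le_exp.2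
      exact mul_le_mul_of_nonneg_right h2 (Nat.cast_nonneg v)
  calc ∏ p ∈ n.primeFactors, ((n.factorization p : ℝ) + 1)
      ≤ ∏ p ∈ n.primeFactors, (c p * (((p : ℝ) ^ (n.factorization p)) ^ ε)) :=
        Finset.prod_le_prod (fun p _ => by positivity) key
    _ = (∏ p ∈ n.primeFactors, c p) * (n : ℝ) ^ ε := by
        rw [Finset.prod_mul_distrib]
        congr 1
        rw [Real.finsetProd_rpow _ _ (fun p _ => by positivity)]
        congr 1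
        have := Nat.prod_factorization_pow_eq_self hn
        conv_rhs => rw [← this]
        rw [Finsupp.prod, Nat.support_factorization]
        push_cast
        rfl
    _ ≤ C1 ^ P0 * (n : ℝ) ^ ε := by
        apply mul_le_mul_of_nonneg_right _ (by positivity)
        have h1 : ∏ p ∈ n.primeFactors, c p = C1 ^ (n.primeFactors.filter (· < P0)).card := by
          rw [← Finset.prod_filter_mul_prod_filter_not n.primeFactors (· < P0) c]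
          rw [Finset.prod_congr rfl (g := fun _ => C1), Finset.prod_const,
            Finset.prod_eq_one (s := n.primeFactors.filter (fun x => ¬ x < P0)), mul_one]
          · intro p hp
            simp only [hc, if_neg (Finset.mem_filter.1 hp).2]
          · intro p hp
            simp only [hc, if_pos (Finset.mem_filter.1 hp).2]
        rw [h1]
        apply pow_le_pow_right₀ hC1'
        calc (n.primeFactors.filter (· < P0)).card ≤ (Finset.range P0).card :=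
              Finset.card_le_card fun p hp => Finset.mem_range.2 (Finset.mem_filter.1 hp).2
          _ = P0 := Finset.card_range P0

theorem num_div (u : ℝ) (hu : 0 < u) : ∃ N₀ : ℕ, ∀ N : ℕ, N₀ ≤ N → ∀ q : ℕ, 1 ≤ q → q ≤ N →
    (q.divisors.card : ℝ) ≤ du u N := by
  obtain ⟨C, hC, h⟩ := exists_card_divisors_le' (u / 8) (by positivity)
  have h1 : Filter.Tendsto (fun N : ℕ => (N : ℝ) ^ (u / 8)) Filter.atTop Filter.atTop :=
    (tendsto_rpow_atTop (by positivity)).comp tendsto_natCast_atTop_atTop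
  obtain ⟨N₀, hN₀⟩ := Filter.eventually_atTop.1 (h1.eventually_ge_atTop C)
  refine ⟨max N₀ 1, fun N hN q hq1 hqN => ?_⟩
  have hN1 : N₀ ≤ N := le_trans (le_max_left _ _) hN
  have hN2 : 1 ≤ N := le_trans (le_max_right _ _) hN
  have hNpos : (0 : ℝ) < N := by exact_mod_cast hN2
  have h2 := h q (by omega)
  have h3 : (q : ℝ) ^ (u / 8) ≤ (N : ℝ) ^ (u / 8) :=
    Real.rpow_le_rpow (by positivity) (by exact_mod_cast hqN) (by positivity)
  unfold du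
  calc (q.divisors.card : ℝ) ≤ C * (q : ℝ) ^ (u / 8) := h2
    _ ≤ (N : ℝ) ^ (u / 8) * (N : ℝ) ^ (u / 8) :=
        mul_le_mul (hN₀ N hN1) h3 (by positivity) (by positivity)
    _ = (N : ℝ) ^ (u / 4) := by
        rw [← Real.rpow_add hNpos]
        congr 1
        ring

end Pool.Agent.Lib.MP_6cded1_nt.M3
end

section

/-!
# The structure theorem

`A₀` = the `i ∈ range N` for which there is `x`, `i/N ≤ x < (i+1)/N`, `H < ‖B x‖ ≤ 2H`; choose `z i`.  `r₀ = n₀ H² / (81 N² dm J²)`.  `greedy` with `I = Icc 1 (2M-1) ×ˢ range (JJ N)`, `C s i = Cst N s.1 s.2 (z i)`, `w s = r₀ kap s`: for `A ⊆ A₀`, `n = card A ≥ n₀`: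
the numerical condition of `dense` follows from `hnum`: `√(n/N) ≤ √(n₀/N) * (n/n₀)` as `n ≥ n₀`; and `n H²/(...) ≥ r₀`.  `C := A₀ \\ A₁` (bad cells), `l z = σ ⌊N fract z⌋₊`.
For `z` with `H < ‖B z‖ ≤ 2H` (periodicity `B_add_int`) the cell `i = ⌊N fract z⌋₊` is in `A₀`; if it is not in `C` it is in `A₁`, so `l z ∈ S` and `|z i - a/g| ≤ 2^j/N`, `|fract z - z i| ≤ 1/N ≤ 2^j/N`, so
`nd (g z) = nd (g fract z) ≤ |g fract z - a| ≤ 2 g 2^j / N`.  `∑ r₀ kap ≤ card A₀`, and `card A₀ < n₀` or `card_upper` applies.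
-/

set_option autoImplicit false

open Finset Pool.Agent.Lib.MP_6cded1_nt.ML

namespace Pool.Agent.Lib.MP_6cded1_nt.M3

private theorem num_up {N : ℕ} {T L H n₀ n : ℝ} (hN : 1 ≤ N) (hT : 0 ≤ T) (hn₀ : 0 < n₀) (hn : n₀ ≤ n)
    (h : 6 * T * Real.sqrt (n₀ / N) < n₀ * H ^ 2 / L) :
    6 * T * Real.sqrt (n / N) < n * H ^ 2 / L := by
  have hNp : (0 : ℝ) < N := by exact_mod_cast hN
  have hq : 1 ≤ n / n₀ := (one_le_div hn₀).2 hn
  have hq0 : 0 < n / n₀ := lt_of_lt_of_le one_pos hq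
  have e1 : n / N = n₀ / N * (n / n₀) := by field_simp
  have h1 : Real.sqrt (n / N) ≤ Real.sqrt (n₀ / N) * (n / n₀) := by
    rw [e1, Real.sqrt_mul (div_nonneg hn₀.le hNp.le)]
    refine mul_le_mul_of_nonneg_left ?_ (Real.sqrt_nonneg _)
    rw [Real.sqrt_le_left hq0.le]
    nlinarith
  have e2 : n * H ^ 2 / L = n₀ * H ^ 2 / L * (n / n₀) := by
    field_simp
  rw [e2]
  calc 6 * T * Real.sqrt (n / N) ≤ 6 * T * (Real.sqrt (n₀ / N) * (n / n₀)) :=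
        mul_le_mul_of_nonneg_left h1 (by positivity)
    _ = 6 * T * Real.sqrt (n₀ / N) * (n / n₀) := by ring
    _ < n₀ * H ^ 2 / L * (n / n₀) := mul_lt_mul_of_pos_right h hq0

private theorem TT_nonneg (N M : ℕ) : 0 ≤ TT N M := by
  unfold TT
  positivity

theorem structure_thm (a b : ℕ → ℂ) (ha : ∀ d, ‖a d‖ ≤ 1) (hb : ∀ m, ‖b m‖ ≤ 1) (N D M : ℕ) (H dm n₀ : ℝ)
    (hN : 1 ≤ N) (hD : 1 ≤ D) (hM : 1 ≤ M) (hDM : 4 * D * M ≤ N) (hN8 : N ≤ 8 * D * M)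
    (hdm1 : 1 ≤ dm) (hdm : ∀ g : ℕ, 1 ≤ g → g < 2 * M → (g.divisors.card : ℝ) ≤ dm) (hH0 : 0 < H)
    (hH : 9 * (N : ℝ) * D ≤ H ^ 2) (hn₀ : 0 < n₀)
    (hnum : 6 * TT N M * Real.sqrt (n₀ / N) < n₀ * H ^ 2 / (81 * N ^ 2 * dm * JJ N ^ 2)) :
    ∃ (S : Finset (ℕ × ℕ)) (l : ℝ → ℕ × ℕ) (C : Finset ℕ), (C.card : ℝ) ≤ n₀ ∧
      Lbl N S (fun z => (H < ‖B a b D M z‖ ∧ ‖B a b D M z‖ ≤ 2 * H) ∧ ⌊(N : ℝ) * Int.fract z⌋₊ ∉ C) l ∧
      (∀ s ∈ S, s.1 < 2 * M) ∧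
      (∑ s ∈ S, kap s) * (n₀ * H ^ 2 / (81 * N ^ 2 * dm * JJ N ^ 2)) ≤
        max n₀ (648 * N ^ 2 * dm * JJ N ^ 2 / H ^ 2) := by
  classical
  have hNp : (0 : ℝ) < N := by exact_mod_cast hN
  have hJp : (0 : ℝ) < JJ N := by
    unfold JJ
    positivity
  have hLp : (0 : ℝ) < 81 * N ^ 2 * dm * JJ N ^ 2 := by positivity
  have hr₀ : 0 < n₀ * H ^ 2 / (81 * N ^ 2 * dm * JJ N ^ 2) := by positivity
  -- cells
  set PP0 : ℕ → ℝ → Prop := fun i x =>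
    (i : ℝ) / N ≤ x ∧ x < ((i : ℝ) + 1) / N ∧ H < ‖B a b D M x‖ ∧ ‖B a b D M x‖ ≤ 2 * H with hPP0
  set A₀ : Finset ℕ := (range N).filter fun i => ∃ x, PP0 i x with hA₀
  have hz0 : ∃ z : ℕ → ℝ, ∀ i ∈ A₀, PP0 i (z i) := by
    refine ⟨fun i => if h : ∃ x, PP0 i x then h.choose else 0, fun i hi => ?_⟩
    have h : ∃ x, PP0 i x := (mem_filter.1 hi).2
    simp only [dif_pos h]
    exact h.choose_spec
  obtain ⟨z, hz⟩ := hz0
  have hcell : ∀ A ⊆ A₀, InCell N A z := by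
    intro A hA i hi
    have h1 := hz i (hA hi)
    exact ⟨mem_range.1 (mem_filter.1 (hA hi)).1, h1.1, h1.2.1⟩
  have hBig : ∀ A ⊆ A₀, ∀ i ∈ A, H < ‖B a b D M (z i)‖ := fun A hA i hi => (hz i (hA hi)).2.2.1
  have hnumA : ∀ A ⊆ A₀, n₀ ≤ (A.card : ℝ) →
      6 * TT N M * Real.sqrt (A.card / N) < A.card * H ^ 2 / (81 * N ^ 2 * dm * JJ N ^ 2) :=
    fun A _ hA => num_up hN (TT_nonneg N M) hn₀ hA hnum
  set w : ℕ × ℕ → ℝ := fun s => n₀ * H ^ 2 / (81 * N ^ 2 * dm * JJ N ^ 2) * kap s with hw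
  obtain ⟨S, A₁, σ, hS, hA₁, hσ, hcard, hsum⟩ := greedy A₀ (Icc 1 (2 * M - 1) ×ˢ range (JJ N))
    (fun s i => Cst N s.1 s.2 (z i)) w
    (fun s hs => mul_pos hr₀ (kap_pos (mem_Icc.1 (mem_product.1 hs).1).1)) n₀ hn₀ (1, 0) (by
      intro A hA hAn
      obtain ⟨g, hg, j, hj, hgj⟩ := dense a b ha hb N D M H dm A z hD hM hDM hN8 (hcell A hA) hdm1 hdm hH0 hH
        (hBig A hA) (hnumA A hA hAn)
      refine ⟨(g, j), mem_product.2 ⟨hg, hj⟩, ?_⟩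
      refine le_trans ?_ hgj
      simp only [hw, kap]
      refine mul_le_mul_of_nonneg_right ?_ (by positivity)
      exact div_le_div_of_nonneg_right (mul_le_mul_of_nonneg_right hAn (by positivity)) hLp.le)
  have hSI : ∀ s ∈ S, 1 ≤ s.1 ∧ s.1 ≤ 2 * M - 1 := fun s hs => mem_Icc.1 (mem_product.1 (hS hs)).1
  -- the cell of a point
  have hcellz : ∀ x : ℝ, H < ‖B a b D M x‖ → ‖B a b D M x‖ ≤ 2 * H →
      ⌊(N : ℝ) * Int.fract x⌋₊ ∈ A₀ ∧ ((⌊(N : ℝ) * Int.fract x⌋₊ : ℕ) : ℝ) / N ≤ Int.fract x ∧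
        Int.fract x < (((⌊(N : ℝ) * Int.fract x⌋₊ : ℕ) : ℝ) + 1) / N := by
    intro x h1 h2
    have hf0 : 0 ≤ Int.fract x := Int.fract_nonneg x
    have hf1 : Int.fract x < 1 := Int.fract_lt_one x
    have hNf : 0 ≤ (N : ℝ) * Int.fract x := mul_nonneg hNp.le hf0
    have h3 := Nat.floor_le hNf
    have h4 := Nat.lt_floor_add_one ((N : ℝ) * Int.fract x)
    have h5 : ((⌊(N : ℝ) * Int.fract x⌋₊ : ℕ) : ℝ) / N ≤ Int.fract x := by
      rw [div_le_iff₀ hNp]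
      linarith
    have h6 : Int.fract x < (((⌊(N : ℝ) * Int.fract x⌋₊ : ℕ) : ℝ) + 1) / N := by
      rw [lt_div_iff₀ hNp]
      linarith
    refine ⟨mem_filter.2 ⟨mem_range.2 ?_, Int.fract x, h5, h6, ?_⟩, h5, h6⟩
    · have h7 : ((⌊(N : ℝ) * Int.fract x⌋₊ : ℕ) : ℝ) < N := by nlinarith
      exact_mod_cast h7
    · have e : Int.fract x = x + ((-⌊x⌋ : ℤ) : ℝ) := by
        push_cast
        rw [← sub_eq_add_neg]
        exact (Int.self_sub_floor x).symm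
      rw [e, B_add_int]
      exact ⟨h1, h2⟩
  refine ⟨S, fun x => σ ⌊(N : ℝ) * Int.fract x⌋₊, A₀ \ A₁, hcard.le, ?_, ?_, ?_⟩
  · refine ⟨?_, fun s hs => (hSI s hs).1, ?_, ?_, ?_⟩
    · rintro x ⟨⟨h1, h2⟩, h3⟩
      obtain ⟨h4, -, -⟩ := hcellz x h1 h2
      have h5 : ⌊(N : ℝ) * Int.fract x⌋₊ ∈ A₁ := by
        by_contra h6
        exact h3 (mem_sdiff.2 ⟨h4, h6⟩)
      exact (hσ _ h5).1
    · rintro x ⟨⟨h1, h2⟩, h3⟩
      obtain ⟨h4, h5, h6⟩ := hcellz x h1 h2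
      have h7 : ⌊(N : ℝ) * Int.fract x⌋₊ ∈ A₁ := by
        by_contra h8
        exact h3 (mem_sdiff.2 ⟨h4, h8⟩)
      have hz1 := hz _ h4
      obtain ⟨hsS, hsC⟩ := hσ _ h7
      set i := ⌊(N : ℝ) * Int.fract x⌋₊ with hi
      obtain ⟨c, hcg, -, hcz⟩ := hsC
      have hg1 : 1 ≤ (σ i).1 := (hSI _ hsS).1
      have hg0 : (0 : ℝ) < (σ i).1 := by exact_mod_cast hg1
      have h8 : |Int.fract x - z i| ≤ 1 / N := by
        have h9 : ((i : ℝ) + 1) / N = (i : ℝ) / N + 1 / N := by rw [add_div]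
        rw [abs_le]
        constructor
        · linarith [hz1.2.1]
        · linarith [hz1.1]
      have h10 : |Int.fract x - c / (σ i).1| ≤ 2 * 2 ^ (σ i).2 / N := by
        have h11 : |Int.fract x - c / (σ i).1| ≤ |Int.fract x - z i| + |z i - c / (σ i).1| :=
          abs_sub_le _ _ _
        have h12 : (1 : ℝ) ≤ 2 ^ (σ i).2 := one_le_pow₀ (by norm_num)
        have h13 : (1 : ℝ) / N ≤ 2 ^ (σ i).2 / N := div_le_div_of_nonneg_right h12 hNp.le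
        have h14 : (2 : ℝ) * 2 ^ (σ i).2 / N = 2 ^ (σ i).2 / N + 2 ^ (σ i).2 / N := by ring
        linarith
      have e1 : ((σ i).1 : ℝ) * x = (σ i).1 * Int.fract x + (((σ i).1 * ⌊x⌋ : ℤ) : ℝ) := by
        push_cast
        rw [← mul_add]
        congr 1
        exact (Int.fract_add_floor x).symm
      rw [e1, nd_add_int]
      refine (nd_le_abs _ (c : ℤ)).trans ?_
      have e2 : ((σ i).1 : ℝ) * Int.fract x - ((c : ℤ) : ℝ) = (σ i).1 * (Int.fract x - c / (σ i).1) := by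
        push_cast
        field_simp
      rw [e2, abs_mul, abs_of_pos hg0]
      refine (mul_le_mul_of_nonneg_left h10 hg0.le).trans (le_of_eq ?_)
      unfold kap
      ring
    · intro x k
      simp only [B_add_int, Int.fract_add_intCast]
    · intro x k
      simp only [Int.fract_add_intCast]
  · intro s hs
    have := (hSI s hs).2
    omega
  · have h1 : (∑ s ∈ S, kap s) * (n₀ * H ^ 2 / (81 * N ^ 2 * dm * JJ N ^ 2)) = ∑ s ∈ S, w s := by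
      rw [sum_mul]
      refine sum_congr rfl fun s _ => ?_
      simp only [hw]
      ring
    rw [h1]
    refine hsum.trans ?_
    by_cases h2 : (A₀.card : ℝ) < n₀
    · exact le_max_of_le_left h2.le
    · push Not at h2
      refine le_max_of_le_right ?_
      exact card_upper a b ha hb N D M H dm A₀ z hD hM hDM hN8 (hcell A₀ (Subset.refl _)) hdm1 hdm hH0 hH
        (hBig A₀ (Subset.refl _)) (hnumA A₀ (Subset.refl _) h2)

end Pool.Agent.Lib.MP_6cded1_nt.M3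
end

section

/-!
# One level with the final parameters
-/

set_option autoImplicit false

open Finset Pool.Agent.Lib.MP_6cded1_nt.ML

namespace Pool.Agent.Lib.MP_6cded1_nt.M3

theorem norm_le_one_of_mult (f : ℕ → ℂ) (hf : Mult f) (n : ℕ) : ‖f n‖ ≤ 1 := by
  by_cases h : Squarefree n
  · exact (hf.one n h).le
  · rw [hf.zero n h, norm_zero]
    exact zero_le_one

theorem EE_mono (W : ℕ) (t : ℝ) (g h : ℝ → ℝ) (hgh : ∀ x, g x ≤ h x) : EE W t g ≤ EE W t h := by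
  unfold EE
  exact div_le_div_of_nonneg_right (Finset.sum_le_sum fun j _ => hgh _) (Nat.cast_nonneg _)

theorem EE_add (W : ℕ) (t : ℝ) (g h : ℝ → ℝ) : EE W t (fun x => g x + h x) = EE W t g + EE W t h := by
  unfold EE
  rw [Finset.sum_add_distrib, add_div]

theorem EE_sum (W : ℕ) (t : ℝ) (J : ℕ) (g : ℕ → ℝ → ℝ) :
    EE W t (fun x => ∑ j ∈ range J, g j x) = ∑ j ∈ range J, EE W t (g j) := by
  unfold EE
  rw [Finset.sum_comm, Finset.sum_div]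

theorem EE_const_mul (W : ℕ) (t c : ℝ) (g : ℝ → ℝ) : EE W t (fun x => c * g x) = c * EE W t g := by
  unfold EE
  rw [← Finset.mul_sum, mul_div_assoc]

open Classical in
theorem level_final3 (u : ℝ) (hu : 0 < u) (hu1 : u ≤ 1 / 1000) : ∃ N₀ : ℕ, ∀ N : ℕ, N₀ ≤ N → ∀ f : ℕ → ℂ, Mult f →
    ∀ (W : ℕ) (t : ℝ), N < W → (∀ p : ℕ, p.Prime → p ≤ N → p ^ 2 ∣ W) → 0 ≤ t → t ≤ 1 / W → ∀ H : ℝ,
    tu u N ≤ H → H ≤ N →
    EE W t (fun z => ‖F f N z‖ * sel (H < ‖B (fp f) (fp f) (Du u N) (Mu u N) z‖ ∧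
      ‖B (fp f) (fp f) (Du u N) (Mu u N) z‖ ≤ 2 * H) ‖B (fp f) (fp f) (Du u N) (Mu u N) z‖) ≤
      tu u N * EE W t (fun z => ‖F f N z‖) + 5 * (N : ℝ) ^ (1 - u) := by
  obtain ⟨N1, h1⟩ := num_basic3 u hu hu1
  obtain ⟨N2, h2⟩ := num_dense u hu hu1
  obtain ⟨N3, h3⟩ := num_K u hu hu1
  obtain ⟨N4, h4⟩ := num_div u hu
  obtain ⟨N5, h5⟩ := num_P u hu hu1
  obtain ⟨N6, h6⟩ := num_C u hu hu1
  obtain ⟨N7, h7⟩ := num_KP u hu hu1
  obtain ⟨N8, h8⟩ := num_B3 u hu hu1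
  obtain ⟨N9, h9⟩ := num_A3 u hu hu1
  refine ⟨N1 + N2 + N3 + N4 + N5 + N6 + N7 + N8 + N9, ?_⟩
  intro N hN f hf W t hW hpW ht ht' H hH hHN
  obtain ⟨b1, b2, b3, b4, b5, b6, b7, b8, b9, b10, b11⟩ := h1 N (by omega)
  have hdense := h2 N (by omega) H hH
  have hK := h3 N (by omega) H hH
  have hdiv := h4 N (by omega)
  obtain ⟨p1, p2, p3, p4, p5, p6, p7⟩ := h5 N (by omega) H hH hHN
  have hC := h6 N (by omega) H hH hHN
  obtain ⟨k1, k2⟩ := h7 N (by omega) H hH hHN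
  have hBn := h8 N (by omega) H hH hHN
  have hAn := h9 N (by omega) H hH hHN
  set D := Du u N with hD_def
  set M := Mu u N with hM_def
  set P := Pu u N H with hP_def
  have hN1 : 1 ≤ N := by
    have : 1 * 1 ≤ D * M := Nat.mul_le_mul b1 b2
    have e : 4 * D * M = 4 * (D * M) := by ring
    omega
  have hNr : (0 : ℝ) < N := by exact_mod_cast hN1
  have hτ : 0 < tu u N := lt_of_lt_of_le one_pos b8
  have hH0 : 0 < H := lt_of_lt_of_le hτ hH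
  have h2M : 2 * M ≤ N := by
    have : 1 * M ≤ D * M := Nat.mul_le_mul_right M b1
    have e : 4 * D * M = 4 * (D * M) := by ring
    omega
  set a := fp f with ha_def
  have ha : ∀ d, ‖a d‖ ≤ 1 := norm_fp_le f hf
  have hHD : 9 * (N : ℝ) * D ≤ H ^ 2 := by
    refine b10.trans ?_
    exact pow_le_pow_left₀ hτ.le hH 2
  have hn0 : 0 < nu u N H := by
    unfold nu
    positivity
  obtain ⟨S, l, C, hCc, hl, hS2, hKS⟩ := structure_thm a a ha ha N D M H (du u N) (nu u N H) hN1 b1 b2 b3 b4 b11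
    (fun g hg1 hg2 => hdiv g hg1 (by omega)) hH0 hHD hn0 hdense
  have hZ := hK _ hKS
  set Z : ℝ := ∑ s ∈ S, kap s with hZ_def
  have hZ0 : 0 ≤ Z := Finset.sum_nonneg fun s _ => kap_nonneg s
  have hkapZ : ∀ s ∈ S, kap s ≤ Ku u N H := fun s hs =>
    (Finset.single_le_sum (f := kap) (fun s _ => kap_nonneg s) hs).trans hZ
  have hsm : ∀ s ∈ S, 64 * kap s * P ^ 2 < N := by
    intro s hs
    refine lt_of_le_of_lt ?_ k1
    have := hkapZ s hs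
    gcongr
  have hpars : EE W t (fun x => ‖F f N x‖ ^ 2) ≤ N := grid_parseval f (norm_le_one_of_mult f hf) N W hW t
  have hPW : ∀ p ∈ PP P, p ^ 2 ∣ W := by
    intro p hp
    unfold PP at hp
    rw [Finset.mem_filter, Finset.mem_Ioc] at hp
    exact hpW p hp.2 (le_trans hp.1.2 p2)
  have hC₂ : ∀ s ∈ S, ((PP P).filter fun p => p ∣ s.1).card + 1 ≤ Cu u := by
    intro s hs
    refine hC s.1 (hl.pos s hs) ?_
    have := hS2 s hs
    omega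
  have hE0 : 0 ≤ EE W t (fun z => ‖F f N z‖) := by
    unfold EE
    exact div_nonneg (Finset.sum_nonneg fun j _ => norm_nonneg _) (Nat.cast_nonneg _)
  have hcard : (0 : ℝ) < (PP P).card := by
    have : 0 < (PP P).card := by
      have : 1 ≤ Cu u := by
        unfold Cu
        omega
      omega
    exact_mod_cast this
  -- the bad cells
  have hbad := bad_part f a a N D M W H t (nu u N H) hN1 hW.le ht ht' hH0.le hpars C hCc
    (fun z => (H < ‖B a a D M z‖ ∧ ‖B a a D M z‖ ≤ 2 * H) ∧ ⌊(N : ℝ) * Int.fract z⌋₊ ∈ C)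
    (fun z hz => hz.1.2) (fun z hz => hz.2)
  have hbad2 : 4 * H * Real.sqrt (nu u N H) = 4 * (N : ℝ) ^ (1 - u) := by
    have e1 : nu u N H = ((N : ℝ) ^ (1 - u) / H) ^ 2 := by
      unfold nu
      rw [div_pow, ← Real.rpow_natCast ((N : ℝ) ^ (1 - u)) 2, ← Real.rpow_mul hNr.le]
      congr 2
      push_cast
      ring
    rw [e1, Real.sqrt_sq (by positivity)]
    field_simp
  rw [hbad2] at hbad
  -- the good cells
  have hgood : EE W t (fun z => ‖F f N z‖ * sel ((H < ‖B a a D M z‖ ∧ ‖B a a D M z‖ ≤ 2 * H) ∧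
      ⌊(N : ℝ) * Int.fract z⌋₊ ∉ C) ‖B a a D M z‖) ≤
      tu u N * EE W t (fun z => ‖F f N z‖) + (N : ℝ) ^ (1 - u) := by
    have h16 : (4 * H) * (4 * (Cu u : ℝ) * EE W t (fun z => ‖F f N z‖)) ≤
        (PP P).card * (tu u N * EE W t (fun z => ‖F f N z‖)) := by
      have := mul_le_mul_of_nonneg_right p7 hE0
      linarith
    have hfin : (PP P).card * EE W t (fun z => ‖F f N z‖ * sel ((H < ‖B a a D M z‖ ∧ ‖B a a D M z‖ ≤ 2 * H) ∧
        ⌊(N : ℝ) * Int.fract z⌋₊ ∉ C) ‖B a a D M z‖) ≤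
        (PP P).card * (tu u N * EE W t (fun z => ‖F f N z‖) + (N : ℝ) ^ (1 - u)) := by
      rcases le_total H ((N : ℝ) ^ ((13 : ℝ) / 14 + u)) with hc | hc
      · have hb := levelB3 f hf a a N D M P W H t hN1 hW.le hPW hH0.le S _ l hl (fun z hz => hz.1.2) (Cu u) hC₂ p6
          hpars ht ht' hsm
        have hb2 := hBn hc Z hZ0 hZ
        rw [mul_add] at hb
        rw [mul_add]
        exact hb.trans (add_le_add h16 hb2)
      · have hsm3 : ∀ s ∈ S, ∀ s' ∈ S, 1024 * kap s * kap s' * P ^ 3 < N := by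
          intro s hs s' hs'
          refine lt_of_le_of_lt ?_ (k2 hc)
          have e1 := hkapZ s hs
          have e2 := hkapZ s' hs'
          have e3 := kap_nonneg s
          have e4 := kap_nonneg s'
          have e5 : 0 ≤ Ku u N H := e3.trans e1
          gcongr
        have hb := levelA3 f hf a a N D M P W H t hN1 p1 hW.le hPW hH0.le S _ l hl (fun z hz => hz.1.2) (Cu u)
          (by unfold Cu; omega) hC₂ p6 hpars ht ht' hsm hsm3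
        have hb2 := hAn Z hZ0 hZ
        rw [mul_add] at hb
        rw [mul_add]
        exact hb.trans (add_le_add h16 hb2)
    exact le_of_mul_le_mul_left hfin hcard
  have hsplit : ∀ z, ‖F f N z‖ * sel (H < ‖B a a D M z‖ ∧ ‖B a a D M z‖ ≤ 2 * H) ‖B a a D M z‖ ≤
      ‖F f N z‖ * sel ((H < ‖B a a D M z‖ ∧ ‖B a a D M z‖ ≤ 2 * H) ∧ ⌊(N : ℝ) * Int.fract z⌋₊ ∉ C) ‖B a a D M z‖ +
      ‖F f N z‖ * sel ((H < ‖B a a D M z‖ ∧ ‖B a a D M z‖ ≤ 2 * H) ∧ ⌊(N : ℝ) * Int.fract z⌋₊ ∈ C) ‖B a a D M z‖ := by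
    intro z
    rw [← mul_add]
    refine mul_le_mul_of_nonneg_left ?_ (norm_nonneg _)
    by_cases hA : H < ‖B a a D M z‖ ∧ ‖B a a D M z‖ ≤ 2 * H
    · by_cases hB : ⌊(N : ℝ) * Int.fract z⌋₊ ∈ C
      · rw [sel_pos hA, sel_pos (A := (H < ‖B a a D M z‖ ∧ ‖B a a D M z‖ ≤ 2 * H) ∧ ⌊(N : ℝ) * Int.fract z⌋₊ ∈ C) ⟨hA, hB⟩]
        have := sel_nonneg (A := (H < ‖B a a D M z‖ ∧ ‖B a a D M z‖ ≤ 2 * H) ∧ ⌊(N : ℝ) * Int.fract z⌋₊ ∉ C)
          (norm_nonneg (B a a D M z))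
        linarith
      · rw [sel_pos hA, sel_pos (A := (H < ‖B a a D M z‖ ∧ ‖B a a D M z‖ ≤ 2 * H) ∧ ⌊(N : ℝ) * Int.fract z⌋₊ ∉ C) ⟨hA, hB⟩]
        have := sel_nonneg (A := (H < ‖B a a D M z‖ ∧ ‖B a a D M z‖ ≤ 2 * H) ∧ ⌊(N : ℝ) * Int.fract z⌋₊ ∈ C)
          (norm_nonneg (B a a D M z))
        linarith
    · rw [sel_neg hA]
      exact add_nonneg (sel_nonneg (norm_nonneg _)) (sel_nonneg (norm_nonneg _))
  refine (EE_mono W t _ _ hsplit).trans ?_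
  rw [EE_add]
  linarith

end Pool.Agent.Lib.MP_6cded1_nt.M3
end

section

/-!
# The main theorem
-/

set_option autoImplicit false

open Finset Pool.Agent.Lib.MP_6cded1_nt.ML

namespace Pool.Agent.Lib.MP_6cded1_nt.M3

/-- pointwise splitting of `‖B‖` into levels -/
theorem split_levels (τ b : ℝ) (J : ℕ) (hτ : 0 < τ) (hb : b ≤ 2 ^ J * τ) :
    b ≤ τ + ∑ j ∈ range J, sel (2 ^ j * τ < b ∧ b ≤ 2 * (2 ^ j * τ)) b := by
  by_cases h1 : b ≤ τ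
  · by_cases hb0 : 0 ≤ b
    · have e2 : 0 ≤ ∑ j ∈ range J, sel (2 ^ j * τ < b ∧ b ≤ 2 * (2 ^ j * τ)) b :=
        Finset.sum_nonneg fun j _ => sel_nonneg hb0
      linarith
    · push Not at hb0
      have e2 : ∑ j ∈ range J, sel (2 ^ j * τ < b ∧ b ≤ 2 * (2 ^ j * τ)) b = 0 := by
        refine Finset.sum_eq_zero ?_
        intro j _
        refine sel_neg (fun h => ?_) _
        have : 0 < 2 ^ j * τ := by positivity
        linarith [h.1]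
      rw [e2]
      linarith
  · push Not at h1
    have hb0 : 0 < b := lt_trans hτ h1
    have hex : ∃ j, b ≤ 2 ^ j * τ := ⟨J, hb⟩
    classical
    set k := Nat.find hex with hk
    have hk1 : b ≤ 2 ^ k * τ := Nat.find_spec hex
    have hk0 : k ≠ 0 := by
      intro h0
      rw [h0, pow_zero, one_mul] at hk1
      linarith
    obtain ⟨i, hi⟩ : ∃ i, k = i + 1 := ⟨k - 1, by omega⟩
    have hi1 : ¬ b ≤ 2 ^ i * τ := Nat.find_min hex (by omega)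
    have hkJ : k ≤ J := Nat.find_min' hex hb
    have hiJ : i ∈ range J := Finset.mem_range.2 (by omega)
    have e2 : b ≤ ∑ j ∈ range J, sel (2 ^ j * τ < b ∧ b ≤ 2 * (2 ^ j * τ)) b := by
      have e3 : sel (2 ^ i * τ < b ∧ b ≤ 2 * (2 ^ i * τ)) b = b := by
        refine sel_pos ⟨not_le.1 hi1, ?_⟩ _
        rw [hi, pow_succ] at hk1
        linarith
      calc b = sel (2 ^ i * τ < b ∧ b ≤ 2 * (2 ^ i * τ)) b := e3.symm
        _ ≤ _ := Finset.single_le_sum (f := fun j => sel (2 ^ j * τ < b ∧ b ≤ 2 * (2 ^ j * τ)) b)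
            (fun j _ => sel_nonneg hb0.le) hiJ
    linarith

theorem main_u (u : ℝ) (hu : 0 < u) (hu1 : u ≤ 1 / 1000) : ∃ N₀ : ℕ, ∀ N : ℕ, N₀ ≤ N → ∀ f : ℕ → ℂ, Mult f →
    (N : ℝ) ^ ((2 : ℝ) / 7 - 5 * u) ≤ ∫ x in (0 : ℝ)..1, ‖F f N x‖ := by
  obtain ⟨N2, h2⟩ := level_final3 u hu hu1
  obtain ⟨N3, h3⟩ := num_pair u hu hu1
  obtain ⟨N4, h4⟩ := num_final3 u hu hu1
  obtain ⟨N5, h5⟩ := num_basic3 u hu hu1
  refine ⟨N2 + N3 + N4 + N5 + 4, ?_⟩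
  intro N hN f hf
  obtain ⟨b1, b2, b3, b4, b5, b6, b7, b8, b9, b10, b11⟩ := h5 N (by omega)
  have hτ : 0 < tu u N := lt_of_lt_of_le one_pos b8
  set W : ℕ := (N.factorial) ^ 2 with hW_def
  have hWN : N < W := by
    have e1 : N ≤ N.factorial := Nat.self_le_factorial N
    have e2 : N * N ≤ W := by
      rw [hW_def, sq]
      exact Nat.mul_le_mul e1 e1
    have e3 : N < N * N := by nlinarith
    omega
  have hW1 : 1 ≤ W := by omega
  have hpW : ∀ p : ℕ, p.Prime → p ≤ N → p ^ 2 ∣ W := by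
    intro p hp hpN
    exact pow_dvd_pow_of_dvd (Nat.dvd_factorial hp.pos hpN) 2
  obtain ⟨t, ht0, ht1, htL⟩ := exists_grid f N W hW1
  have k2 := h2 N (by omega) f hf W t hWN hpW ht0 ht1
  have k3 := h3 N (by omega)
  set L := EE W t (fun z => ‖F f N z‖) with hL
  have hL0 : 0 ≤ L := by
    rw [hL]
    unfold EE
    exact div_nonneg (Finset.sum_nonneg fun j _ => norm_nonneg _) (Nat.cast_nonneg _)
  refine le_trans ?_ htL
  apply h4 N (by omega) L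
  set a := fp f with ha_def
  have ha : ∀ d, ‖a d‖ ≤ 1 := norm_fp_le f hf
  have hBN : ∀ z, ‖B a a (Du u N) (Mu u N) z‖ ≤ N := by
    intro z
    refine (norm_B_le a a ha ha (Du u N) (Mu u N) z).trans ?_
    have e1 : ((4 * Du u N * Mu u N : ℕ) : ℝ) ≤ N := by exact_mod_cast b3
    push_cast at e1
    have e2 : (0 : ℝ) ≤ (Du u N : ℝ) * Mu u N := by positivity
    nlinarith
  have hJ : ∀ z, ‖B a a (Du u N) (Mu u N) z‖ ≤ 2 ^ (Nat.log 2 N + 1) * tu u N := by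
    intro z
    refine (hBN z).trans ?_
    have e1 : N < 2 ^ (Nat.log 2 N + 1) := Nat.lt_pow_succ_log_self (by norm_num) N
    have e2 : (N : ℝ) ≤ 2 ^ (Nat.log 2 N + 1) := by exact_mod_cast e1.le
    have e3 : (0 : ℝ) ≤ 2 ^ (Nat.log 2 N + 1) := by positivity
    nlinarith
  -- the pairing
  have hpair := grid_pairing f a a N (Du u N) (Mu u N) W hWN b3 t
  have hcount := pairing_count f hf (Du u N) (Mu u N)
  rw [← hpair] at hcount
  have hup : ‖(∑ j ∈ range W, F f N (gp W t j) * (starRingEnd ℂ) (B a a (Du u N) (Mu u N) (gp W t j))) / W‖ ≤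
      EE W t (fun z => ‖F f N z‖ * ‖B a a (Du u N) (Mu u N) z‖) := by
    unfold EE
    rw [norm_div, Complex.norm_natCast]
    refine div_le_div_of_nonneg_right ?_ (Nat.cast_nonneg _)
    refine (norm_sum_le _ _).trans (Finset.sum_le_sum ?_)
    intro j _
    rw [norm_mul, RCLike.norm_conj]
  have hpt : ∀ z, ‖F f N z‖ * ‖B a a (Du u N) (Mu u N) z‖ ≤ tu u N * ‖F f N z‖ +
      ∑ j ∈ range (Nat.log 2 N + 1), ‖F f N z‖ * sel (2 ^ j * tu u N < ‖B a a (Du u N) (Mu u N) z‖ ∧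
        ‖B a a (Du u N) (Mu u N) z‖ ≤ 2 * (2 ^ j * tu u N)) ‖B a a (Du u N) (Mu u N) z‖ := by
    intro z
    have e1 := split_levels (tu u N) ‖B a a (Du u N) (Mu u N) z‖ (Nat.log 2 N + 1) hτ (hJ z)
    have e2 := mul_le_mul_of_nonneg_left e1 (norm_nonneg (F f N z))
    rw [← Finset.mul_sum]
    linarith
  have htot := EE_mono W t _ _ hpt
  rw [EE_add, EE_const_mul, EE_sum] at htot
  have hlev : ∑ j ∈ range (Nat.log 2 N + 1), EE W t (fun z => ‖F f N z‖ *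
      sel (2 ^ j * tu u N < ‖B a a (Du u N) (Mu u N) z‖ ∧
        ‖B a a (Du u N) (Mu u N) z‖ ≤ 2 * (2 ^ j * tu u N)) ‖B a a (Du u N) (Mu u N) z‖) ≤
      ((Nat.log 2 N + 1 : ℕ) : ℝ) * (tu u N * L + 5 * (N : ℝ) ^ (1 - u)) := by
    have e1 : ∀ j ∈ range (Nat.log 2 N + 1), EE W t (fun z => ‖F f N z‖ *
      sel (2 ^ j * tu u N < ‖B a a (Du u N) (Mu u N) z‖ ∧
        ‖B a a (Du u N) (Mu u N) z‖ ≤ 2 * (2 ^ j * tu u N)) ‖B a a (Du u N) (Mu u N) z‖) ≤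
        tu u N * L + 5 * (N : ℝ) ^ (1 - u) := by
      intro j _
      have hge : tu u N ≤ 2 ^ j * tu u N := by
        have : (1 : ℝ) ≤ 2 ^ j := one_le_pow₀ (by norm_num)
        nlinarith
      rcases le_total (2 ^ j * tu u N) (N : ℝ) with hc | hc
      · exact k2 (2 ^ j * tu u N) hge hc
      · have e4 : EE W t (fun z => ‖F f N z‖ *
          sel (2 ^ j * tu u N < ‖B a a (Du u N) (Mu u N) z‖ ∧
            ‖B a a (Du u N) (Mu u N) z‖ ≤ 2 * (2 ^ j * tu u N)) ‖B a a (Du u N) (Mu u N) z‖) = 0 := by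
          unfold EE
          rw [Finset.sum_eq_zero, zero_div]
          intro i _
          simp only
          rw [sel_neg, mul_zero]
          rintro ⟨h, _⟩
          have := hBN (gp W t i)
          linarith
        rw [e4]
        positivity
    refine (Finset.sum_le_sum e1).trans ?_
    rw [Finset.sum_const, Finset.card_range, nsmul_eq_mul]
  have hall := k3.trans (hcount.trans (hup.trans htot))
  linarith

theorem main_eps (ε : ℝ) (hε : 0 < ε) : ∃ N₀ : ℕ, ∀ N : ℕ, N₀ ≤ N → ∀ f : ℕ → ℂ, Mult f →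
    (N : ℝ) ^ ((2 : ℝ) / 7 - ε) ≤ ∫ x in (0 : ℝ)..1, ‖F f N x‖ := by
  have hu : 0 < min (ε / 5) (1 / 1000) := lt_min (by positivity) (by norm_num)
  obtain ⟨N₀, h⟩ := main_u (min (ε / 5) (1 / 1000)) hu (min_le_right _ _)
  refine ⟨max N₀ 1, fun N hN f hf => ?_⟩
  refine le_trans ?_ (h N (le_trans (le_max_left _ _) hN) f hf)
  have hN1 : (1 : ℝ) ≤ N := by exact_mod_cast le_trans (le_max_right _ _) hN
  apply Real.rpow_le_rpow_of_exponent_le hN1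
  have := min_le_left (ε / 5) (1 / 1000 : ℝ)
  linarith

end Pool.Agent.Lib.MP_6cded1_nt.M3
end
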